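import Mathlib

set_option autoImplicit false
set_option linter.unusedSectionVars false

open Finset

noncomputable section

namespace FA

/-! ## Markov generators with finitely many moves and bounded rates -/

/-- a real function is bounded -/
def Bd {X : Type} (F : X → ℝ) : Prop := ∃ M : ℝ, ∀ x, |F x| ≤ M

/-- exponential series of an operator, evaluated pointwise -/
def semi {X : Type} (L : (X → ℝ) → X → ℝ) (t : ℝ) (F : X → ℝ) (x : X) : ℝ :=
  ∑' n : ℕ, t ^ n / (n.factorial : ℝ) * (L^[n] F) x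

/-- finitely many moves `T i` with nonnegative rates `r i x`, total rate at most `N` -/
structure MG (X : Type) where
  ι : Type
  I : Finset ι
  r : ι → X → ℝ
  T : ι → X → X
  N : ℝ
  hN : 0 < N
  hr : ∀ i ∈ I, ∀ x, 0 ≤ r i x
  hs : ∀ x, ∑ i ∈ I, r i x ≤ N

namespace MG

variable {X : Type} (G : MG X)

/-- the generator -/
def L (F : X → ℝ) (x : X) : ℝ := ∑ i ∈ G.I, G.r i x * (F (G.T i x) - F x)

/-- the uniformised one-step operator -/
def K (F : X → ℝ) (x : X) : ℝ := F x + G.L F x / G.N

/-- the semigroup -/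
def P (t : ℝ) (F : X → ℝ) : X → ℝ := semi G.L t F

end MG

/-! ## Finitely supported probability measures -/

structure FM (X : Type) where
  s : Finset X
  w : X → ℝ
  hw : ∀ x ∈ s, 0 < w x
  hone : ∑ x ∈ s, w x = 1

namespace FM

variable {X : Type} (m : FM X)

def E (F : X → ℝ) : ℝ := ∑ x ∈ m.s, m.w x * F x

def Var (F : X → ℝ) : ℝ := m.E (fun x => F x ^ 2) - (m.E F) ^ 2

/-- entropy functional -/
def Ent (F : X → ℝ) : ℝ := m.E (fun x => F x * Real.log (F x)) - m.E F * Real.log (m.E F)

end FM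

/-- reversibility of the generator with respect to a finitely supported measure -/
def Rev {X : Type} (G : MG X) (m : FM X) : Prop :=
  ∀ F H : X → ℝ, m.E (fun x => F x * G.L H x) = m.E (fun x => H x * G.L F x)

/-- Dirichlet form -/
def Dir {X : Type} (G : MG X) (m : FM X) (F : X → ℝ) : ℝ := - m.E (fun x => F x * G.L F x)

/-! ## Configurations: finite sets `S` of infected sites in `ℤ` -/

/-- weight of `U ∩ A` under the Bernoulli product measure on subsets of `A` -/
def wt (q : ℝ) (A U : Finset ℤ) : ℝ := q ^ (A ∩ U).card * (1 - q) ^ (A \ U).card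

/-- average over the sites of `A`, the configuration outside `A` being kept -/
def av (q : ℝ) (A : Finset ℤ) (F : Finset ℤ → ℝ) (S : Finset ℤ) : ℝ :=
  ∑ U ∈ A.powerset, wt q A U * F ((S \ A) ∪ U)

/-- variance with respect to the sites of `A` -/
def va (q : ℝ) (A : Finset ℤ) (F : Finset ℤ → ℝ) (S : Finset ℤ) : ℝ :=
  av q A (fun U => F U ^ 2) S - (av q A F S) ^ 2

/-- variance at the site `x` -/
def vx (q : ℝ) (x : ℤ) (F : Finset ℤ → ℝ) (S : Finset ℤ) : ℝ :=
  q * (1 - q) * (F (insert x S) - F (S.erase x)) ^ 2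

/-- expectation under the product measure on subsets of `A` -/
def EA (q : ℝ) (A : Finset ℤ) (F : Finset ℤ → ℝ) : ℝ := ∑ U ∈ A.powerset, wt q A U * F U

/-- FA-1f constraint at `x` inside the region `A` (sites outside `A` count as healthy) -/
def cst (A : Finset ℤ) (x : ℤ) (S : Finset ℤ) : ℝ :=
  if (x - 1 ∈ A ∧ x - 1 ∈ S) ∨ (x + 1 ∈ A ∧ x + 1 ∈ S) then 1 else 0

/-- generator of FA-1f in the region `A` -/
def gen (q : ℝ) (A : Finset ℤ) (F : Finset ℤ → ℝ) (S : Finset ℤ) : ℝ :=
  ∑ x ∈ A, cst A x S * (q * F (insert x S) + (1 - q) * F (S.erase x) - F S)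

/-- total mass of nonempty configurations -/
def Zn (q : ℝ) (A : Finset ℤ) : ℝ := 1 - (1 - q) ^ A.card

/-- the product measure conditioned on having at least one infected site -/
def EN (q : ℝ) (A : Finset ℤ) (F : Finset ℤ → ℝ) : ℝ :=
  (∑ U ∈ A.powerset.filter (fun U => U.Nonempty), wt q A U * F U) / Zn q A

/-- East constraint on `Icc a b`, the site left of `a` being infected -/
def ce (a y : ℤ) (S : Finset ℤ) : ℝ := if y = a ∨ y - 1 ∈ S then 1 else 0

theorem cst_nonneg (A : Finset ℤ) (x : ℤ) (S : Finset ℤ) : 0 ≤ cst A x S := by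
  unfold cst; split_ifs <;> norm_num

theorem cst_le (A : Finset ℤ) (x : ℤ) (S : Finset ℤ) : cst A x S ≤ 1 := by
  unfold cst; split_ifs <;> norm_num

/-- FA-1f in the region `A` as a Markov generator -/
def faG (q : ℝ) (h0 : 0 ≤ q) (h1 : q ≤ 1) (A : Finset ℤ) : MG (Finset ℤ) where
  ι := ℤ × Bool
  I := A ×ˢ (Finset.univ : Finset Bool)
  r := fun p S => cst A p.1 S * (if p.2 then q else 1 - q)
  T := fun p S => if p.2 then insert p.1 S else S.erase p.1
  N := (A.card : ℝ) + 1
  hN := by positivity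
  hr := by
    intro i _ x
    apply mul_nonneg (cst_nonneg _ _ _)
    split_ifs <;> linarith
  hs := by
    intro S
    rw [Finset.sum_product]
    have : ∀ x ∈ A, ∑ y : Bool, cst A x S * (if y = true then q else 1 - q) ≤ 1 := by
      intro x _
      rw [Fintype.sum_bool]
      have := cst_le A x S
      simp
      nlinarith
    calc _ ≤ ∑ x ∈ A, (1:ℝ) := Finset.sum_le_sum this
      _ ≤ _ := by simp

theorem faG_L (q : ℝ) (h0 : 0 ≤ q) (h1 : q ≤ 1) (A : Finset ℤ) (F : Finset ℤ → ℝ) (S : Finset ℤ) :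
    (faG q h0 h1 A).L F S = gen q A F S := by
  unfold MG.L faG gen
  rw [Finset.sum_product]
  apply Finset.sum_congr rfl
  intro x _
  rw [Fintype.sum_bool]
  simp
  ring

end FA
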