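import Mathlib
import Pool.Agent.Helper769.FAG.D60668

set_option autoImplicit false
set_option linter.unusedSectionVars false

open Finset

noncomputable section

-- ---- TARGET (prove everything below; everything above is GIVEN, sorrys above are proved elsewhere)
namespace FA
variable {X : Type} (G : MG X) (m : FM X)

theorem dir_E_mono (F H : X → ℝ) (h : ∀ x, F x ≤ H x) : m.E F ≤ m.E H := by
  unfold FM.E
  apply Finset.sum_le_sum
  intro x hx
  exact mul_le_mul_of_nonneg_left (h x) (m.hw x hx).le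

/-- carre du champ identity -/
theorem dir_gamma (hrev : Rev G m) (F H : X → ℝ) :
    - m.E (fun x => F x * G.L H x) =
      (1 / 2) * m.E (fun x => ∑ i ∈ G.I, G.r i x * ((F (G.T i x) - F x) * (H (G.T i x) - H x))) := by
  have h1 : ∀ x, G.L (fun y => F y * H y) x = F x * G.L H x + H x * G.L F x +
      ∑ i ∈ G.I, G.r i x * ((F (G.T i x) - F x) * (H (G.T i x) - H x)) := by
    intro x
    unfold MG.L
    rw [Finset.mul_sum, Finset.mul_sum, ← Finset.sum_add_distrib, ← Finset.sum_add_distrib]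
    apply Finset.sum_congr rfl
    intro i _
    ring
  have h2 : m.E (fun x => (1 : ℝ) * G.L (fun y => F y * H y) x) = 0 := by
    rw [hrev (fun _ => 1) (fun y => F y * H y)]
    unfold FM.E MG.L
    simp
  have h3 : m.E (fun x => (1 : ℝ) * G.L (fun y => F y * H y) x) =
      m.E (fun x => F x * G.L H x) + m.E (fun x => H x * G.L F x) +
      m.E (fun x => ∑ i ∈ G.I, G.r i x * ((F (G.T i x) - F x) * (H (G.T i x) - H x))) := by
    simp only [h1, one_mul]
    unfold FM.E
    rw [← Finset.sum_add_distrib, ← Finset.sum_add_distrib]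
    apply Finset.sum_congr rfl
    intro x _
    ring
  have h4 := hrev F H
  rw [h2] at h3
  linarith

theorem dir_log_aux1 {s t : ℝ} (ht : 0 < t) (hst : t ≤ s) :
    2 * (s - t) ≤ (Real.log s - Real.log t) * (s + t) := by
  have hs : 0 < s := lt_of_lt_of_le ht hst
  have h1 := Real.le_log_one_add_of_nonneg (x := s / t - 1) (by
    rw [sub_nonneg, le_div_iff₀ ht, one_mul]
    exact hst)
  have h2 : 1 + (s / t - 1) = s / t := by ring
  rw [h2, Real.log_div hs.ne' ht.ne'] at h1
  have h3 : 2 * (s / t - 1) / (s / t - 1 + 2) = 2 * (s - t) / (s + t) := by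
    have : s + t ≠ 0 := by positivity
    have h4 : s / t - 1 + 2 = (s + t) / t := by
      field_simp
      ring
    rw [h4]
    field_simp
  rw [h3, div_le_iff₀ (by positivity)] at h1
  exact h1

theorem dir_log_aux {a b : ℝ} (ha : 0 < a) (hb : 0 < b) :
    4 * (Real.sqrt a - Real.sqrt b) ^ 2 ≤ (Real.log a - Real.log b) * (a - b) := by
  wlog hab : b ≤ a generalizing a b
  · have := this hb ha (le_of_not_ge hab)
    nlinarith
  · have hs : 0 < Real.sqrt a := Real.sqrt_pos.2 ha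
    have ht : 0 < Real.sqrt b := Real.sqrt_pos.2 hb
    have hst : Real.sqrt b ≤ Real.sqrt a := Real.sqrt_le_sqrt hab
    have h1 := dir_log_aux1 ht hst
    have ha2 : Real.sqrt a * Real.sqrt a = a := Real.mul_self_sqrt ha.le
    have hb2 : Real.sqrt b * Real.sqrt b = b := Real.mul_self_sqrt hb.le
    have hla : Real.log a = 2 * Real.log (Real.sqrt a) := by
      rw [Real.log_sqrt ha.le]
      ring
    have hlb : Real.log b = 2 * Real.log (Real.sqrt b) := by
      rw [Real.log_sqrt hb.le]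
      ring
    have h2 : a - b = (Real.sqrt a - Real.sqrt b) * (Real.sqrt a + Real.sqrt b) := by
      nlinarith
    rw [hla, hlb, h2]
    have h3 : 0 ≤ Real.sqrt a - Real.sqrt b := by linarith
    have h4 := mul_le_mul_of_nonneg_left h1 h3
    nlinarith

theorem dir_rpow_aux1 {a b : ℝ} (hb : 0 < b) (hab : b < a) (p : ℝ) (hp : 1 < p) :
    4 * (p - 1) / p ^ 2 * (a ^ (p / 2) - b ^ (p / 2)) ^ 2 ≤
      (a ^ (p - 1) - b ^ (p - 1)) * (a - b) := by
  have hp0 : 0 < p := by linarith
  have hd : 0 < a - b := by linarith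
  set I1 : ℝ := ∫ x in b..a, x ^ (p / 2 - 1) with hI1
  set I2 : ℝ := ∫ x in b..a, x ^ (p - 2) with hI2
  have e1 : I1 = (a ^ (p / 2) - b ^ (p / 2)) / (p / 2) := by
    rw [hI1, integral_rpow (Or.inl (by linarith))]
    norm_num
  have e2 : I2 = (a ^ (p - 1) - b ^ (p - 1)) / (p - 1) := by
    rw [hI2, integral_rpow (Or.inl (by linarith))]
    have : p - 2 + 1 = p - 1 := by ring
    rw [this]
  set c : ℝ := I1 / (a - b) with hc
  have i1 : IntervalIntegrable (fun x : ℝ => x ^ (p / 2 - 1)) MeasureTheory.volume b a :=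
    intervalIntegral.intervalIntegrable_rpow' (by linarith)
  have i2 : IntervalIntegrable (fun x : ℝ => x ^ (p - 2)) MeasureTheory.volume b a :=
    intervalIntegral.intervalIntegrable_rpow' (by linarith)
  have h1 : 0 ≤ ∫ x in b..a, (x ^ (p / 2 - 1) - c) ^ 2 :=
    intervalIntegral.integral_nonneg hab.le (fun x _ => sq_nonneg _)
  have h2 : ∫ x in b..a, (x ^ (p / 2 - 1) - c) ^ 2 =
      ∫ x in b..a, ((x ^ (p - 2) - (2 * c) * x ^ (p / 2 - 1)) + c ^ 2) := by
    apply intervalIntegral.integral_congr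
    intro x hx
    rw [Set.uIcc_of_le hab.le] at hx
    have hx0 : 0 < x := lt_of_lt_of_le hb hx.1
    have h3 : x ^ (p - 2) = (x ^ (p / 2 - 1)) ^ 2 := by
      rw [pow_two, ← Real.rpow_add hx0]
      congr 1
      ring
    show (x ^ (p / 2 - 1) - c) ^ 2 = (x ^ (p - 2) - (2 * c) * x ^ (p / 2 - 1)) + c ^ 2
    rw [h3]
    ring
  have i3 : IntervalIntegrable (fun x : ℝ => (2 * c) * x ^ (p / 2 - 1)) MeasureTheory.volume b a :=
    i1.const_mul _
  have i4 : IntervalIntegrable (fun x : ℝ => x ^ (p - 2) - (2 * c) * x ^ (p / 2 - 1))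
    MeasureTheory.volume b a := i2.sub i3
  have i5 : IntervalIntegrable (fun _ : ℝ => c ^ 2) MeasureTheory.volume b a :=
    intervalIntegrable_const
  rw [h2, intervalIntegral.integral_add i4 i5, intervalIntegral.integral_sub i2 i3,
    intervalIntegral.integral_const_mul, intervalIntegral.integral_const, ← hI1, ← hI2,
    smul_eq_mul] at h1
  have h3 : I1 ^ 2 ≤ (a - b) * I2 := by
    have h4 : I1 = c * (a - b) := by
      rw [hc]
      field_simp
    rw [h4] at h1 ⊢
    have h5 : 0 ≤ I2 - c ^ 2 * (a - b) := by nlinarith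
    have h6 := mul_nonneg hd.le h5
    nlinarith
  have h4 : 4 * (p - 1) / p ^ 2 * (a ^ (p / 2) - b ^ (p / 2)) ^ 2 = (p - 1) * I1 ^ 2 := by
    rw [e1]
    field_simp
    ring
  have h5 : (a ^ (p - 1) - b ^ (p - 1)) * (a - b) = (p - 1) * ((a - b) * I2) := by
    rw [e2]
    have : p - 1 ≠ 0 := by linarith
    field_simp
  rw [h4, h5]
  exact mul_le_mul_of_nonneg_left h3 (by linarith)

theorem dir_rpow_aux {a b : ℝ} (ha : 0 < a) (hb : 0 < b) (p : ℝ) (hp : 1 < p) :
    4 * (p - 1) / p ^ 2 * (a ^ (p / 2) - b ^ (p / 2)) ^ 2 ≤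
      (a ^ (p - 1) - b ^ (p - 1)) * (a - b) := by
  rcases lt_trichotomy a b with h | h | h
  · have := dir_rpow_aux1 ha h p hp
    calc 4 * (p - 1) / p ^ 2 * (a ^ (p / 2) - b ^ (p / 2)) ^ 2 =
        4 * (p - 1) / p ^ 2 * (b ^ (p / 2) - a ^ (p / 2)) ^ 2 := by ring
      _ ≤ (b ^ (p - 1) - a ^ (p - 1)) * (b - a) := this
      _ = (a ^ (p - 1) - b ^ (p - 1)) * (a - b) := by ring
  · rw [h]
    simp
  · exact dir_rpow_aux1 hb h p hp

theorem dir_log (hrev : Rev G m) (h : X → ℝ) (hpos : ∀ x, 0 < h x) :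
    4 * Dir G m (fun x => Real.sqrt (h x)) ≤ - m.E (fun x => Real.log (h x) * G.L h x) := by
  unfold Dir
  rw [dir_gamma G m hrev, dir_gamma G m hrev (fun x => Real.log (h x)) h]
  have h1 : ∀ F : X → ℝ, 4 * (1 / 2 * m.E F) = 1 / 2 * m.E (fun x => 4 * F x) := by
    intro F
    unfold FM.E
    rw [Finset.mul_sum, Finset.mul_sum, Finset.mul_sum]
    apply Finset.sum_congr rfl
    intro x _
    ring
  rw [h1]
  apply mul_le_mul_of_nonneg_left _ (by norm_num)
  unfold FM.E
  apply Finset.sum_le_sum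
  intro x hx
  apply mul_le_mul_of_nonneg_left _ (m.hw x hx).le
  beta_reduce
  rw [Finset.mul_sum]
  apply Finset.sum_le_sum
  intro i hi
  have h2 := dir_log_aux (hpos (G.T i x)) (hpos x)
  have h3 := mul_le_mul_of_nonneg_left h2 (G.hr i hi x)
  calc 4 * (G.r i x * ((Real.sqrt (h (G.T i x)) - Real.sqrt (h x)) *
      (Real.sqrt (h (G.T i x)) - Real.sqrt (h x)))) =
      G.r i x * (4 * (Real.sqrt (h (G.T i x)) - Real.sqrt (h x)) ^ 2) := by ring
    _ ≤ _ := h3

theorem dir_rpow (hrev : Rev G m) (g : X → ℝ) (hpos : ∀ x, 0 < g x) (p : ℝ) (hp : 1 < p) :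
    4 * (p - 1) / p ^ 2 * Dir G m (fun x => g x ^ (p / 2)) ≤
      - m.E (fun x => g x ^ (p - 1) * G.L g x) := by
  unfold Dir
  rw [dir_gamma G m hrev, dir_gamma G m hrev (fun x => g x ^ (p - 1)) g]
  have h1 : ∀ F : X → ℝ, 4 * (p - 1) / p ^ 2 * (1 / 2 * m.E F) =
      1 / 2 * m.E (fun x => 4 * (p - 1) / p ^ 2 * F x) := by
    intro F
    unfold FM.E
    rw [Finset.mul_sum, Finset.mul_sum, Finset.mul_sum]
    apply Finset.sum_congr rfl
    intro x _
    ring
  rw [h1]
  apply mul_le_mul_of_nonneg_left _ (by norm_num)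
  unfold FM.E
  apply Finset.sum_le_sum
  intro x hx
  apply mul_le_mul_of_nonneg_left _ (m.hw x hx).le
  beta_reduce
  rw [Finset.mul_sum]
  apply Finset.sum_le_sum
  intro i hi
  have h2 := dir_rpow_aux (hpos (G.T i x)) (hpos x) p hp
  have h3 := mul_le_mul_of_nonneg_left h2 (G.hr i hi x)
  calc 4 * (p - 1) / p ^ 2 * (G.r i x * ((g (G.T i x) ^ (p / 2) - g x ^ (p / 2)) *
      (g (G.T i x) ^ (p / 2) - g x ^ (p / 2)))) =
      G.r i x * (4 * (p - 1) / p ^ 2 * (g (G.T i x) ^ (p / 2) - g x ^ (p / 2)) ^ 2) := by ring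
    _ ≤ _ := h3

end FA

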