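import Mathlib
import Pool.Agent.Helper769.FAG.D60668
import Pool.Agent.Helper769.FAG.G1
import Pool.Agent.Helper769.FAG.Dce33a
import Pool.Agent.Helper769.FAG.S10

set_option autoImplicit false
set_option linter.unusedSectionVars false

open Finset

noncomputable section

namespace FA

theorem wt_sum_ne (q : ℝ) (B : Finset ℤ) :
    ∑ U ∈ B.powerset.filter (fun U => U.Nonempty), wt q B U = Zn q B := by
  have h := wt_sum q B
  rw [← Finset.sum_filter_add_sum_filter_not B.powerset (fun U => U.Nonempty)] at h
  have h2 : B.powerset.filter (fun U => ¬ U.Nonempty) = {∅} := by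
    ext U
    simp only [Finset.mem_filter, Finset.mem_powerset, Finset.not_nonempty_iff_eq_empty,
      Finset.mem_singleton]
    constructor
    · exact fun h => h.2
    · intro h; subst h; exact ⟨Finset.empty_subset _, rfl⟩
  rw [h2, Finset.sum_singleton] at h
  have h3 : wt q B ∅ = (1 - q) ^ B.card := by simp [wt]
  rw [h3] at h
  unfold Zn
  linarith

theorem Zn_pos' {q : ℝ} (h0 : 0 < q) (h1 : q < 1) (A : Finset ℤ) (hA : A.Nonempty) : 0 < Zn q A := by
  unfold Zn
  have : (1 - q) ^ A.card < 1 := by
    apply pow_lt_one₀ (by linarith) (by linarith)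
    exact (Finset.card_pos.2 hA).ne'
  linarith

/-- resampling of the block `B` inside nonempty configurations; identity if the block is empty -/
def avN (q : ℝ) (B : Finset ℤ) (F : Finset ℤ → ℝ) (S : Finset ℤ) : ℝ :=
  if S ∩ B = ∅ then F S else
    (∑ U ∈ B.powerset.filter (fun U => U.Nonempty), wt q B U * F ((S \ B) ∪ U)) / Zn q B

/-- the same as an averaging operator -/
def blk (q : ℝ) (h0 : 0 < q) (h1 : q < 1) (B : Finset ℤ) : AO (Finset ℤ) where
  κ := Finset ℤ
  K := fun S => if S ∩ B = ∅ then {∅} else B.powerset.filter (fun U => U.Nonempty)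
  w := fun S U => if S ∩ B = ∅ then 1 else wt q B U / Zn q B
  c := fun S U => if S ∩ B = ∅ then S else (S \ B) ∪ U
  hw := by
    intro S U _
    split_ifs with h
    · norm_num
    · have hB : B.Nonempty := by
        by_contra hB
        rw [Finset.not_nonempty_iff_eq_empty] at hB
        subst hB
        simp at h
      exact div_nonneg (wt_pos h0 h1 B U).le (Zn_pos' h0 h1 B hB).le
  hone := by
    intro S
    split_ifs with h
    · simp
    · have hB : B.Nonempty := by
        by_contra hB
        rw [Finset.not_nonempty_iff_eq_empty] at hB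
        subst hB
        simp at h
      rw [← Finset.sum_div, wt_sum_ne]
      exact div_self (Zn_pos' h0 h1 B hB).ne'

/-- the `i`-th block of length `ℓ`, the first block starting at `o` -/
def Bk (o : ℤ) (ℓ : ℕ) (i : ℕ) : Finset ℤ := Icc (o + i * ℓ) (o + i * ℓ + ℓ - 1)

end FA
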