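import Mathlib
import Pool.Agent.Helper769.FAG.D60668
import Pool.Agent.Helper769.FAG.G1

set_option autoImplicit false
set_option linter.unusedSectionVars false

open Finset

noncomputable section

-- ---- TARGET (prove everything below; everything above is GIVEN, sorrys above are proved elsewhere)
-- USES: G1
namespace FA
variable {q : ℝ}

theorem be_sd (S B U : Finset ℤ) (hU : U ⊆ B) : ((S \ B) ∪ U) \ B = S \ B := by
  ext x
  simp only [mem_sdiff, mem_union]
  constructor
  · rintro ⟨h | h, h2⟩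
    · exact h
    · exact absurd (hU h) h2
  · rintro ⟨h1, h2⟩
    exact ⟨Or.inl ⟨h1, h2⟩, h2⟩

theorem be_av_out (q : ℝ) (B : Finset ℤ) (F : Finset ℤ → ℝ) (S U : Finset ℤ) (hU : U ⊆ B) :
    av q B F ((S \ B) ∪ U) = av q B F S :=
  av_out q B F _ _ (be_sd S B U hU)

theorem be_av_indep (q : ℝ) (B : Finset ℤ) (h : Finset ℤ → ℝ) (S : Finset ℤ)
    (hh : ∀ U ⊆ B, h ((S \ B) ∪ U) = h S) : av q B h S = h S := by
  rw [av_congr q B h (fun _ => h S) S hh, av_const]

theorem be_av_idem (q : ℝ) (B : Finset ℤ) (F : Finset ℤ → ℝ) (S : Finset ℤ) :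
    av q B (av q B F) S = av q B F S :=
  be_av_indep q B _ S fun U hU => be_av_out q B F S U hU

theorem be_av_absorb (q : ℝ) {A B : Finset ℤ} (hBA : B ⊆ A) (F : Finset ℤ → ℝ) (S : Finset ℤ) :
    av q A (av q B F) S = av q A F S := by
  have hd : Disjoint (A \ B) B := Finset.sdiff_disjoint
  have hA : (A \ B) ∪ B = A := Finset.sdiff_union_of_subset hBA
  have h1 := av_av q hd (av q B F) S
  have h2 := av_av q hd F S
  rw [hA] at h1 h2
  rw [← h1, ← h2]
  congr 1
  funext T
  exact be_av_idem q B F T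

theorem be_va_out (q : ℝ) (A : Finset ℤ) (F : Finset ℤ → ℝ) (S U : Finset ℤ) (hU : U ⊆ A) :
    va q A F ((S \ A) ∪ U) = va q A F S := by
  unfold va
  rw [be_av_out q A _ S U hU, be_av_out q A _ S U hU]

theorem be_va_self (q : ℝ) (A : Finset ℤ) (F : Finset ℤ → ℝ) (S : Finset ℤ) :
    av q A (va q A F) S = va q A F S :=
  be_av_indep q A _ S fun U hU => be_va_out q A F S U hU

theorem be_va_add_le (h0 : 0 ≤ q) (h1 : q ≤ 1) (A : Finset ℤ) (u v : Finset ℤ → ℝ)
    (S : Finset ℤ) :
    va q A (fun T => u T + v T) S ≤ 2 * va q A u S + 2 * va q A v S := by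
  rw [va_eq, va_eq q A u, va_eq q A v, ← av_smul, ← av_smul, ← av_add]
  apply av_mono h0 h1
  intro U _
  rw [av_add]
  nlinarith [sq_nonneg ((u (S \ A ∪ U) - av q A u (S \ A ∪ U)) -
    (v (S \ A ∪ U) - av q A v (S \ A ∪ U)))]

theorem be_va_le_sq (q : ℝ) (A : Finset ℤ) (F : Finset ℤ → ℝ) (S : Finset ℤ) :
    va q A F S ≤ av q A (fun T => F T ^ 2) S := by
  unfold va
  nlinarith [sq_nonneg (av q A F S)]

theorem be_va_add_indep (q : ℝ) (A : Finset ℤ) (u h : Finset ℤ → ℝ) (S : Finset ℤ)
    (hh : ∀ T, ∀ U ⊆ A, h ((T \ A) ∪ U) = h T) :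
    va q A (fun T => u T + h T) S = va q A u S := by
  rw [va_eq, va_eq q A u]
  congr 1
  funext T
  rw [av_add, be_av_indep q A h T (hh T)]
  ring

theorem be_va_mul_indep (q : ℝ) (A : Finset ℤ) (c F : Finset ℤ → ℝ) (S : Finset ℤ)
    (hc01 : ∀ S, c S = 0 ∨ c S = 1) (hc : ∀ U ⊆ A, c ((S \ A) ∪ U) = c S) :
    va q A (fun T => c T * F T) S = c S * va q A F S := by
  unfold va
  have h1 : (fun U => (c U * F U) ^ 2) = fun U => c U * F U ^ 2 := by
    funext U
    rcases hc01 U with h | h <;> rw [h] <;> ring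
  rw [h1, av_mul_left q A c (fun U => F U ^ 2) S hc, av_mul_left q A c F S hc]
  rcases hc01 S with h | h <;> rw [h] <;> ring

theorem be_inter (S X Y U : Finset ℤ) (hU : U ⊆ X) (hd : Disjoint X Y) :
    ((S \ X) ∪ U) ∩ Y = S ∩ Y := by
  have hd' : ∀ x, x ∈ X → x ∉ Y := fun x h1 h2 => Finset.disjoint_left.1 hd h1 h2
  ext x
  simp only [mem_inter, mem_union, mem_sdiff]
  constructor
  · rintro ⟨⟨h1, _⟩ | h, h2⟩
    · exact ⟨h1, h2⟩
    · exact absurd h2 (hd' x (hU h))
  · rintro ⟨h1, h2⟩
    exact ⟨Or.inl ⟨h1, fun h => hd' x h h2⟩, h2⟩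

theorem be_step (h0 : 0 ≤ q) (h1 : q ≤ 1) (D B C : Finset ℤ) (hDB : Disjoint D B)
    (hDC : Disjoint D C) (hBC : Disjoint B C) (c F : Finset ℤ → ℝ)
    (hc01 : ∀ S, c S = 0 ∨ c S = 1)
    (hdep : ∀ S S' : Finset ℤ, S ∩ B = S' ∩ B → c S = c S')
    (hε : ∀ S, av q B (fun T => 1 - c T) S ≤ 1 / 8) (T : Finset ℤ) :
    va q C (av q (B ∪ D) F) T ≤ 2 * av q (B ∪ D) (fun R => c R * va q C F R) T +
      (1 / 4) * va q (C ∪ B) (av q D F) T := by
  have hCBD : Disjoint C (B ∪ D) := by
    rw [Finset.disjoint_union_right]; exact ⟨hBC.symm, hDC.symm⟩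
  have hcX : ∀ X : Finset ℤ, Disjoint X B → ∀ R, ∀ U ⊆ X, c ((R \ X) ∪ U) = c R := by
    intro X hX R U hU
    exact hdep _ _ (be_inter R X B U hU hX)
  -- splitting
  have hsplit : av q (B ∪ D) F = fun R => av q (B ∪ D) (fun R => c R * F R) R +
      av q (B ∪ D) (fun R => (1 - c R) * F R) R := by
    funext R
    rw [← av_add]
    congr 1
    funext R'
    ring
  -- first part
  have hfirst : va q C (av q (B ∪ D) (fun R => c R * F R)) T ≤
      av q (B ∪ D) (fun R => c R * va q C F R) T := by
    refine (va_av_le h0 h1 hCBD _ T).trans (le_of_eq ?_)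
    congr 1
    funext R
    exact be_va_mul_indep q C c F R hc01 (hcX C hBC.symm R)
  -- second part
  have hsec : va q C (av q (B ∪ D) (fun R => (1 - c R) * F R)) T ≤
      (1 / 8) * va q (C ∪ B) (av q D F) T := by
    set g := av q D F with hg
    set m := av q (C ∪ B) g with hm
    have he1 : av q (B ∪ D) (fun R => (1 - c R) * F R) = av q B (fun R => (1 - c R) * g R) := by
      funext R
      rw [← av_av q hDB.symm]
      congr 1
      funext R'
      exact av_mul_left q D (fun R => 1 - c R) F R' fun U hU => by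
        simp only [hcX D hDB R' U hU]
    have he2 : av q B (fun R => (1 - c R) * g R) = fun R =>
        av q B (fun R => (1 - c R) * (g R - m R)) R + av q B (fun R => (1 - c R) * m R) R := by
      funext R
      rw [← av_add]
      congr 1
      funext R'
      ring
    have hmB : ∀ R, ∀ U ⊆ B, m ((R \ B) ∪ U) = m R := by
      intro R U hU
      apply av_out
      ext x
      simp only [mem_sdiff, mem_union]
      constructor
      · rintro ⟨⟨h, _⟩ | h, h2⟩
        · exact ⟨h, h2⟩
        · exact absurd (Or.inr (hU h)) h2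
      · rintro ⟨h, h2⟩
        exact ⟨Or.inl ⟨h, fun h3 => h2 (Or.inr h3)⟩, h2⟩
    have hmC : ∀ R, ∀ U ⊆ C, m ((R \ C) ∪ U) = m R := by
      intro R U hU
      apply av_out
      ext x
      simp only [mem_sdiff, mem_union]
      constructor
      · rintro ⟨⟨h, _⟩ | h, h2⟩
        · exact ⟨h, h2⟩
        · exact absurd (Or.inl (hU h)) h2
      · rintro ⟨h, h2⟩
        exact ⟨Or.inl ⟨h, fun h3 => h2 (Or.inl h3)⟩, h2⟩
    have hk : ∀ R R', av q B (fun R => 1 - c R) R = av q B (fun R => 1 - c R) R' := by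
      intro R R'
      unfold av
      apply Finset.sum_congr rfl
      intro U hU
      have hU' := Finset.mem_powerset.1 hU
      have : c (R \ B ∪ U) = c (R' \ B ∪ U) := by
        apply hdep
        ext x
        simp only [mem_inter, mem_union, mem_sdiff]
        constructor
        · rintro ⟨⟨_, h⟩ | h, h2⟩
          · exact absurd h2 h
          · exact ⟨Or.inr h, h2⟩
        · rintro ⟨⟨_, h⟩ | h, h2⟩
          · exact absurd h2 h
          · exact ⟨Or.inr h, h2⟩
      simp only [this]
    have hmm : ∀ R, av q B (fun R => (1 - c R) * m R) R = m R * av q B (fun R => 1 - c R) R := by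
      intro R
      have : (fun R => (1 - c R) * m R) = fun R => m R * (1 - c R) := by
        funext R'; ring
      rw [this]
      exact av_mul_left q B m (fun R => 1 - c R) R (hmB R)
    have he3 : va q C (av q B (fun R => (1 - c R) * g R)) T =
        va q C (av q B (fun R => (1 - c R) * (g R - m R))) T := by
      rw [he2]
      apply be_va_add_indep
      intro R U hU
      rw [hmm, hmm, hmC R U hU, hk ((R \ C) ∪ U) R]
    rw [he1, he3]
    refine (be_va_le_sq q C _ T).trans ?_
    have he4 : ∀ R, (av q B (fun R => (1 - c R) * (g R - m R)) R) ^ 2 ≤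
        (1 / 8) * av q B (fun R => (g R - m R) ^ 2) R := by
      intro R
      refine (av_cs h0 h1 B (fun R => 1 - c R) (fun R => g R - m R) R).trans ?_
      have h5 : (fun T => (1 - c T) ^ 2) = fun T => 1 - c T := by
        funext R'
        rcases hc01 R' with h | h <;> rw [h] <;> norm_num
      rw [h5]
      exact mul_le_mul_of_nonneg_right (hε R) (av_nonneg h0 h1 B _ R fun _ => sq_nonneg _)
    have he5 : va q (C ∪ B) g T = av q C (av q B (fun R => (g R - m R) ^ 2)) T := by
      rw [va_eq, av_av q hBC.symm]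
    rw [he5, ← av_smul]
    apply av_mono h0 h1
    intro U _
    exact he4 _
  have hadd := be_va_add_le h0 h1 C (av q (B ∪ D) (fun R => c R * F R))
    (av q (B ∪ D) (fun R => (1 - c R) * F R)) T
  rw [hsplit]
  linarith

/-- generalised East chain with blocks: facilitation by the previous block -/
theorem block_east (h0 : 0 < q) (h1 : q < 1) (A : ℕ → Finset ℤ) (n : ℕ)
    (hd : ∀ i j, i < n → j < n → i ≠ j → Disjoint (A i) (A j))
    (c : ℕ → Finset ℤ → ℝ) (hc01 : ∀ i S, c i S = 0 ∨ c i S = 1) (hc0 : ∀ S, c 0 S = 1)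
    (hdep : ∀ i, i + 1 < n → ∀ S S' : Finset ℤ, S ∩ A i = S' ∩ A i → c (i + 1) S = c (i + 1) S')
    (hε : ∀ i, i + 1 < n → ∀ S, av q (A i) (fun T => 1 - c (i + 1) T) S ≤ 1 / 8)
    (F : Finset ℤ → ℝ) (S : Finset ℤ) :
    va q ((Finset.range n).biUnion A) F S ≤
      4 * av q ((Finset.range n).biUnion A) (fun T => ∑ i ∈ Finset.range n, c i T * va q (A i) F T) S := by
  have hq0 := h0.le
  have hq1 := h1.le
  obtain ⟨D, hD⟩ : ∃ D : ℕ → Finset ℤ, D = fun x => (Finset.range x).biUnion A := ⟨_, rfl⟩
  have hDs : ∀ x, D (x + 1) = A x ∪ D x := by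
    intro x
    rw [hD]
    simp only [Finset.range_add_one, Finset.biUnion_insert]
  have hD0 : D 0 = ∅ := by rw [hD]; simp
  have hDsub : ∀ x ≤ n, D x ⊆ D n := by
    intro x hx
    rw [hD]
    exact Finset.biUnion_subset_biUnion_of_subset_left A (Finset.range_subset_range.2 hx)
  have hAsub : ∀ x < n, A x ⊆ D n := by
    intro x hx
    rw [hD]
    exact Finset.subset_biUnion_of_mem A (Finset.mem_range.2 hx)
  have hDA : ∀ x y, x ≤ y → y < n → Disjoint (D x) (A y) := by
    intro x y hxy hy
    rw [hD, Finset.disjoint_biUnion_left]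
    intro i hi
    have hi' := Finset.mem_range.1 hi
    exact hd i y (by omega) hy (by omega)
  obtain ⟨a, ha⟩ : ∃ a : ℕ → ℝ, a = fun x => av q (D n) (va q (A x) (av q (D x) F)) S := ⟨_, rfl⟩
  obtain ⟨b, hb⟩ : ∃ b : ℕ → ℝ, b = fun x => av q (D n) (fun T => c x T * va q (A x) F T) S :=
    ⟨_, rfl⟩
  have ha0 : ∀ x, 0 ≤ a x := by
    intro x
    rw [ha]
    exact av_nonneg hq0 hq1 _ _ _ fun T => va_nonneg hq0 hq1 _ _ _
  have hb0 : ∀ x, 0 ≤ b x := by
    intro x
    rw [hb]
    refine av_nonneg hq0 hq1 _ _ _ fun T => mul_nonneg ?_ (va_nonneg hq0 hq1 _ _ _)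
    rcases hc01 x T with h | h <;> rw [h]
    norm_num
  have htel : ∀ m ≤ n, av q (D n) (va q (D m) F) S = ∑ x ∈ Finset.range m, a x := by
    intro m
    induction m with
    | zero =>
      intro _
      rw [hD0]
      simp only [Finset.range_zero, Finset.sum_empty]
      have : va q ∅ F = fun _ => 0 := by
        funext T
        unfold va
        rw [av_empty, av_empty]
        ring
      rw [this, av_const]
    | succ m ih =>
      intro hm
      rw [Finset.sum_range_succ, ← ih (by omega)]
      have h2 : va q (D (m + 1)) F = fun T => av q (A m) (va q (D m) F) T +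
          va q (A m) (av q (D m) F) T := by
        funext T
        rw [hDs m]
        exact va_union q (hDA m m le_rfl (by omega)).symm F T
      rw [h2, av_add, be_av_absorb q (hAsub m (by omega)), ha]
  have hfin : va q (D n) F S = ∑ x ∈ Finset.range n, a x := by
    rw [← htel n le_rfl, be_va_self]
  have hstep : ∀ x, x + 1 < n → a (x + 1) ≤ 2 * b (x + 1) + (1 / 4) * (a x + a (x + 1)) := by
    intro x hx
    have hBC : Disjoint (A x) (A (x + 1)) := hd x (x + 1) (by omega) hx (by omega)
    have hE : a (x + 1) ≤ av q (D n) (fun T =>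
        2 * av q (D (x + 1)) (fun R => c (x + 1) R * va q (A (x + 1)) F R) T +
        (1 / 4) * va q (A (x + 1) ∪ A x) (av q (D x) F) T) S := by
      rw [ha]
      apply av_mono hq0 hq1
      intro U _
      rw [hDs x]
      exact be_step hq0 hq1 (D x) (A x) (A (x + 1)) (hDA x x le_rfl (by omega))
        (hDA x (x + 1) (by omega) hx) hBC (c (x + 1)) F (hc01 (x + 1)) (hdep x hx) (hε x hx) _
    rw [av_add, av_smul, av_smul, be_av_absorb q (hDsub (x + 1) (by omega))] at hE
    have h3 : av q (D n) (va q (A (x + 1) ∪ A x) (av q (D x) F)) S = a x + a (x + 1) := by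
      have h4 : va q (A (x + 1) ∪ A x) (av q (D x) F) = fun T =>
          av q (A (x + 1)) (va q (A x) (av q (D x) F)) T +
            va q (A (x + 1)) (av q (D (x + 1)) F) T := by
        funext T
        rw [va_union q hBC.symm]
        have h5 : av q (A x) (av q (D x) F) = av q (D (x + 1)) F := by
          funext R
          rw [hDs x]
          exact av_av q (hDA x x le_rfl (by omega)).symm F R
        rw [h5]
      rw [h4, av_add, be_av_absorb q (hAsub (x + 1) hx), ha]
    have h6 : av q (D n) (fun R => c (x + 1) R * va q (A (x + 1)) F R) S = b (x + 1) := by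
      rw [hb]
    have h7 : av q (D n) (fun T => va q (A (x + 1) ∪ A x) (av q (D x) F) T) S =
      a x + a (x + 1) := h3
    rw [h7, h6] at hE
    exact hE
  have hbase : 0 < n → a 0 = b 0 := by
    intro _
    rw [ha, hb]
    simp only
    rw [hD0]
    have h2 : av q ∅ F = F := by
      funext T; exact av_empty q F T
    rw [h2]
    congr 1
    funext T
    rw [hc0, one_mul]
  have hsum : av q (D n) (fun T => ∑ i ∈ Finset.range n, c i T * va q (A i) F T) S =
      ∑ i ∈ Finset.range n, b i := by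
    rw [av_sum, hb]
  have hgoal : ∑ x ∈ Finset.range n, a x ≤ 4 * ∑ x ∈ Finset.range n, b x := by
    rcases n with _ | n
    · simp
    have h8 : ∑ x ∈ Finset.range n, a (x + 1) ≤ 2 * ∑ x ∈ Finset.range n, b (x + 1) +
        (1 / 4) * (∑ x ∈ Finset.range n, a x + ∑ x ∈ Finset.range n, a (x + 1)) := by
      rw [← Finset.sum_add_distrib, Finset.mul_sum, Finset.mul_sum, ← Finset.sum_add_distrib]
      apply Finset.sum_le_sum
      intro x hx
      exact hstep x (by have := Finset.mem_range.1 hx; omega)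
    have h9 : ∑ x ∈ Finset.range n, a x ≤ ∑ x ∈ Finset.range (n + 1), a x := by
      rw [Finset.sum_range_succ]
      have := ha0 n
      linarith
    have h10 := Finset.sum_range_succ' a n
    have h11 := Finset.sum_range_succ' b n
    have h12 := hbase (by omega)
    have h13 := ha0 0
    have h14 := hb0 0
    have h15 : 0 ≤ ∑ x ∈ Finset.range n, a (x + 1) := Finset.sum_nonneg fun x _ => ha0 _
    linarith
  have hDn : D n = (Finset.range n).biUnion A := by rw [hD]
  rw [← hDn, hfin, hsum]
  exact hgoal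

end FA

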