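import Mathlib
import Pool.Agent.Helper769.FAG.D60668
import Pool.Agent.Helper769.FAG.G1
import Pool.Agent.Helper769.FAG.G5

set_option autoImplicit false
set_option linter.unusedSectionVars false

open Finset

noncomputable section

-- ---- TARGET (prove everything below; everything above is GIVEN, sorrys above are proved elsewhere)
-- USES: G1 G5
namespace FA
variable {q : ℝ}

/-- Poincare inequality for a truncated geometric law -/
theorem geom_poincare (h0 : 0 < q) (h1 : q < 1) (n : ℕ) (f : ℕ → ℝ) (Z : ℝ)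
    (hZ : Z = ∑ k ∈ Finset.range (n + 1), q * (1 - q) ^ k) :
    (∑ k ∈ Finset.range (n + 1), q * (1 - q) ^ k / Z * f k ^ 2) -
      (∑ k ∈ Finset.range (n + 1), q * (1 - q) ^ k / Z * f k) ^ 2 ≤
      4 / q ^ 2 * ∑ k ∈ Finset.range n, q * (1 - q) ^ (k + 1) / Z * (f k - f (k + 1)) ^ 2 := by
  have hr : 0 < 1 - q := by linarith
  have hZ0 : 0 < Z := by
    rw [hZ]
    exact Finset.sum_pos (fun k _ => by positivity) ⟨0, by simp⟩
  obtain ⟨P, hP⟩ : ∃ P : ℕ → ℝ, ∀ k, P k = q * (1 - q) ^ k / Z := ⟨_, fun _ => rfl⟩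
  have hPpos : ∀ k, 0 < P k := fun k => by rw [hP]; positivity
  have hPsum : ∑ k ∈ Finset.range (n + 1), P k = 1 := by
    simp only [hP]
    rw [← Finset.sum_div, ← hZ, div_self hZ0.ne']
  have hPs : ∀ k, P (k + 1) = (1 - q) * P k := by
    intro k
    rw [hP, hP, pow_succ]
    ring
  simp only [← hP]
  obtain ⟨D, hD⟩ : ∃ D, D = ∑ k ∈ Finset.range n, P (k + 1) * (f k - f (k + 1)) ^ 2 := ⟨_, rfl⟩
  obtain ⟨G, hG⟩ : ∃ G, G = ∑ k ∈ Finset.range (n + 1), P k * (f k - f 0) ^ 2 := ⟨_, rfl⟩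
  rw [← hD]
  have hvar : (∑ k ∈ Finset.range (n + 1), P k * f k ^ 2) -
      (∑ k ∈ Finset.range (n + 1), P k * f k) ^ 2 ≤ G := by
    have e1 : G = (∑ k ∈ Finset.range (n + 1), P k * f k ^ 2) -
        2 * f 0 * (∑ k ∈ Finset.range (n + 1), P k * f k) + f 0 ^ 2 := by
      have : f 0 ^ 2 = f 0 ^ 2 * ∑ k ∈ Finset.range (n + 1), P k := by rw [hPsum, mul_one]
      rw [this, hG, Finset.mul_sum, Finset.mul_sum, ← Finset.sum_sub_distrib,
        ← Finset.sum_add_distrib]
      refine Finset.sum_congr rfl (fun k _ => ?_)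
      ring
    rw [e1]
    nlinarith [sq_nonneg ((∑ k ∈ Finset.range (n + 1), P k * f k) - f 0)]
  have hrec : G ≤ (1 - q / 2) * G + (2 - q) / q * D := by
    have e1 : G = ∑ k ∈ Finset.range n, P (k + 1) * (f (k + 1) - f 0) ^ 2 := by
      rw [hG, Finset.sum_range_succ']
      simp
    have e2 : ∑ k ∈ Finset.range n, P (k + 1) * (f (k + 1) - f 0) ^ 2 ≤
        ∑ k ∈ Finset.range n, ((1 - q / 2) * (P k * (f k - f 0) ^ 2) +
          (2 - q) / q * (P (k + 1) * (f k - f (k + 1)) ^ 2)) := by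
      refine Finset.sum_le_sum (fun k _ => ?_)
      have e3 : (1 - q) * (f (k + 1) - f 0) ^ 2 ≤ (1 - q / 2) * (f k - f 0) ^ 2 +
          (2 - q) / q * (1 - q) * (f k - f (k + 1)) ^ 2 := by
        have e4 : (1 - q / 2) * (f k - f 0) ^ 2 +
          (2 - q) / q * (1 - q) * (f k - f (k + 1)) ^ 2 - (1 - q) * (f (k + 1) - f 0) ^ 2 =
          (1 / (2 * q)) * (q * (f k - f 0) + 2 * (1 - q) * (f k - f (k + 1))) ^ 2 := by
          field_simp
          ring
        have e5 : 0 ≤ (1 / (2 * q)) *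
            (q * (f k - f 0) + 2 * (1 - q) * (f k - f (k + 1))) ^ 2 := by positivity
        linarith
      rw [hPs]
      have := mul_le_mul_of_nonneg_left e3 (hPpos k).le
      linarith
    have e3 : ∑ k ∈ Finset.range n, ((1 - q / 2) * (P k * (f k - f 0) ^ 2) +
          (2 - q) / q * (P (k + 1) * (f k - f (k + 1)) ^ 2)) =
        (1 - q / 2) * (∑ k ∈ Finset.range n, P k * (f k - f 0) ^ 2) + (2 - q) / q * D := by
      rw [Finset.sum_add_distrib, ← Finset.mul_sum, ← Finset.mul_sum, hD]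
    have e4 : ∑ k ∈ Finset.range n, P k * (f k - f 0) ^ 2 ≤ G := by
      rw [hG, Finset.sum_range_succ]
      have := mul_nonneg (hPpos n).le (sq_nonneg (f n - f 0))
      linarith
    have e5 : (1 - q / 2) * (∑ k ∈ Finset.range n, P k * (f k - f 0) ^ 2) ≤ (1 - q / 2) * G :=
      mul_le_mul_of_nonneg_left e4 (by linarith)
    linarith
  have hD0 : 0 ≤ D := by
    rw [hD]
    exact Finset.sum_nonneg (fun k _ => mul_nonneg (hPpos _).le (sq_nonneg _))
  refine hvar.trans ?_
  have h3 : q / 2 * G ≤ (2 - q) / q * D := by linarith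
  have h4 : (2 - q) / q * D ≤ 2 / q * D := by
    refine mul_le_mul_of_nonneg_right ?_ hD0
    exact div_le_div_of_nonneg_right (by linarith) h0.le
  have h5 : G = 2 / q * (q / 2 * G) := by field_simp
  rw [h5]
  calc 2 / q * (q / 2 * G) ≤ 2 / q * (2 / q * D) :=
        mul_le_mul_of_nonneg_left (h3.trans h4) (by positivity)
    _ = 4 / q ^ 2 * D := by field_simp; ring

theorem Icc_insert_left (a b : ℤ) (hab : a ≤ b) : Icc a b = {a} ∪ Icc (a + 1) b := by
  ext x
  simp only [Finset.mem_union, Finset.mem_singleton, Finset.mem_Icc]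
  omega

theorem disj_left (a b : ℤ) : Disjoint ({a} : Finset ℤ) (Icc (a + 1) b) := by
  rw [Finset.disjoint_singleton_left, Finset.mem_Icc]
  omega

theorem av_leftmost (F' F : Finset ℤ → ℝ) (hF : ∀ U : Finset ℤ, U.Nonempty → F' U = F U)
    (hF0 : F' ∅ = 0) (b : ℤ) :
    ∀ (m : ℕ) (a : ℤ), (b + 1 - a).toNat = m → av q (Icc a b) F' ∅ =
      ∑ x ∈ Icc a b, q * (1 - q) ^ (x - a).toNat * av q (Icc (x + 1) b) F {x} := by
  intro m
  induction m with
  | zero =>
    intro a ha
    have : Icc a b = ∅ := by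
      apply Finset.Icc_eq_empty
      omega
    rw [this, Finset.sum_empty, av_empty, hF0]
  | succ m ih =>
    intro a ha
    have hab : a ≤ b := by omega
    have ih' := ih (a + 1) (by omega)
    rw [Icc_insert_left a b hab, ← av_av q (disj_left a b), av_sing,
      Finset.sum_union (disj_left a b), Finset.sum_singleton]
    have e1 : (∅ : Finset ℤ).erase a = ∅ := by simp
    have e2 : (insert a ∅ : Finset ℤ) = {a} := rfl
    rw [e1, e2, ih']
    congr 1
    · rw [sub_self, Int.toNat_zero, pow_zero, mul_one]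
      congr 1
      refine av_congr q _ _ _ _ (fun U _ => hF _ ?_)
      refine ⟨a, Finset.mem_union_left _ ?_⟩
      rw [Finset.mem_sdiff, Finset.mem_singleton, Finset.mem_Icc]
      omega
    · rw [Finset.mul_sum]
      refine Finset.sum_congr rfl (fun x hx => ?_)
      rw [Finset.mem_Icc] at hx
      have : (x - a).toNat = (x - (a + 1)).toNat + 1 := by omega
      rw [this, pow_succ]
      ring

/-- decomposition of the conditioned measure by the leftmost infected site -/
theorem EN_leftmost (h0 : 0 < q) (h1 : q < 1) (a b : ℤ) (hab : a ≤ b) (F : Finset ℤ → ℝ) :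
    EN q (Icc a b) F = ∑ x ∈ Icc a b, q * (1 - q) ^ (x - a).toNat / Zn q (Icc a b) *
      av q (Icc (x + 1) b) F {x} := by
  classical
  unfold EN
  have e1 : ∑ U ∈ (Icc a b).powerset.filter (fun U => U.Nonempty), wt q (Icc a b) U * F U =
      av q (Icc a b) (fun U => if U.Nonempty then F U else 0) ∅ := by
    rw [← EA_eq_av]
    unfold EA
    rw [Finset.sum_filter]
    refine Finset.sum_congr rfl (fun U _ => ?_)
    beta_reduce
    split_ifs <;> simp
  rw [e1, av_leftmost (fun U => if U.Nonempty then F U else 0) F (fun U hU => if_pos hU) (by simp) b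
    _ a rfl, Finset.sum_div]
  refine Finset.sum_congr rfl (fun x _ => ?_)
  ring

theorem EN_range (h0 : 0 < q) (h1 : q < 1) (a : ℤ) (n : ℕ) (F : Finset ℤ → ℝ) :
    EN q (Icc a (a + n)) F = ∑ k ∈ Finset.range (n + 1),
      q * (1 - q) ^ k / Zn q (Icc a (a + n)) *
      av q (Icc (a + k + 1) (a + n)) F {a + (k : ℤ)} := by
  rw [EN_leftmost h0 h1 a (a + n) (by omega)]
  refine Finset.sum_bij' (fun (x : ℤ) _ => (x - a).toNat) (fun (k : ℕ) _ => a + (k : ℤ))
    ?_ ?_ ?_ ?_ ?_
  · intro x hx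
    rw [Finset.mem_Icc] at hx
    rw [Finset.mem_range]
    omega
  · intro k hk
    rw [Finset.mem_range] at hk
    rw [Finset.mem_Icc]
    omega
  · intro x hx
    rw [Finset.mem_Icc] at hx
    omega
  · intro k hk
    omega
  · intro x hx
    rw [Finset.mem_Icc] at hx
    have : a + ((x - a).toNat : ℤ) = x := by omega
    rw [this]

theorem Zn_range (a : ℤ) (n : ℕ) :
    Zn q (Icc a (a + n)) = ∑ k ∈ Finset.range (n + 1), q * (1 - q) ^ k := by
  unfold Zn
  have e1 : (Icc a (a + n)).card = n + 1 := by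
    rw [Int.card_Icc]
    omega
  rw [e1]
  have h := geom_sum_mul (1 - q) (n + 1)
  rw [← Finset.mul_sum]
  linarith

theorem vx_nonneg (h0 : 0 ≤ q) (h1 : q ≤ 1) (x : ℤ) (F : Finset ℤ → ℝ) (S : Finset ℤ) :
    0 ≤ vx q x F S := by
  unfold vx
  exact mul_nonneg (mul_nonneg h0 (by linarith)) (sq_nonneg _)

/-- the local estimate -/
theorem local_est (h0 : 0 < q) (h1 : q < 1) (x b : ℤ) (hxb : x + 1 ≤ b) (F D : Finset ℤ → ℝ)
    (hD : ∀ T : Finset ℤ, x + 1 ∈ T → x ∉ T → vx q x F T ≤ D T) :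
    (av q (Icc (x + 1) b) F {x} - av q (Icc (x + 1 + 1) b) F {x + 1}) ^ 2 ≤
      2 / q * va q (Icc (x + 1) b) F {x} +
      2 / (q * (1 - q)) * av q (Icc (x + 1 + 1) b) D {x + 1} := by
  have hr : 0 < 1 - q := by linarith
  obtain ⟨m1, hm1⟩ : ∃ m1, m1 = av q (Icc (x + 1 + 1) b) F (insert (x + 1) {x}) := ⟨_, rfl⟩
  obtain ⟨m0, hm0⟩ : ∃ m0, m0 = av q (Icc (x + 1 + 1) b) F {x} := ⟨_, rfl⟩
  have he : ({x} : Finset ℤ).erase (x + 1) = {x} := by
    apply Finset.erase_eq_of_notMem
    rw [Finset.mem_singleton]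
    omega
  have hF : av q (Icc (x + 1) b) F {x} = q * m1 + (1 - q) * m0 := by
    rw [Icc_insert_left (x + 1) b hxb, ← av_av q (disj_left (x + 1) b), av_sing, he, hm1, hm0]
  have hv : q * (1 - q) * (m1 - m0) ^ 2 ≤ va q (Icc (x + 1) b) F {x} := by
    rw [Icc_insert_left (x + 1) b hxb, va_union q (disj_left (x + 1) b), va_sing]
    have e1 : vx q (x + 1) (av q (Icc (x + 1 + 1) b) F) {x} = q * (1 - q) * (m1 - m0) ^ 2 := by
      unfold vx
      rw [he, hm1, hm0]
    rw [e1]
    have := av_nonneg h0.le h1.le {x + 1} (va q (Icc (x + 1 + 1) b) F) {x}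
      (fun T => va_nonneg h0.le h1.le _ _ _)
    linarith
  have h2 : (m1 - av q (Icc (x + 1 + 1) b) F {x + 1}) ^ 2 ≤
      1 / (q * (1 - q)) * av q (Icc (x + 1 + 1) b) D {x + 1} := by
    have e1 : m1 - av q (Icc (x + 1 + 1) b) F {x + 1} =
        av q (Icc (x + 1 + 1) b) (fun T => F (insert x T) - F T) {x + 1} := by
      have e2 : (fun T => F (insert x T) - F T) = (fun T => F (insert x T) + (-1) * F T) := by
        funext T
        ring
      rw [e2, av_add q _ (fun T => F (insert x T)) (fun T => (-1) * F T), av_smul]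
      have e3 : m1 = av q (Icc (x + 1 + 1) b) (fun T => F (insert x T)) {x + 1} := by
        rw [hm1]
        unfold av
        refine Finset.sum_congr rfl (fun U _ => ?_)
        congr 2
        ext y
        by_cases hy : y ∈ U
        · simp [hy]
        · simp only [Finset.mem_union, Finset.mem_sdiff, Finset.mem_insert, Finset.mem_singleton,
            Finset.mem_Icc, hy, or_false]
          omega
      rw [← e3]
      ring
    have e4 : (av q (Icc (x + 1 + 1) b) (fun T => F (insert x T) - F T) {x + 1}) ^ 2 ≤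
        av q (Icc (x + 1 + 1) b) (fun T => (F (insert x T) - F T) ^ 2) {x + 1} := by
      have := va_nonneg h0.le h1.le (Icc (x + 1 + 1) b) (fun T => F (insert x T) - F T) {x + 1}
      unfold va at this
      linarith
    have e5 : av q (Icc (x + 1 + 1) b) (fun T => (F (insert x T) - F T) ^ 2) {x + 1} ≤
        av q (Icc (x + 1 + 1) b) (fun T => 1 / (q * (1 - q)) * D T) {x + 1} := by
      refine av_mono h0.le h1.le _ _ _ _ (fun U hU => ?_)
      have hm : x + 1 ∈ ({x + 1} \ Icc (x + 1 + 1) b ∪ U : Finset ℤ) := by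
        refine Finset.mem_union_left _ (Finset.mem_sdiff.2 ⟨Finset.mem_singleton_self _, ?_⟩)
        rw [Finset.mem_Icc]
        omega
      have hn : x ∉ ({x + 1} \ Icc (x + 1 + 1) b ∪ U : Finset ℤ) := by
        intro h
        rw [Finset.mem_union] at h
        rcases h with h | h
        · simp only [Finset.mem_sdiff, Finset.mem_singleton] at h
          omega
        · have := Finset.mem_Icc.1 (hU h)
          omega
      have h3 := hD _ hm hn
      unfold vx at h3
      rw [Finset.erase_eq_of_notMem hn] at h3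
      rw [one_div, ← div_eq_inv_mul, le_div_iff₀ (by positivity)]
      linarith
    rw [e1]
    refine e4.trans (e5.trans ?_)
    rw [av_smul]
  have h1' : (av q (Icc (x + 1) b) F {x} - m1) ^ 2 ≤ 1 / q * va q (Icc (x + 1) b) F {x} := by
    rw [hF]
    rw [one_div, ← div_eq_inv_mul, le_div_iff₀ h0]
    have e1 : q * m1 + (1 - q) * m0 - m1 = -(1 - q) * (m1 - m0) := by ring
    rw [e1]
    have e2 : (-(1 - q) * (m1 - m0)) ^ 2 * q = (1 - q) * (q * (1 - q) * (m1 - m0) ^ 2) := by ring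
    rw [e2]
    have e3 : 0 ≤ q * (1 - q) * (m1 - m0) ^ 2 := by positivity
    nlinarith
  have h3 : (av q (Icc (x + 1) b) F {x} - av q (Icc (x + 1 + 1) b) F {x + 1}) ^ 2 ≤
      2 * (av q (Icc (x + 1) b) F {x} - m1) ^ 2 +
      2 * (m1 - av q (Icc (x + 1 + 1) b) F {x + 1}) ^ 2 := by
    nlinarith [sq_nonneg ((av q (Icc (x + 1) b) F {x} - m1) -
      (m1 - av q (Icc (x + 1 + 1) b) F {x + 1}))]
  have e6 : 2 / q * va q (Icc (x + 1) b) F {x} = 2 * (1 / q * va q (Icc (x + 1) b) F {x}) := by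
    ring
  have e7 : 2 / (q * (1 - q)) * av q (Icc (x + 1 + 1) b) D {x + 1} =
      2 * (1 / (q * (1 - q)) * av q (Icc (x + 1 + 1) b) D {x + 1}) := by ring
  rw [e6, e7]
  linarith

/-- uniform Poincare inequality for FA-1f on an interval, conditioned on having an infected site -/
theorem fa_gap (h0 : 0 < q) (h1 : q < 1) : ∃ C : ℝ, 0 < C ∧ ∀ a b : ℤ, a ≤ b →
    ∀ F : Finset ℤ → ℝ,
      EN q (Icc a b) (fun S => F S ^ 2) - (EN q (Icc a b) F) ^ 2 ≤
        C * EN q (Icc a b) (fun S => ∑ x ∈ Icc a b, cst (Icc a b) x S * vx q x F S) := by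
  have hr : 0 < 1 - q := by linarith
  obtain ⟨Γ, hΓ, hgap⟩ := east_gap h0 h1
  refine ⟨Γ + 4 / q ^ 2 * (2 / q * Γ + 2 / (q * (1 - q))), by positivity, ?_⟩
  intro a b hab F
  obtain ⟨n, rfl⟩ : ∃ n : ℕ, b = a + n := ⟨(b - a).toNat, by omega⟩
  obtain ⟨D, hD⟩ : ∃ D : Finset ℤ → ℝ, ∀ S, D S = ∑ x ∈ Icc a (a + n),
    cst (Icc a (a + n)) x S * vx q x F S := ⟨_, fun _ => rfl⟩
  simp only [← hD]
  have hZ := Zn_range (q := q) a n
  have hZ0 : 0 < Zn q (Icc a (a + n)) := by
    rw [hZ]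
    exact Finset.sum_pos (fun k _ => by positivity) ⟨0, by simp⟩
  obtain ⟨P, hP⟩ : ∃ P : ℕ → ℝ, ∀ k, P k = q * (1 - q) ^ k / Zn q (Icc a (a + n)) :=
    ⟨_, fun _ => rfl⟩
  have hPpos : ∀ k, 0 < P k := fun k => by rw [hP]; positivity
  have hPs : ∀ k, P (k + 1) ≤ P k := by
    intro k
    have : P (k + 1) = (1 - q) * P k := by
      rw [hP, hP, pow_succ]
      ring
    rw [this]
    have := hPpos k
    nlinarith
  have hD0 : ∀ S, 0 ≤ D S := by
    intro S
    rw [hD]
    exact Finset.sum_nonneg (fun x _ => mul_nonneg (cst_nonneg _ _ _) (vx_nonneg h0.le h1.le _ _ _))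
  rw [EN_range h0 h1, EN_range h0 h1, EN_range h0 h1]
  simp only [← hP]
  obtain ⟨Fh, hFh⟩ : ∃ Fh : ℕ → ℝ, ∀ k : ℕ,
    Fh k = av q (Icc (a + k + 1) (a + n)) F {a + (k : ℤ)} := ⟨_, fun _ => rfl⟩
  obtain ⟨v, hv⟩ : ∃ v : ℕ → ℝ, ∀ k : ℕ,
    v k = va q (Icc (a + k + 1) (a + n)) F {a + (k : ℤ)} := ⟨_, fun _ => rfl⟩
  obtain ⟨d, hd⟩ : ∃ d : ℕ → ℝ, ∀ k : ℕ,
    d k = av q (Icc (a + k + 1) (a + n)) D {a + (k : ℤ)} := ⟨_, fun _ => rfl⟩
  have hv0 : ∀ k, 0 ≤ v k := by
    intro k
    rw [hv]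
    exact va_nonneg h0.le h1.le _ _ _
  have hd0 : ∀ k, 0 ≤ d k := by
    intro k
    rw [hd]
    exact av_nonneg h0.le h1.le _ _ _ hD0
  have e1 : ∀ k : ℕ, av q (Icc (a + k + 1) (a + n)) (fun S => F S ^ 2) {a + (k : ℤ)} =
      v k + Fh k ^ 2 := by
    intro k
    rw [hv, hFh]
    unfold va
    ring
  simp only [e1, ← hFh, ← hd]
  -- local energies
  have hi : ∀ k : ℕ, v k ≤ Γ * d k := by
    intro k
    rw [hv, hd]
    refine (hgap (a + k + 1) (a + n) F {a + (k : ℤ)}).trans ?_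
    refine mul_le_mul_of_nonneg_left ?_ hΓ.le
    refine av_mono h0.le h1.le _ _ _ _ (fun U hU => ?_)
    have hmem : a + (k : ℤ) ∈ ({a + (k : ℤ)} \ Icc (a + k + 1) (a + n) ∪ U : Finset ℤ) := by
      refine Finset.mem_union_left _ (Finset.mem_sdiff.2 ⟨Finset.mem_singleton_self _, ?_⟩)
      rw [Finset.mem_Icc]
      omega
    rw [hD]
    have hsub : Icc (a + (k : ℤ) + 1) (a + n) ⊆ Icc a (a + n) := by
      intro y hy
      rw [Finset.mem_Icc] at hy ⊢
      omega
    refine le_trans (Finset.sum_le_sum (fun y hy => ?_))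
      (Finset.sum_le_sum_of_subset_of_nonneg hsub (fun y _ _ =>
        mul_nonneg (cst_nonneg _ _ _) (vx_nonneg h0.le h1.le _ _ _)))
    refine mul_le_mul_of_nonneg_right ?_ (vx_nonneg h0.le h1.le _ _ _)
    rw [Finset.mem_Icc] at hy
    unfold ce cst
    split_ifs with h2 h3 h3
    · exact le_rfl
    · exfalso
      apply h3
      left
      rcases h2 with h2 | h2
      · rw [h2, add_sub_cancel_right]
        exact ⟨Finset.mem_Icc.2 (by omega), hmem⟩
      · exact ⟨Finset.mem_Icc.2 (by omega), h2⟩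
    · norm_num
    · exact le_rfl
  have hloc : ∀ k ∈ Finset.range n, (Fh k - Fh (k + 1)) ^ 2 ≤ 2 / q * v k +
      2 / (q * (1 - q)) * d (k + 1) := by
    intro k hk
    rw [Finset.mem_range] at hk
    rw [hFh, hFh, hv, hd]
    push_cast
    have := local_est h0 h1 (a + k) (a + n) (by omega) F D (fun T hT1 hT2 => by
      rw [hD]
      have h4 : vx q (a + k) F T = cst (Icc a (a + n)) (a + k) T * vx q (a + k) F T := by
        unfold cst
        rw [if_pos, one_mul]
        right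
        exact ⟨Finset.mem_Icc.2 (by omega), hT1⟩
      rw [h4]
      exact Finset.single_le_sum (f := fun x => cst (Icc a (a + n)) x T * vx q x F T)
        (fun y _ => mul_nonneg (cst_nonneg _ _ _) (vx_nonneg h0.le h1.le _ _ _))
        (Finset.mem_Icc.2 (by omega)))
    rw [← add_assoc a (k : ℤ) 1]
    exact this
  have hpoin := geom_poincare h0 h1 n Fh _ hZ
  simp only [← hP] at hpoin
  obtain ⟨E, hE⟩ : ∃ E, E = ∑ k ∈ Finset.range (n + 1), P k * d k := ⟨_, rfl⟩
  rw [← hE]
  have s1 : ∑ k ∈ Finset.range (n + 1), P k * v k ≤ Γ * E := by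
    rw [hE, Finset.mul_sum]
    refine Finset.sum_le_sum (fun k _ => ?_)
    have := mul_le_mul_of_nonneg_left (hi k) (hPpos k).le
    linarith
  have s2 : ∑ k ∈ Finset.range n, P (k + 1) * (Fh k - Fh (k + 1)) ^ 2 ≤
      (2 / q * Γ + 2 / (q * (1 - q))) * E := by
    have t1 : ∑ k ∈ Finset.range n, P (k + 1) * (Fh k - Fh (k + 1)) ^ 2 ≤
        ∑ k ∈ Finset.range n, (2 / q * (P k * v k) + 2 / (q * (1 - q)) * (P (k + 1) * d (k + 1))) := by
      refine Finset.sum_le_sum (fun k hk => ?_)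
      have u1 := mul_le_mul_of_nonneg_left (hloc k hk) (hPpos (k + 1)).le
      have u2 := mul_le_mul_of_nonneg_right (hPs k) (hv0 k)
      have u3 : 0 < 2 / q := by positivity
      have u4 := mul_le_mul_of_nonneg_left u2 u3.le
      linarith
    refine t1.trans ?_
    rw [Finset.sum_add_distrib, ← Finset.mul_sum, ← Finset.mul_sum]
    have t2 : ∑ k ∈ Finset.range n, P k * v k ≤ ∑ k ∈ Finset.range (n + 1), P k * v k := by
      rw [Finset.sum_range_succ]
      have := mul_nonneg (hPpos n).le (hv0 n)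
      linarith
    have t3 : ∑ k ∈ Finset.range n, P (k + 1) * d (k + 1) ≤ E := by
      rw [hE, Finset.sum_range_succ']
      have := mul_nonneg (hPpos 0).le (hd0 0)
      linarith
    have u3 : 0 < 2 / q := by positivity
    have u4 : 0 < 2 / (q * (1 - q)) := by positivity
    have u5 := mul_le_mul_of_nonneg_left (t2.trans s1) u3.le
    have u6 := mul_le_mul_of_nonneg_left t3 u4.le
    linarith
  have s3 : ∑ k ∈ Finset.range (n + 1), P k * (v k + Fh k ^ 2) =
      ∑ k ∈ Finset.range (n + 1), P k * v k + ∑ k ∈ Finset.range (n + 1), P k * Fh k ^ 2 := by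
    rw [← Finset.sum_add_distrib]
    refine Finset.sum_congr rfl (fun k _ => ?_)
    ring
  rw [s3]
  have u3 : 0 < 4 / q ^ 2 := by positivity
  have s4 := mul_le_mul_of_nonneg_left s2 u3.le
  linarith

end FA

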