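import Mathlib
import Pool.Agent.Helper769.FAG.D60668
import Pool.Agent.Helper769.FAG.G1
import Pool.Agent.Helper769.FAG.S6
import Pool.Agent.Helper769.FAG.Dce33a

set_option autoImplicit false
set_option linter.unusedSectionVars false

open Finset

noncomputable section

-- ---- TARGET (prove everything below; everything above is GIVEN, sorrys above are proved elsewhere)
-- USES: G1 S6 D2
namespace FA

theorem R1_insert_erase (x : ℤ) (S : Finset ℤ) : insert x (S.erase x) = insert x S := by
  ext y; by_cases h : y = x <;> simp [h]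

theorem R1_E_congr {X : Type} (m : FM X) (F H : X → ℝ) (h : ∀ x ∈ m.s, F x = H x) :
    m.E F = m.E H := by
  unfold FM.E
  exact Finset.sum_congr rfl fun x hx => by rw [h x hx]

theorem R1_E_mono {X : Type} (m : FM X) (F H : X → ℝ) (h : ∀ x ∈ m.s, F x ≤ H x) :
    m.E F ≤ m.E H := by
  unfold FM.E
  exact Finset.sum_le_sum fun x hx => mul_le_mul_of_nonneg_left (h x hx) (m.hw x hx).le

theorem R1_E_add {X : Type} (m : FM X) (F H : X → ℝ) :
    m.E (fun x => F x + H x) = m.E F + m.E H := by
  unfold FM.E
  rw [← Finset.sum_add_distrib]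
  exact Finset.sum_congr rfl fun x _ => by ring

theorem rev_cond {X : Type} (G : MG X) (m : FM X) (C : X → Prop) (hC : ∃ x ∈ m.s, C x)
    (hrev : Rev G m) (hcl : ∀ x ∈ m.s, C x → ∀ i ∈ G.I, G.r i x ≠ 0 → C (G.T i x)) :
    Rev G (m.cond C hC) := by
  classical
  intro F H
  rw [FM.cond_E, FM.cond_E]
  congr 1
  have key : ∀ F H : X → ℝ, m.E (fun x => if C x then F x * G.L H x else 0) =
      m.E (fun x => (if C x then F x else 0) * G.L (fun y => if C y then H y else 0) x) := by
    intro F H
    apply R1_E_congr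
    intro x hx
    by_cases hc : C x
    · rw [if_pos hc, if_pos hc]
      congr 1
      unfold MG.L
      apply Finset.sum_congr rfl
      intro i hi
      by_cases hr : G.r i x = 0
      · rw [hr, zero_mul, zero_mul]
      · show G.r i x * (H (G.T i x) - H x) =
          G.r i x * ((if C (G.T i x) then H (G.T i x) else 0) - (if C x then H x else 0))
        rw [if_pos hc, if_pos (hcl x hx hc i hi hr)]
    · rw [if_neg hc, if_neg hc, zero_mul]
  rw [key F H, key H F]
  exact hrev _ _

theorem rev_refl {X : Type} (G : MG X) (m : FM X) (C : X → Prop) (hC : ∃ x ∈ m.s, C x)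
    (hrev : Rev G m) : Rev (G.refl C) (m.cond C hC) := by
  classical
  intro F H
  rw [FM.cond_E, FM.cond_E]
  congr 1
  have key : ∀ F H : X → ℝ, m.E (fun x => if C x then F x * (G.refl C).L H x else 0) =
      m.E (fun x => (if C x then F x else 0) * G.L (fun y => if C y then H y else 0) x) +
      m.E (fun x => (if C x then F x * H x else 0) * ∑ i ∈ G.I, (if C (G.T i x) then 0 else G.r i x)) := by
    intro F H
    rw [← R1_E_add]
    apply R1_E_congr
    intro x hx
    by_cases hc : C x
    · rw [if_pos hc, if_pos hc, if_pos hc, mul_assoc, ← mul_add]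
      congr 1
      unfold MG.L MG.refl
      rw [Finset.mul_sum, ← Finset.sum_add_distrib]
      apply Finset.sum_congr rfl
      intro i hi
      by_cases hr : C (G.T i x)
      · simp only [hc, hr, not_true_eq_false, and_false, if_true, if_false]
        ring
      · simp only [hc, hr, not_false_eq_true, and_self, if_true, if_false]
        ring
    · rw [if_neg hc, if_neg hc, if_neg hc, zero_mul, zero_mul, add_zero]
  rw [key F H, key H F, hrev _ _]
  congr 1
  apply R1_E_congr
  intro x _
  rw [mul_comm (F x) (H x)]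

variable {q : ℝ}

theorem R1_site {α : Type} (g : Finset ℤ → α) (x : ℤ) (S : Finset ℤ)
    (h : g (insert x S) = g (S.erase x)) : ∀ U ⊆ ({x} : Finset ℤ), g ((S \ {x}) ∪ U) = g S := by
  intro U hU
  have hS : g S = g (S.erase x) := by
    by_cases hx : x ∈ S
    · rw [← h, Finset.insert_eq_of_mem hx]
    · rw [Finset.erase_eq_of_notMem hx]
  rcases Finset.subset_singleton_iff.1 hU with rfl | rfl
  · rw [Finset.union_empty, Finset.sdiff_singleton_eq_erase, hS]
  · rw [Finset.sdiff_singleton_eq_erase, Finset.union_comm, ← Finset.insert_eq,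
      R1_insert_erase x S, h, hS]

theorem R1_EA_av (q : ℝ) (A : Finset ℤ) (x : ℤ) (hx : x ∈ A) (G : Finset ℤ → ℝ) :
    EA q A G = EA q A (av q {x} G) := by
  have h1 : ∀ T, av q {x} (av q {x} G) T = av q {x} G T := by
    intro T
    have h2 := av_mul_left q {x} (av q {x} G) (fun _ => 1) T (by
      intro U hU
      apply av_out
      rcases Finset.subset_singleton_iff.1 hU with rfl | rfl
      · simp
      · ext y; simp; intro h1 h2; exact absurd h2 h1)
    rw [av_const, mul_one] at h2
    rw [← h2]
    simp only [mul_one]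
  have hA : A.erase x ∪ {x} = A := by
    rw [Finset.union_comm, ← Finset.insert_eq, Finset.insert_erase hx]
  have hd : Disjoint (A.erase x) {x} := by
    rw [Finset.disjoint_singleton_right]; simp
  have h3 : ∀ G, av q A G ∅ = av q (A.erase x) (av q {x} G) ∅ := by
    intro G
    rw [av_av q hd, hA]
  rw [EA_eq_av, EA_eq_av, h3 G, h3 (av q {x} G)]
  congr 1
  funext T
  rw [h1]

theorem R1_EA_congr (q : ℝ) (A : Finset ℤ) (F H : Finset ℤ → ℝ) (h : ∀ S ⊆ A, F S = H S) :
    EA q A F = EA q A H := by
  unfold EA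
  exact Finset.sum_congr rfl fun U hU => by rw [h U (Finset.mem_powerset.1 hU)]

theorem R1_EA_sum (q : ℝ) (A : Finset ℤ) {ι : Type} (I : Finset ι) (F : ι → Finset ℤ → ℝ) :
    EA q A (fun S => ∑ i ∈ I, F i S) = ∑ i ∈ I, EA q A (F i) := by
  rw [EA_eq_av, av_sum]
  exact Finset.sum_congr rfl fun i _ => (EA_eq_av q A (F i)).symm

theorem rev_kG (h0 : 0 < q) (h1 : q < 1) (A : Finset ℤ) (k : ℤ → Finset ℤ → Bool)
    (hself : ∀ x ∈ A, ∀ S, k x (insert x S) = k x (S.erase x)) :
    Rev (kG q h0.le h1.le A k) (pfm q h0 h1 A) := by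
  intro F H
  rw [pfm_E, pfm_E]
  have key : ∀ F H : Finset ℤ → ℝ, EA q A (fun x => F x * (kG q h0.le h1.le A k).L H x) =
      ∑ x ∈ A, (EA q A (fun S => kv k x S * (av q {x} F S * av q {x} H S)) -
        EA q A (fun S => kv k x S * (F S * H S))) := by
    intro F H
    have e1 : EA q A (fun x => F x * (kG q h0.le h1.le A k).L H x) =
        EA q A (fun S => ∑ x ∈ A, (kv k x S * av q {x} H S * F S - kv k x S * (F S * H S))) := by
      apply R1_EA_congr
      intro S _
      rw [kG_L]
      unfold genK
      rw [Finset.mul_sum]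
      apply Finset.sum_congr rfl
      intro x _
      rw [av_sing]; ring
    rw [e1, R1_EA_sum]
    apply Finset.sum_congr rfl
    intro x hx
    have e2 : EA q A (fun S => kv k x S * av q {x} H S * F S - kv k x S * (F S * H S)) =
        EA q A (fun S => kv k x S * av q {x} H S * F S) - EA q A (fun S => kv k x S * (F S * H S)) := by
      unfold EA
      rw [← Finset.sum_sub_distrib]
      exact Finset.sum_congr rfl fun U _ => by ring
    rw [e2]
    congr 1
    rw [R1_EA_av q A x hx]
    congr 1
    funext S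
    rw [av_mul_left q {x} (fun S => kv k x S * av q {x} H S) F S]
    · ring
    · intro U hU
      show kv k x ((S \ {x}) ∪ U) * av q {x} H ((S \ {x}) ∪ U) = kv k x S * av q {x} H S
      congr 1
      · unfold kv
        rw [R1_site (k x) x S (hself x hx S) U hU]
      · apply av_out
        rcases Finset.subset_singleton_iff.1 hU with rfl | rfl
        · simp
        · ext y; simp; intro h1 h2; exact absurd h2 h1
  rw [key F H, key H F]
  apply Finset.sum_congr rfl
  intro x _
  congr 1
  · apply R1_EA_congr; intro S _; ring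
  · apply R1_EA_congr; intro S _; ring

open Classical in
theorem R1_core (h0 : 0 < q) (h1 : q < 1) (A : Finset ℤ)
    (C : Finset ℤ → Prop) (hC : ∃ S ∈ (pfm q h0 h1 A).s, C S)
    (κ : ℤ → Finset ℤ → ℝ) (hκ01 : ∀ x S, κ x S = 0 ∨ κ x S = 1)
    (hκself : ∀ x ∈ A, ∀ S, κ x (insert x S) = κ x (S.erase x))
    (hdom : ∀ x ∈ A, ∀ S, S ⊆ A → C S → κ x S = 1 → C (insert x S) ∧ C (S.erase x))
    (F : Finset ℤ → ℝ) :
    ((pfm q h0 h1 A).cond C hC).E (fun S => ∑ x ∈ A, κ x S * vx q x F S) =
      1 / 2 * ((pfm q h0 h1 A).cond C hC).E (fun S => ∑ x ∈ A, κ x S *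
        (q * (F (insert x S) - F S) ^ 2 + (1 - q) * (F (S.erase x) - F S) ^ 2)) := by
  rw [FM.cond_E, FM.cond_E, ← mul_div_assoc]
  congr 1
  rw [pfm_E, pfm_E]
  have e1 : ∀ g : ℤ → Finset ℤ → ℝ, EA q A (fun S => if C S then ∑ x ∈ A, κ x S * g x S else 0) =
      ∑ x ∈ A, EA q A (fun S => (if C S then κ x S else 0) * g x S) := by
    intro g
    rw [← R1_EA_sum]
    apply R1_EA_congr
    intro S _
    by_cases hc : C S
    · rw [if_pos hc]
      exact Finset.sum_congr rfl fun x _ => by rw [if_pos hc]
    · rw [if_neg hc]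
      symm
      exact Finset.sum_eq_zero fun x _ => by rw [if_neg hc, zero_mul]
  rw [e1 (fun x S => vx q x F S), e1 (fun x S => q * (F (insert x S) - F S) ^ 2 +
    (1 - q) * (F (S.erase x) - F S) ^ 2), Finset.mul_sum]
  apply Finset.sum_congr rfl
  intro x hx
  rw [R1_EA_av q A x hx (fun S => (if C S then κ x S else 0) *
    (q * (F (insert x S) - F S) ^ 2 + (1 - q) * (F (S.erase x) - F S) ^ 2))]
  rw [EA_eq_av, EA_eq_av, ← av_smul, ← EA_eq_av, ← EA_eq_av]
  apply R1_EA_congr
  intro S hS
  have hc : (fun S => if C S then κ x S else 0) (insert x S) =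
      (fun S => if C S then κ x S else 0) (S.erase x) := by
    show (if C (insert x S) then κ x (insert x S) else 0) = (if C (S.erase x) then κ x (S.erase x) else 0)
    rw [hκself x hx S]
    rcases hκ01 x (S.erase x) with h | h
    · rw [h]; simp
    · have hiff : C (insert x S) ↔ C (S.erase x) := by
        constructor
        · intro h2
          have h3 := (hdom x hx (insert x S) (Finset.insert_subset hx hS) h2
            (by rw [hκself x hx S, h])).2
          rwa [Finset.erase_insert_eq_erase] at h3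
        · intro h2
          have h3 := (hdom x hx (S.erase x) ((Finset.erase_subset _ _).trans hS) h2 h).1
          rwa [R1_insert_erase] at h3
      by_cases h4 : C (S.erase x)
      · rw [if_pos h4, if_pos (hiff.2 h4)]
      · rw [if_neg h4, if_neg (fun h5 => h4 (hiff.1 h5))]
  rw [av_mul_left q {x} (fun S => if C S then κ x S else 0) _ S
    (R1_site (fun S => if C S then κ x S else 0) x S hc), av_sing]
  unfold vx
  simp only [Finset.insert_idem, Finset.erase_insert_eq_erase, R1_insert_erase,
    Finset.erase_idem]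
  ring

/-- lower bound for the Dirichlet form of the reflected chain -/
theorem dir_refl_ge (h0 : 0 < q) (h1 : q < 1) (A : Finset ℤ) (k : ℤ → Finset ℤ → Bool)
    (hself : ∀ x ∈ A, ∀ S, k x (insert x S) = k x (S.erase x))
    (C : Finset ℤ → Prop) (hC : ∃ S ∈ (pfm q h0 h1 A).s, C S)
    (κ : ℤ → Finset ℤ → ℝ) (hκ01 : ∀ x S, κ x S = 0 ∨ κ x S = 1)
    (hκself : ∀ x ∈ A, ∀ S, κ x (insert x S) = κ x (S.erase x))
    (hdom : ∀ x ∈ A, ∀ S, S ⊆ A → C S → κ x S = 1 → k x S = true ∧ C (insert x S) ∧ C (S.erase x))
    (F : Finset ℤ → ℝ) :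
    ((pfm q h0 h1 A).cond C hC).E (fun S => ∑ x ∈ A, κ x S * vx q x F S) ≤
      Dir ((kG q h0.le h1.le A k).refl C) ((pfm q h0 h1 A).cond C hC) F := by
  classical
  rw [R1_core h0 h1 A C hC κ hκ01 hκself (fun x hx S hS hc hk => (hdom x hx S hS hc hk).2) F]
  unfold Dir
  rw [dir_gamma _ _ (rev_refl _ _ C hC (rev_kG h0 h1 A k hself)) F F]
  refine mul_le_mul_of_nonneg_left ?_ (by norm_num)
  apply R1_E_mono
  intro S hS
  have hS1 : S ⊆ A := Finset.mem_powerset.1 (Finset.mem_filter.1 hS).1
  have hS2 : C S := (Finset.mem_filter.1 hS).2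
  show _ ≤ ∑ i ∈ A ×ˢ (Finset.univ : Finset Bool), (if C S ∧ ¬ C ((kG q h0.le h1.le A k).T i S) then 0
    else kv k i.1 S * (if i.2 then q else 1 - q)) * _
  rw [Finset.sum_product]
  apply Finset.sum_le_sum
  intro x hx
  rw [Fintype.sum_bool]
  show _ ≤ (if C S ∧ ¬ C (if (true : Bool) = true then insert x S else S.erase x) then 0
      else kv k x S * (if (true : Bool) = true then q else 1 - q)) *
      ((F (if (true : Bool) = true then insert x S else S.erase x) - F S) *
      (F (if (true : Bool) = true then insert x S else S.erase x) - F S)) +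
    (if C S ∧ ¬ C (if (false : Bool) = true then insert x S else S.erase x) then 0
      else kv k x S * (if (false : Bool) = true then q else 1 - q)) *
      ((F (if (false : Bool) = true then insert x S else S.erase x) - F S) *
      (F (if (false : Bool) = true then insert x S else S.erase x) - F S))
  have hkv := kv_nonneg k x S
  rcases hκ01 x S with hk | hk
  · rw [hk, zero_mul]
    apply add_nonneg
    · apply mul_nonneg _ (mul_self_nonneg _)
      split_ifs <;> first | exact le_refl _ | exact mul_nonneg hkv h0.le | exact mul_nonneg hkv (by linarith)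
    · apply mul_nonneg _ (mul_self_nonneg _)
      split_ifs <;> first | exact le_refl _ | exact mul_nonneg hkv h0.le | exact mul_nonneg hkv (by linarith)
  · obtain ⟨hk1, hk2, hk3⟩ := hdom x hx S hS1 hS2 hk
    have hkv1 : kv k x S = 1 := by unfold kv; rw [if_pos hk1]
    rw [hk, hkv1]
    simp only [if_true, Bool.false_eq_true, if_false, hk2, hk3, not_true_eq_false, and_false]
    apply le_of_eq; ring

/-- the same for the unreflected chain when `C` is closed under the moves -/
theorem dir_cond_ge (h0 : 0 < q) (h1 : q < 1) (A : Finset ℤ) (k : ℤ → Finset ℤ → Bool)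
    (hself : ∀ x ∈ A, ∀ S, k x (insert x S) = k x (S.erase x))
    (C : Finset ℤ → Prop) (hC : ∃ S ∈ (pfm q h0 h1 A).s, C S)
    (hcl : ∀ x ∈ A, ∀ S, S ⊆ A → C S → k x S = true → C (insert x S) ∧ C (S.erase x))
    (κ : ℤ → Finset ℤ → ℝ) (hκ01 : ∀ x S, κ x S = 0 ∨ κ x S = 1)
    (hκself : ∀ x ∈ A, ∀ S, κ x (insert x S) = κ x (S.erase x))
    (hdom : ∀ x ∈ A, ∀ S, S ⊆ A → C S → κ x S = 1 → k x S = true ∧ C (insert x S) ∧ C (S.erase x))
    (F : Finset ℤ → ℝ) :
    ((pfm q h0 h1 A).cond C hC).E (fun S => ∑ x ∈ A, κ x S * vx q x F S) ≤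
      Dir (kG q h0.le h1.le A k) ((pfm q h0 h1 A).cond C hC) F := by
  classical
  rw [R1_core h0 h1 A C hC κ hκ01 hκself (fun x hx S hS hc hk => (hdom x hx S hS hc hk).2) F]
  have hrev : Rev (kG q h0.le h1.le A k) ((pfm q h0 h1 A).cond C hC) := by
    apply rev_cond _ _ C hC (rev_kG h0 h1 A k hself)
    intro S hS hc i hi hr
    have hi1 : i.1 ∈ A := (Finset.mem_product.1 hi).1
    have hk : k i.1 S = true := by
      by_contra h
      apply hr
      show kv k i.1 S * (if i.2 then q else 1 - q) = 0
      unfold kv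
      rw [if_neg h, zero_mul]
    have h2 := hcl i.1 hi1 S (Finset.mem_powerset.1 hS) hc hk
    show C (if i.2 then insert i.1 S else S.erase i.1)
    split_ifs
    · exact h2.1
    · exact h2.2
  unfold Dir
  rw [dir_gamma _ _ hrev F F]
  refine mul_le_mul_of_nonneg_left ?_ (by norm_num)
  apply R1_E_mono
  intro S hS
  have hS1 : S ⊆ A := Finset.mem_powerset.1 (Finset.mem_filter.1 hS).1
  have hS2 : C S := (Finset.mem_filter.1 hS).2
  show _ ≤ ∑ i ∈ A ×ˢ (Finset.univ : Finset Bool), (kv k i.1 S * (if i.2 then q else 1 - q)) * _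
  rw [Finset.sum_product]
  apply Finset.sum_le_sum
  intro x hx
  rw [Fintype.sum_bool]
  show _ ≤ (kv k x S * (if (true : Bool) = true then q else 1 - q)) *
      ((F (if (true : Bool) = true then insert x S else S.erase x) - F S) *
      (F (if (true : Bool) = true then insert x S else S.erase x) - F S)) +
    (kv k x S * (if (false : Bool) = true then q else 1 - q)) *
      ((F (if (false : Bool) = true then insert x S else S.erase x) - F S) *
      (F (if (false : Bool) = true then insert x S else S.erase x) - F S))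
  have hkv := kv_nonneg k x S
  rcases hκ01 x S with hk | hk
  · rw [hk, zero_mul]
    simp only [if_true, Bool.false_eq_true, if_false]
    apply add_nonneg
    · exact mul_nonneg (mul_nonneg hkv h0.le) (mul_self_nonneg _)
    · exact mul_nonneg (mul_nonneg hkv (by linarith)) (mul_self_nonneg _)
  · obtain ⟨hk1, hk2, hk3⟩ := hdom x hx S hS1 hS2 hk
    have hkv1 : kv k x S = 1 := by unfold kv; rw [if_pos hk1]
    rw [hk, hkv1]
    simp only [if_true, Bool.false_eq_true, if_false]
    apply le_of_eq; ring

end FA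

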