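import Mathlib
import Pool.Agent.Helper769.FAG.D60668
import Pool.Agent.Helper769.FAG.G1
import Pool.Agent.Helper769.FAG.S6
import Pool.Agent.Helper769.FAG.Dce33a
import Pool.Agent.Helper769.FAG.R1
import Pool.Agent.Helper769.FAG.G6

set_option autoImplicit false
set_option linter.unusedSectionVars false

open Finset

noncomputable section

-- ---- TARGET (prove everything below; everything above is GIVEN, sorrys above are proved elsewhere)
-- USES: G1 S6 D2 R1 G6
namespace FA
variable {q : ℝ}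

theorem nfm_E (h0 : 0 < q) (h1 : q < 1) (A : Finset ℤ) (hA : A.Nonempty) (F : Finset ℤ → ℝ) :
    (nfm q h0 h1 A hA).E F = EN q A F := by
  classical
  unfold nfm
  rw [FM.cond_E, pfm_E, pfm_E]
  unfold EN EA
  simp only [mul_ite, mul_zero, mul_one]
  rw [← Finset.sum_filter, ← Finset.sum_filter]
  congr 1
  unfold Zn
  have h2 := Finset.sum_filter_add_sum_filter_not A.powerset (fun U : Finset ℤ => U.Nonempty)
    (wt q A)
  have h3 : A.powerset.filter (fun U : Finset ℤ => ¬ U.Nonempty) = {∅} := by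
    ext U
    simp only [Finset.mem_filter, Finset.mem_powerset, Finset.not_nonempty_iff_eq_empty,
      Finset.mem_singleton]
    constructor
    · exact fun h => h.2
    · rintro rfl
      exact ⟨Finset.empty_subset _, rfl⟩
  rw [h3, Finset.sum_singleton, wt_sum] at h2
  have h4 : wt q A ∅ = (1 - q) ^ A.card := by
    unfold wt
    simp
  rw [h4] at h2
  linarith

theorem Zn_pos (h0 : 0 < q) (h1 : q < 1) (A : Finset ℤ) (hA : A.Nonempty) : 0 < Zn q A := by
  unfold Zn
  have : (1 - q) ^ A.card < 1 :=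
    pow_lt_one₀ (by linarith) (by linarith) (Finset.card_pos.2 hA).ne'
  linarith

theorem kv_kbox (a b x : ℤ) (S : Finset ℤ) : kv (kbox a b) x S = cst (Icc a b) x S := by
  unfold kv kbox cst
  simp only [decide_eq_true_eq]

theorem mem_ins_of_ne {y z : ℤ} (h : z ≠ y) (S : Finset ℤ) : z ∈ insert y S ↔ z ∈ S.erase y := by
  rw [Finset.mem_insert, Finset.mem_erase]
  tauto

theorem kbox_congr (a b x : ℤ) (S T : Finset ℤ) (h1 : x - 1 ∈ S ↔ x - 1 ∈ T)
    (h2 : x + 1 ∈ S ↔ x + 1 ∈ T) : kbox a b x S = kbox a b x T := by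
  unfold kbox
  rw [decide_eq_decide, h1, h2]

theorem cst_congr (A : Finset ℤ) (x : ℤ) (S T : Finset ℤ) (h1 : x - 1 ∈ S ↔ x - 1 ∈ T)
    (h2 : x + 1 ∈ S ↔ x + 1 ∈ T) : cst A x S = cst A x T := by
  unfold cst
  simp only [h1, h2]

theorem adm_box (a b : ℤ) (hab : a + 2 ≤ b) : Adm a b (kbox a b) where
  ge := fun x _ S => (kv_kbox a b x S).ge
  loc := by
    intro x _ S
    unfold kbox
    rw [decide_eq_decide, Finset.mem_inter, Finset.mem_inter]
    tauto
  self := by
    intro x _ S
    exact kbox_congr a b x _ _ (mem_ins_of_ne (by omega) S) (mem_ins_of_ne (by omega) S)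
  inn := fun x _ _ S => kv_kbox a b x S
  bd := by
    intro x _ y _ S h
    left
    by_contra hne
    apply h
    have h1 : x - 1 ≠ y := by
      rintro rfl
      apply hne
      rw [show x - (x - 1) = 1 by ring]
      rfl
    have h2 : x + 1 ≠ y := by
      rintro rfl
      apply hne
      rw [show x - (x + 1) = -1 by ring]
      rfl
    exact kbox_congr a b x _ _ (mem_ins_of_ne h1 S) (mem_ins_of_ne h2 S)
  ne := by
    intro x _ S h
    unfold kbox at h
    rw [decide_eq_true_eq] at h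
    rcases h with ⟨h1, h2⟩ | ⟨h1, h2⟩
    · exact ⟨x - 1, h1, by omega, h2⟩
    · exact ⟨x + 1, h1, by omega, h2⟩

theorem ktor_congr (a b x : ℤ) (S T : Finset ℤ) (h1 : pr a b x ∈ S ↔ pr a b x ∈ T)
    (h2 : sc a b x ∈ S ↔ sc a b x ∈ T) : ktor a b x S = ktor a b x T := by
  unfold ktor
  rw [decide_eq_decide, h1, h2]

theorem pr_mem (a b x : ℤ) (hab : a + 2 ≤ b) (hx : x ∈ Icc a b) :
    pr a b x ∈ Icc a b ∧ pr a b x ≠ x := by
  rw [Finset.mem_Icc] at hx
  unfold pr
  split_ifs with h
  · rw [Finset.mem_Icc]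
    omega
  · rw [Finset.mem_Icc]
    omega

theorem sc_mem (a b x : ℤ) (hab : a + 2 ≤ b) (hx : x ∈ Icc a b) :
    sc a b x ∈ Icc a b ∧ sc a b x ≠ x := by
  rw [Finset.mem_Icc] at hx
  unfold sc
  split_ifs with h
  · rw [Finset.mem_Icc]
    omega
  · rw [Finset.mem_Icc]
    omega

theorem adm_tor (a b : ℤ) (hab : a + 2 ≤ b) : Adm a b (ktor a b) where
  ge := by
    intro x _ S
    unfold kv cst
    by_cases h : (x - 1 ∈ Icc a b ∧ x - 1 ∈ S) ∨ (x + 1 ∈ Icc a b ∧ x + 1 ∈ S)
    · have h2 : ktor a b x S = true := by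
        unfold ktor
        rw [decide_eq_true_eq]
        rcases h with ⟨h3, h4⟩ | ⟨h3, h4⟩
        · left
          rw [Finset.mem_Icc] at h3
          unfold pr
          rw [if_neg (by omega)]
          exact h4
        · right
          rw [Finset.mem_Icc] at h3
          unfold sc
          rw [if_neg (by omega)]
          exact h4
      rw [if_pos h2, if_pos h]
    · rw [if_neg h]
      split_ifs <;> norm_num
  loc := by
    intro x hx S
    refine ktor_congr a b x _ _ ?_ ?_
    · rw [Finset.mem_inter]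
      exact ⟨fun h => ⟨h, (pr_mem a b x hab hx).1⟩, fun h => h.1⟩
    · rw [Finset.mem_inter]
      exact ⟨fun h => ⟨h, (sc_mem a b x hab hx).1⟩, fun h => h.1⟩
  self := by
    intro x hx S
    exact ktor_congr a b x _ _ (mem_ins_of_ne (pr_mem a b x hab hx).2 S)
      (mem_ins_of_ne (sc_mem a b x hab hx).2 S)
  inn := by
    intro x h1 h2 S
    have e1 : pr a b x = x - 1 := by
      unfold pr
      rw [if_neg (by omega)]
    have e2 : sc a b x = x + 1 := by
      unfold sc
      rw [if_neg (by omega)]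
    have m1 : x - 1 ∈ Icc a b := by
      rw [Finset.mem_Icc]
      omega
    have m2 : x + 1 ∈ Icc a b := by
      rw [Finset.mem_Icc]
      omega
    unfold kv ktor cst
    simp only [decide_eq_true_eq, e1, e2, m1, m2, true_and]
  bd := by
    intro x hx y hy S h
    by_cases h1 : pr a b x = y
    · unfold pr at h1
      split_ifs at h1 with hxa
      · exact Or.inr (Or.inl ⟨hxa, h1.symm⟩)
      · left
        rw [← h1, show x - (x - 1) = 1 by ring]
        rfl
    · by_cases h2 : sc a b x = y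
      · unfold sc at h2
        split_ifs at h2 with hxb
        · exact Or.inr (Or.inr ⟨hxb, h2.symm⟩)
        · left
          rw [← h2, show x - (x + 1) = -1 by ring]
          rfl
      · exact absurd (ktor_congr a b x _ _ (mem_ins_of_ne h1 S) (mem_ins_of_ne h2 S)) h
  ne := by
    intro x hx S h
    unfold ktor at h
    rw [decide_eq_true_eq] at h
    rcases h with h | h
    · exact ⟨_, (pr_mem a b x hab hx).1, (pr_mem a b x hab hx).2, h⟩
    · exact ⟨_, (sc_mem a b x hab hx).1, (sc_mem a b x hab hx).2, h⟩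

theorem adm_closed (a b : ℤ) (k : ℤ → Finset ℤ → Bool) (hk : Adm a b k) :
    ∀ x ∈ Icc a b, ∀ S, k x S = true → (insert x S).Nonempty ∧ (S.erase x).Nonempty := by
  intro x hx S h
  obtain ⟨y, _, h2, h3⟩ := hk.ne x hx S h
  exact ⟨⟨x, Finset.mem_insert_self x S⟩, ⟨y, Finset.mem_erase.2 ⟨h2, h3⟩⟩⟩

/-- uniform Poincare inequality for all admissible boundary conditions -/
theorem adm_gap (h0 : 0 < q) (h1 : q < 1) : ∃ C : ℝ, 0 < C ∧ ∀ (a b : ℤ) (hab : a ≤ b)
    (k : ℤ → Finset ℤ → Bool), Adm a b k → ∀ F : Finset ℤ → ℝ,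
      (nfm q h0 h1 (Icc a b) (Finset.nonempty_Icc.2 hab)).Var F ≤
        C * Dir (kG q h0.le h1.le (Icc a b) k) (nfm q h0 h1 (Icc a b) (Finset.nonempty_Icc.2 hab)) F := by
  obtain ⟨C, hC, hgap⟩ := fa_gap h0 h1
  refine ⟨C, hC, fun a b hab k hk F => ?_⟩
  have hg := hgap a b hab F
  have hv : (nfm q h0 h1 (Icc a b) (Finset.nonempty_Icc.2 hab)).Var F =
      EN q (Icc a b) (fun S => F S ^ 2) - (EN q (Icc a b) F) ^ 2 := by
    unfold FM.Var
    rw [nfm_E, nfm_E]
  rw [hv]
  refine hg.trans (mul_le_mul_of_nonneg_left ?_ hC.le)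
  rw [← nfm_E h0 h1 (Icc a b) (Finset.nonempty_Icc.2 hab)]
  refine dir_cond_ge h0 h1 (Icc a b) k hk.self (fun S => S.Nonempty)
    ⟨Icc a b, Finset.mem_powerset.2 (Finset.Subset.refl _), Finset.nonempty_Icc.2 hab⟩ ?_
    (cst (Icc a b)) ?_ ?_ ?_ F
  · intro x hx S _ _ h
    exact adm_closed a b k hk x hx S h
  · intro x S
    unfold cst
    split_ifs
    · exact Or.inr rfl
    · exact Or.inl rfl
  · intro x _ S
    exact cst_congr _ x _ _ (mem_ins_of_ne (by omega) S) (mem_ins_of_ne (by omega) S)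
  · intro x hx S _ _ h
    have h2 : k x S = true := by
      have h3 := hk.ge x hx S
      rw [h] at h3
      unfold kv at h3
      by_contra hcon
      rw [if_neg hcon] at h3
      linarith
    exact ⟨h2, adm_closed a b k hk x hx S h2⟩

theorem adm_rev (h0 : 0 < q) (h1 : q < 1) (a b : ℤ) (hab : a ≤ b)
    (k : ℤ → Finset ℤ → Bool) (hk : Adm a b k) :
    Rev (kG q h0.le h1.le (Icc a b) k) (nfm q h0 h1 (Icc a b) (Finset.nonempty_Icc.2 hab)) := by
  refine rev_cond (kG q h0.le h1.le (Icc a b) k) (pfm q h0 h1 (Icc a b)) (fun S => S.Nonempty)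
    ⟨Icc a b, Finset.mem_powerset.2 (Finset.Subset.refl _), Finset.nonempty_Icc.2 hab⟩
    (rev_kG h0 h1 (Icc a b) k hk.self) ?_
  intro S _ _ i hi hr
  have hi1 : i.1 ∈ Icc a b := (Finset.mem_product.1 hi).1
  have hk1 : k i.1 S = true := by
    by_contra hcon
    apply hr
    change kv k i.1 S * _ = 0
    unfold kv
    rw [if_neg hcon, zero_mul]
  have h2 := adm_closed a b k hk i.1 hi1 S hk1
  change (if i.2 then insert i.1 S else S.erase i.1).Nonempty
  split_ifs
  · exact h2.1
  · exact h2.2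

end FA

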