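import Mathlib
import Pool.Agent.Helper769.FAG.D60668
import Pool.Agent.Helper769.FAG.G1
import Pool.Agent.Helper769.FAG.G6
import Pool.Agent.Helper769.FAG.S9
import Pool.Agent.Helper769.FAG.S6
import Pool.Agent.Helper769.FAG.Dce33a
import Pool.Agent.Helper769.FAG.R1
import Pool.Agent.Helper769.FAG.D3
import Pool.Agent.Helper769.FAG.S10
import Pool.Agent.Helper769.FAG.D49892
import Pool.Agent.Helper769.FAG.LB

set_option autoImplicit false
set_option linter.unusedSectionVars false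

open Finset

noncomputable section

-- ---- TARGET (prove everything below; everything above is GIVEN, sorrys above are proved elsewhere)
-- USES: G1 G6 S9 S6 D2 R1 D3 S10 D4 LB
namespace FA
variable {q : ℝ}

theorem LB_E_mono {X : Type} (m : FM X) (F H : X → ℝ) (h : ∀ x, F x ≤ H x) : m.E F ≤ m.E H := by
  unfold FM.E
  exact Finset.sum_le_sum fun x hx => mul_le_mul_of_nonneg_left (h x) (m.hw x hx).le

theorem LB_E_smul {X : Type} (m : FM X) (a : ℝ) (F : X → ℝ) :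
    m.E (fun x => a * F x) = a * m.E F := by
  unfold FM.E
  rw [Finset.mul_sum]
  exact Finset.sum_congr rfl fun x _ => by ring

theorem LB_E_sub {X : Type} (m : FM X) (F H : X → ℝ) :
    m.E (fun x => F x - H x) = m.E F - m.E H := by
  unfold FM.E
  rw [← Finset.sum_sub_distrib]
  exact Finset.sum_congr rfl fun x _ => by ring

theorem LB_E_sum {X : Type} (m : FM X) {ι : Type} (I : Finset ι) (F : ι → X → ℝ) :
    m.E (fun x => ∑ i ∈ I, F i x) = ∑ i ∈ I, m.E (F i) := by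
  unfold FM.E
  rw [Finset.sum_comm]
  exact Finset.sum_congr rfl fun x _ => by rw [Finset.mul_sum]

theorem LB_R_pos {X : Type} (A : AO X) (F : X → ℝ) (hF : ∀ x, 0 < F x) (x : X) : 0 < A.R F x := by
  unfold AO.R
  have h1 : ∃ k ∈ A.K x, 0 < A.w x k := by
    by_contra hc
    have h2 : ∑ k ∈ A.K x, A.w x k ≤ 0 := by
      apply Finset.sum_nonpos
      intro k hk
      by_contra h3
      exact hc ⟨k, hk, not_le.1 h3⟩
    rw [A.hone x] at h2
    norm_num at h2
  obtain ⟨k, hk, hk0⟩ := h1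
  exact Finset.sum_pos' (fun k hk => mul_nonneg (A.hw x k hk) (hF _).le)
    ⟨k, hk, mul_pos hk0 (hF _)⟩

theorem LB_R_one {X : Type} (A : AO X) (x : X) : A.R (fun _ => 1) x = 1 := by
  unfold AO.R
  simp only [mul_one]
  exact A.hone x

theorem LB_wt_ge (h0 : 0 < q) (h1 : q < 1) (B U : Finset ℤ) :
    (min q (1 - q)) ^ B.card ≤ wt q B U := by
  have hl : 0 < min q (1 - q) := lt_min h0 (by linarith)
  unfold wt
  rw [← Finset.card_inter_add_card_sdiff B U, pow_add]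
  apply mul_le_mul
  · exact pow_le_pow_left₀ hl.le (min_le_left _ _) _
  · exact pow_le_pow_left₀ hl.le (min_le_right _ _) _
  · positivity
  · positivity

theorem LB_avN_eq (q : ℝ) (B : Finset ℤ) (F : Finset ℤ → ℝ) (S : Finset ℤ) (h : S ∩ B ≠ ∅) :
    avN q B F S = EN q B (fun U => F ((S \ B) ∪ U)) := by
  unfold avN EN
  rw [if_neg h]

theorem LB_cst (B S U : Finset ℤ) (x : ℤ) : cst B x ((S \ B) ∪ U) = cst B x U := by
  unfold cst
  have h : ∀ y, (y ∈ B ∧ y ∈ (S \ B) ∪ U) ↔ (y ∈ B ∧ y ∈ U) := by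
    intro y
    simp only [Finset.mem_union, Finset.mem_sdiff]
    tauto
  simp only [h]

theorem LB_vx (q : ℝ) (B S U : Finset ℤ) (x : ℤ) (hx : x ∈ B) (F : Finset ℤ → ℝ) :
    vx q x F ((S \ B) ∪ U) = vx q x (fun V => F ((S \ B) ∪ V)) U := by
  unfold vx
  have h1 : insert x ((S \ B) ∪ U) = (S \ B) ∪ insert x U := by
    rw [Finset.union_insert]
  have h2 : ((S \ B) ∪ U).erase x = (S \ B) ∪ U.erase x := by
    ext y
    simp only [Finset.mem_erase, Finset.mem_union, Finset.mem_sdiff]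
    constructor
    · tauto
    · rintro (⟨h3, h4⟩ | ⟨h3, h4⟩)
      · exact ⟨fun h5 => h4 (h5 ▸ hx), Or.inl ⟨h3, h4⟩⟩
      · exact ⟨h3, Or.inr h4⟩
  rw [h1, h2]

/-- log-Sobolev inequality in one block, conditioned on being nonempty -/
theorem blk_lsi (h0 : 0 < q) (h1 : q < 1) : ∃ K : ℝ, 0 < K ∧ ∀ (c : ℤ) (ℓ : ℕ), 1 ≤ ℓ →
    ∀ f : Finset ℤ → ℝ, (∀ S, 0 < f S) → ∀ S : Finset ℤ,
      avN q (Icc c (c + ℓ - 1)) (fun T => f T * Real.log (f T)) S -
        avN q (Icc c (c + ℓ - 1)) f S * Real.log (avN q (Icc c (c + ℓ - 1)) f S) ≤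
      K * ℓ * avN q (Icc c (c + ℓ - 1))
        (fun T => ∑ x ∈ Icc c (c + ℓ - 1), cst (Icc c (c + ℓ - 1)) x T *
          vx q x (fun U => Real.sqrt (f U)) T) S := by
  obtain ⟨Cg, hCg, hgap⟩ := fa_gap h0 h1
  obtain ⟨lam, hlam⟩ : ∃ lam, lam = min q (1 - q) := ⟨_, rfl⟩
  have hl0 : 0 < lam := by rw [hlam]; exact lt_min h0 (by linarith)
  have hl1 : lam ≤ 1 := by rw [hlam]; exact (min_le_left _ _).trans h1.le
  have hlog : 0 ≤ Real.log (1 / lam) := by
    apply Real.log_nonneg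
    rw [le_div_iff₀ hl0]; linarith
  refine ⟨2 * (5 + 4 * Real.log (1 / lam)) * Cg, by positivity, ?_⟩
  intro c ℓ hℓ f hf S
  obtain ⟨B, hB⟩ : ∃ B, B = Icc c (c + (ℓ : ℤ) - 1) := ⟨_, rfl⟩
  have hcl : c ≤ c + (ℓ : ℤ) - 1 := by
    have : (1 : ℤ) ≤ ℓ := by exact_mod_cast hℓ
    linarith
  have hcard : B.card = ℓ := by
    rw [hB, Int.card_Icc]
    have : c + (ℓ : ℤ) - 1 + 1 - c = ℓ := by ring
    rw [this, Int.toNat_natCast]
  have hBne : B.Nonempty := by rw [hB]; exact Finset.nonempty_Icc.2 hcl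
  rw [← hB]
  have hvx : ∀ x (F : Finset ℤ → ℝ) T, 0 ≤ vx q x F T := by
    intro x F T
    unfold vx
    have : 0 ≤ q * (1 - q) := mul_nonneg h0.le (by linarith)
    positivity
  by_cases hS : S ∩ B = ∅
  · unfold avN
    rw [if_pos hS, if_pos hS, if_pos hS, sub_self]
    apply mul_nonneg (by positivity)
    exact Finset.sum_nonneg fun x _ => mul_nonneg (cst_nonneg _ _ _) (hvx _ _ _)
  · rw [LB_avN_eq q B _ S hS, LB_avN_eq q B _ S hS, LB_avN_eq q B _ S hS]
    obtain ⟨g, hg⟩ : ∃ g : Finset ℤ → ℝ, g = fun U => f ((S \ B) ∪ U) := ⟨_, rfl⟩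
    have hgpos : ∀ U, 0 < g U := by intro U; rw [hg]; exact hf _
    have e1 : EN q B (fun U => (fun T => f T * Real.log (f T)) ((S \ B) ∪ U)) =
        (nfm q h0 h1 B hBne).E (fun U => g U * Real.log (g U)) := by
      rw [nfm_E, hg]
    have e2 : EN q B (fun U => f ((S \ B) ∪ U)) = (nfm q h0 h1 B hBne).E g := by
      rw [nfm_E, hg]
    have e3 : EN q B (fun U => (fun T => ∑ x ∈ B, cst B x T *
        vx q x (fun U => Real.sqrt (f U)) T) ((S \ B) ∪ U)) =
        EN q B (fun U => ∑ x ∈ B, cst B x U * vx q x (fun V => Real.sqrt (g V)) U) := by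
      congr 1
      funext U
      refine Finset.sum_congr rfl fun x hx => ?_
      rw [LB_cst, LB_vx q B S U x hx, hg]
    rw [e1, e2, e3]
    have hent : (nfm q h0 h1 B hBne).Ent g ≤ 2 * (5 + 4 * Real.log (1 / lam ^ ℓ)) *
        (nfm q h0 h1 B hBne).Var (fun x => Real.sqrt (g x)) := by
      apply ent_le_var _ (lam ^ ℓ) (pow_pos hl0 ℓ) _ g hgpos
      intro U hU
      have hw : (nfm q h0 h1 B hBne).w U = wt q B U / Zn q B := by
        rw [← wt_sum_ne q B]
        unfold nfm FM.cond pfm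
        simp only
        congr 1
        exact Finset.sum_congr (Finset.filter_congr_decidable _ _ _) fun _ _ => rfl
      rw [hw]
      have hz : 0 < Zn q B := Zn_pos' h0 h1 B hBne
      have hz1 : Zn q B ≤ 1 := by
        unfold Zn
        have : 0 ≤ (1 - q) ^ B.card := pow_nonneg (by linarith) _
        linarith
      have h2 : lam ^ ℓ ≤ wt q B U := by
        rw [hlam, ← hcard]; exact LB_wt_ge h0 h1 B U
      rw [le_div_iff₀ hz]
      calc lam ^ ℓ * Zn q B ≤ lam ^ ℓ * 1 := mul_le_mul_of_nonneg_left hz1 (pow_pos hl0 ℓ).le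
        _ = lam ^ ℓ := mul_one _
        _ ≤ wt q B U := h2
    have hlogl : Real.log (1 / lam ^ ℓ) = ℓ * Real.log (1 / lam) := by
      rw [one_div, one_div, ← inv_pow, Real.log_pow]
    rw [hlogl] at hent
    have hvar : (nfm q h0 h1 B hBne).Var (fun x => Real.sqrt (g x)) ≤
        Cg * EN q B (fun U => ∑ x ∈ B, cst B x U * vx q x (fun V => Real.sqrt (g V)) U) := by
      unfold FM.Var
      rw [nfm_E, nfm_E, hB]
      exact hgap c (c + (ℓ : ℤ) - 1) hcl (fun x => Real.sqrt (g x))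
    have hvar0 : 0 ≤ EN q B (fun U => ∑ x ∈ B, cst B x U * vx q x (fun V => Real.sqrt (g V)) U) := by
      unfold EN
      apply div_nonneg _ (Zn_pos' h0 h1 B hBne).le
      exact Finset.sum_nonneg fun U _ => mul_nonneg (wt_pos h0 h1 B U).le
        (Finset.sum_nonneg fun x _ => mul_nonneg (cst_nonneg _ _ _) (hvx _ _ _))
    have hℓ' : (1 : ℝ) ≤ ℓ := by exact_mod_cast hℓ
    unfold FM.Ent at hent
    have h5 : 2 * (5 + 4 * ((ℓ : ℝ) * Real.log (1 / lam))) ≤
        2 * (5 + 4 * Real.log (1 / lam)) * ℓ := by nlinarith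
    have h6 : 0 ≤ 2 * (5 + 4 * ((ℓ : ℝ) * Real.log (1 / lam))) := by positivity
    calc _ ≤ 2 * (5 + 4 * ((ℓ : ℝ) * Real.log (1 / lam))) *
          (nfm q h0 h1 B hBne).Var (fun x => Real.sqrt (g x)) := hent
      _ ≤ 2 * (5 + 4 * ((ℓ : ℝ) * Real.log (1 / lam))) * (Cg * EN q B (fun U => ∑ x ∈ B,
          cst B x U * vx q x (fun V => Real.sqrt (g V)) U)) :=
          mul_le_mul_of_nonneg_left hvar h6
      _ ≤ (2 * (5 + 4 * Real.log (1 / lam)) * ℓ) * (Cg * EN q B (fun U => ∑ x ∈ B,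
          cst B x U * vx q x (fun V => Real.sqrt (g V)) U)) :=
          mul_le_mul_of_nonneg_right h5 (mul_nonneg hCg.le hvar0)
      _ = _ := by ring

theorem LB_disj (o : ℤ) (ℓ : ℕ) (i j : ℕ) (hij : i ≠ j) : Disjoint (Bk o ℓ i) (Bk o ℓ j) := by
  have key : ∀ i j : ℕ, i < j → ∀ x, x ∈ Bk o ℓ i → x ∈ Bk o ℓ j → False := by
    intro i j hij x hx hx'
    unfold Bk at hx hx'
    rw [Finset.mem_Icc] at hx hx'
    have h1 : (i : ℤ) + 1 ≤ j := by exact_mod_cast hij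
    have h2 : ((i : ℤ) + 1) * ℓ ≤ j * ℓ := mul_le_mul_of_nonneg_right h1 (by positivity)
    nlinarith [hx.1, hx.2, hx'.1, hx'.2]
  rw [Finset.disjoint_left]
  intro x hx hx'
  rcases lt_or_gt_of_ne hij with h | h
  · exact key i j h x hx hx'
  · exact key j i h x hx' hx

/-- entropy relative to the block-pattern conditional measures -/
theorem lsi_blocks (h0 : 0 < q) (h1 : q < 1) : ∃ K : ℝ, 0 < K ∧ ∀ (A : Finset ℤ) (o : ℤ) (ℓ n : ℕ), 1 ≤ ℓ →
    (∀ i < n, Bk o ℓ i ⊆ A) → ∀ (C : Finset ℤ → Prop) (hC : ∃ S ∈ (pfm q h0 h1 A).s, C S),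
    (∀ i < n, Stab A (Bk o ℓ i) C) → ∀ h : Finset ℤ → ℝ, (∀ S, 0 < h S) →
      ((pfm q h0 h1 A).cond C hC).E
        (fun S => h S * Real.log (h S / compR (fun i => blk q h0 h1 (Bk o ℓ i)) n h S)) ≤
      K * ℓ * ((pfm q h0 h1 A).cond C hC).E
        (fun S => ∑ i ∈ Finset.range n, ∑ x ∈ Bk o ℓ i, cst (Bk o ℓ i) x S *
          vx q x (fun U => Real.sqrt (h U)) S) := by
  obtain ⟨K, hK, hlsi⟩ := blk_lsi h0 h1
  refine ⟨K, hK, ?_⟩
  intro A o ℓ n hℓ hBA C hC hst h hpos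
  obtain ⟨m, hm⟩ : ∃ m, m = (pfm q h0 h1 A).cond C hC := ⟨_, rfl⟩
  rw [← hm]
  have hinv : ∀ i, i < n → ∀ F H : Finset ℤ → ℝ,
      m.E (fun x => F x * (blk q h0 h1 (Bk o ℓ i)).R H x) =
        m.E (fun x => (blk q h0 h1 (Bk o ℓ i)).R F x * (blk q h0 h1 (Bk o ℓ i)).R H x) := by
    intro i hi F H
    rw [hm]
    exact blk_inv h0 h1 A (Bk o ℓ i) (hBA i hi) C hC (hst i hi) F H
  have h1' := ent_tensor m (fun i => blk q h0 h1 (Bk o ℓ i)) n
    (fun i j hi hj F => by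
      by_cases hij : i = j
      · subst hij; rfl
      · exact blk_comm h0 h1 _ _ (LB_disj o ℓ i j hij) F)
    hinv
    (fun i hi F x k hk => blk_cst h0 h1 _ F x k hk) h hpos
  refine h1'.trans ?_
  rw [LB_E_sum, Finset.mul_sum]
  refine Finset.sum_le_sum fun i hi => ?_
  have hi' : i < n := Finset.mem_range.1 hi
  obtain ⟨R, hR⟩ : ∃ R : (Finset ℤ → ℝ) → Finset ℤ → ℝ,
      R = (blk q h0 h1 (Bk o ℓ i)).R := ⟨_, rfl⟩
  have hRinv : ∀ F, m.E (R F) = m.E F := by
    intro F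
    have h2 := hinv i hi' F (fun _ => 1)
    simp only [LB_R_one, mul_one] at h2
    rw [hR, h2]
  have hRpos : ∀ S, 0 < R h S := by
    intro S; rw [hR]; exact LB_R_pos _ _ hpos S
  have hRG : R (fun S => Real.log (R h S)) = fun S => Real.log (R h S) := by
    funext S
    rw [hR]
    have h3 : ∀ k ∈ (blk q h0 h1 (Bk o ℓ i)).K S,
        (blk q h0 h1 (Bk o ℓ i)).R h ((blk q h0 h1 (Bk o ℓ i)).c S k) =
        (blk q h0 h1 (Bk o ℓ i)).R h S := fun k hk => blk_cst h0 h1 _ h S k hk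
    have h4 : (blk q h0 h1 (Bk o ℓ i)).R
        (fun S => Real.log ((blk q h0 h1 (Bk o ℓ i)).R h S)) S =
        ∑ k ∈ (blk q h0 h1 (Bk o ℓ i)).K S, (blk q h0 h1 (Bk o ℓ i)).w S k *
          Real.log ((blk q h0 h1 (Bk o ℓ i)).R h ((blk q h0 h1 (Bk o ℓ i)).c S k)) := rfl
    rw [h4, Finset.sum_congr rfl fun k hk => by rw [h3 k hk], ← Finset.sum_mul,
      (blk q h0 h1 (Bk o ℓ i)).hone, one_mul]
  have hE1 : m.E (fun S => h S * Real.log (R h S)) = m.E (fun S => R h S * Real.log (R h S)) := by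
    have h5 := hinv i hi' h (fun S => Real.log (R h S))
    rw [← hR, hRG] at h5
    exact h5
  have hE2 : m.E (fun S => h S * Real.log (h S / R h S)) =
      m.E (fun S => R (fun T => h T * Real.log (h T)) S - R h S * Real.log (R h S)) := by
    have h6 : (fun S => h S * Real.log (h S / R h S)) =
        fun S => h S * Real.log (h S) - h S * Real.log (R h S) := by
      funext S
      rw [Real.log_div (hpos S).ne' (hRpos S).ne']
      ring
    rw [h6, LB_E_sub, hE1, LB_E_sub, ← hRinv (fun T => h T * Real.log (h T))]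
  have hE3 : m.E (fun S => h S * Real.log (h S / (blk q h0 h1 (Bk o ℓ i)).R h S)) =
      m.E (fun S => h S * Real.log (h S / R h S)) := by rw [hR]
  rw [hE3, hE2, ← hRinv (fun S => ∑ x ∈ Bk o ℓ i, cst (Bk o ℓ i) x S *
    vx q x (fun U => Real.sqrt (h U)) S), ← LB_E_smul]
  apply LB_E_mono
  intro S
  rw [hR, blk_R, blk_R, blk_R]
  exact hlsi (o + i * ℓ) ℓ hℓ h hpos S

end FA

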