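import Mathlib
import Pool.Agent.Helper769.FAG.D60668
import Pool.Agent.Helper769.FAG.G1
import Pool.Agent.Helper769.FAG.S6
import Pool.Agent.Helper769.FAG.Dce33a
import Pool.Agent.Helper769.FAG.R1
import Pool.Agent.Helper769.FAG.S10
import Pool.Agent.Helper769.FAG.D49892
import Pool.Agent.Helper769.FAG.LB
import Pool.Agent.Helper769.FAG.LSI
import Pool.Agent.Helper769.FAG.D5e21f

set_option autoImplicit false
set_option linter.unusedSectionVars false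

open Finset

noncomputable section

-- ---- TARGET (prove everything below; everything above is GIVEN, sorrys above are proved elsewhere)
-- USES: G1 S6 D2 R1 S10 D4 LB LSI D5
namespace FA
variable {q : ℝ}

theorem bk_disj (o : ℤ) (ℓ : ℕ) (i j : ℕ) (hij : i ≠ j) : Disjoint (Bk o ℓ i) (Bk o ℓ j) := by
  rw [Finset.disjoint_left]
  intro x hx hy
  unfold Bk at hx hy
  rw [Finset.mem_Icc] at hx hy
  rcases Nat.lt_or_gt_of_ne hij with h | h
  · have h1 : (i : ℤ) + 1 ≤ j := by exact_mod_cast h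
    have h2 : ((i : ℤ) + 1) * ℓ ≤ (j : ℤ) * ℓ := mul_le_mul_of_nonneg_right h1 (by positivity)
    have h3 : ((i : ℤ) + 1) * ℓ = (i : ℤ) * ℓ + ℓ := by ring
    omega
  · have h1 : (j : ℤ) + 1 ≤ i := by exact_mod_cast h
    have h2 : ((j : ℤ) + 1) * ℓ ≤ (i : ℤ) * ℓ := mul_le_mul_of_nonneg_right h1 (by positivity)
    have h3 : ((j : ℤ) + 1) * ℓ = (j : ℤ) * ℓ + ℓ := by ring
    omega

theorem bk_sub (o : ℤ) (ℓ n i : ℕ) (hi : i < n) : Bk o ℓ i ⊆ Bx o ℓ n := by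
  intro x hx
  unfold Bk at hx
  unfold Bx
  rw [Finset.mem_Icc] at hx ⊢
  have h0 : (0:ℤ) ≤ (i : ℤ) * ℓ := by positivity
  have h1 : (i : ℤ) + 1 ≤ n := by exact_mod_cast hi
  have h2 : ((i : ℤ) + 1) * ℓ ≤ (n : ℤ) * ℓ := mul_le_mul_of_nonneg_right h1 (by positivity)
  have h3 : ((i : ℤ) + 1) * ℓ = (i : ℤ) * ℓ + ℓ := by ring
  omega

theorem bx_succ (o : ℤ) (ℓ j : ℕ) : Bx o ℓ (j + 1) = Bx o ℓ j ∪ Bk o ℓ j := by
  ext x
  unfold Bx Bk
  rw [Finset.mem_union, Finset.mem_Icc, Finset.mem_Icc, Finset.mem_Icc]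
  have h0 : (0:ℤ) ≤ (j : ℤ) * ℓ := by positivity
  have h3 : ((j + 1 : ℕ) : ℤ) * ℓ = (j : ℤ) * ℓ + ℓ := by push_cast; ring
  rw [h3]
  generalize (j : ℤ) * ℓ = t at *
  constructor
  · intro h
    by_cases h4 : x ≤ o + t - 1
    · left; omega
    · right; omega
  · intro h
    rcases h with h | h <;> omega

theorem bx_zero (o : ℤ) (ℓ : ℕ) : Bx o ℓ 0 = ∅ := by
  ext x
  unfold Bx
  rw [Finset.mem_Icc]
  simp

theorem bk_union (o : ℤ) (ℓ n : ℕ) : (Finset.range n).biUnion (Bk o ℓ) = Bx o ℓ n := by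
  induction n with
  | zero => rw [bx_zero]; simp
  | succ n ih =>
    rw [Finset.range_add_one, Finset.biUnion_insert, ih, bx_succ, Finset.union_comm]

theorem good_stab (o : ℤ) (ℓ n : ℕ) (i : ℕ) (hi : i < n) :
    Stab (Bx o ℓ n) (Bk o ℓ i) (Good o ℓ n) := by
  intro S hS hg hne U hU hUn j hj
  by_cases hij : j = i
  · subst hij
    obtain ⟨y, hy⟩ := hUn
    exact ⟨y, Finset.mem_inter.2 ⟨Finset.mem_union_right _ hy, hU hy⟩⟩
  · obtain ⟨y, hy⟩ := hg j hj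
    rw [Finset.mem_inter] at hy
    refine ⟨y, Finset.mem_inter.2 ⟨Finset.mem_union_left _ ?_, hy.2⟩⟩
    rw [Finset.mem_sdiff]
    refine ⟨hy.1, ?_⟩
    exact Finset.disjoint_left.1 (bk_disj o ℓ j i hij) hy.2

theorem good_ex (h0 : 0 < q) (h1 : q < 1) (o : ℤ) (ℓ n : ℕ) (hl : 1 ≤ ℓ) :
    ∃ S ∈ (pfm q h0 h1 (Bx o ℓ n)).s, Good o ℓ n S := by
  refine ⟨Bx o ℓ n, Finset.mem_powerset.2 (Finset.Subset.refl _), ?_⟩
  intro i hi
  refine ⟨o + i * ℓ, ?_⟩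
  have hm : o + (i : ℤ) * ℓ ∈ Bk o ℓ i := by
    unfold Bk
    rw [Finset.mem_Icc]
    omega
  exact Finset.mem_inter.2 ⟨bk_sub o ℓ n i hi hm, hm⟩

theorem blk_idem (h0 : 0 < q) (h1 : q < 1) (B : Finset ℤ) (F : Finset ℤ → ℝ) :
    (blk q h0 h1 B).R ((blk q h0 h1 B).R F) = (blk q h0 h1 B).R F := by
  funext S
  have : (blk q h0 h1 B).R ((blk q h0 h1 B).R F) S =
      ∑ U ∈ (blk q h0 h1 B).K S, (blk q h0 h1 B).w S U *
        (blk q h0 h1 B).R F ((blk q h0 h1 B).c S U) := rfl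
  rw [this]
  rw [Finset.sum_congr rfl (fun U hU => by rw [blk_cst h0 h1 B F S U hU]),
    ← Finset.sum_mul, (blk q h0 h1 B).hone S, one_mul]

theorem compR_fix (h0 : 0 < q) (h1 : q < 1) (o : ℤ) (ℓ n : ℕ) (h : Finset ℤ → ℝ) :
    ∀ i < n, (blk q h0 h1 (Bk o ℓ i)).R (compR (fun i => blk q h0 h1 (Bk o ℓ i)) n h) =
      compR (fun i => blk q h0 h1 (Bk o ℓ i)) n h := by
  induction n with
  | zero => intro i hi; omega
  | succ n ih =>
    intro i hi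
    have hd : compR (fun i => blk q h0 h1 (Bk o ℓ i)) (n + 1) h =
      (blk q h0 h1 (Bk o ℓ n)).R (compR (fun i => blk q h0 h1 (Bk o ℓ i)) n h) := rfl
    rw [hd]
    by_cases hin : i = n
    · subst hin
      exact blk_idem h0 h1 _ _
    · rw [blk_comm h0 h1 (Bk o ℓ i) (Bk o ℓ n) (bk_disj o ℓ i n hin), ih i (by omega)]

theorem fix_inv (h0 : 0 < q) (h1 : q < 1) (B : Finset ℤ) (g : Finset ℤ → ℝ)
    (hg : (blk q h0 h1 B).R g = g) (S U : Finset ℤ) (hS : (S ∩ B).Nonempty) (hU : U ⊆ B)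
    (hUn : U.Nonempty) : g ((S \ B) ∪ U) = g S := by
  have hne : ¬ (S ∩ B = ∅) := hS.ne_empty
  have hmem : U ∈ (blk q h0 h1 B).K S := by
    have : (blk q h0 h1 B).K S = B.powerset.filter (fun U => U.Nonempty) := if_neg hne
    rw [this]
    exact Finset.mem_filter.2 ⟨Finset.mem_powerset.2 hU, hUn⟩
  have h3 := blk_cst h0 h1 B g S U hmem
  have h4 : (blk q h0 h1 B).c S U = (S \ B) ∪ U := if_neg hne
  rw [h4, hg] at h3
  exact h3

theorem fix_const (h0 : 0 < q) (h1 : q < 1) (o : ℤ) (ℓ n : ℕ) (g : Finset ℤ → ℝ)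
    (hg : ∀ i < n, (blk q h0 h1 (Bk o ℓ i)).R g = g) (S S' : Finset ℤ) (hS : S ⊆ Bx o ℓ n)
    (hS' : S' ⊆ Bx o ℓ n) (hGS : Good o ℓ n S) (hGS' : Good o ℓ n S') : g S' = g S := by
  have key : ∀ j ≤ n, g ((S \ Bx o ℓ j) ∪ (S' ∩ Bx o ℓ j)) = g S := by
    intro j
    induction j with
    | zero =>
      intro _
      rw [bx_zero]
      simp
    | succ j ih =>
      intro hj
      have hd : Disjoint (Bx o ℓ j) (Bk o ℓ j) := by
        rw [← bk_union, Finset.disjoint_biUnion_left]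
        intro i hi
        exact bk_disj o ℓ i j (Finset.mem_range.1 hi).ne
      have hd' := Finset.disjoint_right.1 hd
      rw [← ih (by omega)]
      have e : (S \ Bx o ℓ (j + 1)) ∪ (S' ∩ Bx o ℓ (j + 1)) =
          ((((S \ Bx o ℓ j) ∪ (S' ∩ Bx o ℓ j)) \ Bk o ℓ j) ∪ (S' ∩ Bk o ℓ j)) := by
        rw [bx_succ]
        ext x
        have := @hd' x
        simp only [Finset.mem_union, Finset.mem_sdiff, Finset.mem_inter]
        tauto
      rw [e]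
      apply fix_inv h0 h1 (Bk o ℓ j) g (hg j (by omega)) _ _ ?_ Finset.inter_subset_right
        (hGS' j (by omega))
      obtain ⟨y, hy⟩ := hGS j (by omega)
      rw [Finset.mem_inter] at hy
      refine ⟨y, Finset.mem_inter.2 ⟨Finset.mem_union_left _ (Finset.mem_sdiff.2 ⟨hy.1, hd' hy.2⟩),
        hy.2⟩⟩
  have h3 := key n le_rfl
  rw [Finset.sdiff_eq_empty_iff_subset.2 hS, Finset.empty_union,
    Finset.inter_eq_left.2 hS'] at h3
  exact h3

theorem FM_E_congr {X : Type} (m : FM X) (F H : X → ℝ) (h : ∀ x ∈ m.s, F x = H x) :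
    m.E F = m.E H := by
  unfold FM.E
  exact Finset.sum_congr rfl (fun x hx => by rw [h x hx])

theorem FM_E_const {X : Type} (m : FM X) (c : ℝ) : m.E (fun _ => c) = c := by
  unfold FM.E
  rw [← Finset.sum_mul, m.hone, one_mul]

theorem blk_one (h0 : 0 < q) (h1 : q < 1) (B : Finset ℤ) (S : Finset ℤ) :
    (blk q h0 h1 B).R (fun _ => 1) S = 1 := by
  have : (blk q h0 h1 B).R (fun _ => 1) S =
      ∑ U ∈ (blk q h0 h1 B).K S, (blk q h0 h1 B).w S U * 1 := rfl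
  rw [this]
  simp only [mul_one]
  exact (blk q h0 h1 B).hone S

theorem E_blk (h0 : 0 < q) (h1 : q < 1) (A B : Finset ℤ) (hBA : B ⊆ A) (C : Finset ℤ → Prop)
    (hC : ∃ S ∈ (pfm q h0 h1 A).s, C S) (hst : Stab A B C) (F : Finset ℤ → ℝ) :
    ((pfm q h0 h1 A).cond C hC).E ((blk q h0 h1 B).R F) = ((pfm q h0 h1 A).cond C hC).E F := by
  have h := blk_inv h0 h1 A B hBA C hC hst F (fun _ => 1)
  simp only [blk_one, mul_one] at h
  exact h.symm

theorem E_compR_cq1 (h0 : 0 < q) (h1 : q < 1) (o : ℤ) (ℓ n : ℕ)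
    (hC : ∃ S ∈ (pfm q h0 h1 (Bx o ℓ n)).s, Good o ℓ n S) (h : Finset ℤ → ℝ) :
    ∀ j ≤ n, ((pfm q h0 h1 (Bx o ℓ n)).cond (Good o ℓ n) hC).E
      (compR (fun i => blk q h0 h1 (Bk o ℓ i)) j h) =
        ((pfm q h0 h1 (Bx o ℓ n)).cond (Good o ℓ n) hC).E h := by
  intro j
  induction j with
  | zero => intro _; rfl
  | succ j ih =>
    intro hj
    have hd : compR (fun i => blk q h0 h1 (Bk o ℓ i)) (j + 1) h =
      (blk q h0 h1 (Bk o ℓ j)).R (compR (fun i => blk q h0 h1 (Bk o ℓ i)) j h) := rfl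
    rw [hd, E_blk h0 h1 (Bx o ℓ n) (Bk o ℓ j) (bk_sub o ℓ n j (by omega)) (Good o ℓ n) hC
      (good_stab o ℓ n j (by omega)), ih (by omega)]

theorem cond_mem (h0 : 0 < q) (h1 : q < 1) (A : Finset ℤ) (C : Finset ℤ → Prop)
    (hC : ∃ S ∈ (pfm q h0 h1 A).s, C S) (S : Finset ℤ)
    (hS : S ∈ ((pfm q h0 h1 A).cond C hC).s) : S ⊆ A ∧ C S := by
  classical
  have h : S ∈ (A.powerset.filter C) := by
    unfold FM.cond pfm at hS
    simp only at hS
    rw [Finset.mem_filter] at hS ⊢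
    exact hS
  rw [Finset.mem_filter, Finset.mem_powerset] at h
  exact h

theorem compR_good (h0 : 0 < q) (h1 : q < 1) (o : ℤ) (ℓ n : ℕ) (hl : 1 ≤ ℓ) (h : Finset ℤ → ℝ)
    (S : Finset ℤ) (hS : S ⊆ Bx o ℓ n) (hg : Good o ℓ n S) :
    compR (fun i => blk q h0 h1 (Bk o ℓ i)) n h S =
      ((pfm q h0 h1 (Bx o ℓ n)).cond (Good o ℓ n) (good_ex h0 h1 o ℓ n hl)).E h := by
  rw [← E_compR_cq1 h0 h1 o ℓ n (good_ex h0 h1 o ℓ n hl) h n le_rfl]
  rw [FM_E_congr _ _ (fun _ => compR (fun i => blk q h0 h1 (Bk o ℓ i)) n h S) ?_, FM_E_const]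
  intro T hT
  obtain ⟨hT1, hT2⟩ := cond_mem h0 h1 _ _ _ T hT
  exact fix_const h0 h1 o ℓ n _ (compR_fix h0 h1 o ℓ n h) S T hS hT1 hg hT2

theorem cst_self (A : Finset ℤ) (x : ℤ) (S : Finset ℤ) :
    cst A x (insert x S) = cst A x (S.erase x) := by
  unfold cst
  have e1 : (x - 1 ∈ insert x S) ↔ (x - 1 ∈ S.erase x) := by
    rw [Finset.mem_insert, Finset.mem_erase]
    constructor
    · rintro (h | h)
      · omega
      · exact ⟨by omega, h⟩
    · rintro ⟨_, h⟩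
      exact Or.inr h
  have e2 : (x + 1 ∈ insert x S) ↔ (x + 1 ∈ S.erase x) := by
    rw [Finset.mem_insert, Finset.mem_erase]
    constructor
    · rintro (h | h)
      · omega
      · exact ⟨by omega, h⟩
    · rintro ⟨_, h⟩
      exact Or.inr h
  simp only [e1, e2]

theorem cst_one_iff (A : Finset ℤ) (x : ℤ) (S : Finset ℤ) :
    cst A x S = 1 ↔ ((x - 1 ∈ A ∧ x - 1 ∈ S) ∨ (x + 1 ∈ A ∧ x + 1 ∈ S)) := by
  unfold cst
  split_ifs with h
  · simp [h]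
  · simp [h]

theorem cst_zo (A : Finset ℤ) (x : ℤ) (S : Finset ℤ) : cst A x S = 0 ∨ cst A x S = 1 := by
  unfold cst
  split_ifs with h
  · right; rfl
  · left; rfl

open Classical in
/-- the union of the block constraints -/
def kap (o : ℤ) (ℓ n : ℕ) (x : ℤ) (S : Finset ℤ) : ℝ :=
  if ∃ i < n, x ∈ Bk o ℓ i ∧ cst (Bk o ℓ i) x S = 1 then 1 else 0

theorem kap_eq (o : ℤ) (ℓ n : ℕ) (x : ℤ) (S : Finset ℤ) (i : ℕ) (hi : i < n) (hx : x ∈ Bk o ℓ i) :
    kap o ℓ n x S = cst (Bk o ℓ i) x S := by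
  unfold kap
  rcases cst_zo (Bk o ℓ i) x S with h | h
  · rw [h, if_neg]
    rintro ⟨j, hj, hxj, hc⟩
    by_cases hij : i = j
    · subst hij
      rw [h] at hc
      norm_num at hc
    · exact Finset.disjoint_left.1 (bk_disj o ℓ i j hij) hx hxj
  · rw [h, if_pos ⟨i, hi, hx, h⟩]

theorem kap_sum (o : ℤ) (ℓ n : ℕ) (S : Finset ℤ) (v : ℤ → ℝ) :
    ∑ x ∈ Bx o ℓ n, kap o ℓ n x S * v x =
      ∑ i ∈ Finset.range n, ∑ x ∈ Bk o ℓ i, cst (Bk o ℓ i) x S * v x := by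
  rw [← bk_union, Finset.sum_biUnion]
  · apply Finset.sum_congr rfl
    intro i hi
    apply Finset.sum_congr rfl
    intro x hx
    rw [kap_eq o ℓ n x S i (Finset.mem_range.1 hi) hx]
  · intro i _ j _ hij
    exact bk_disj o ℓ i j hij

theorem kap_dir (h0 : 0 < q) (h1 : q < 1) (o : ℤ) (ℓ n : ℕ) (hl : 1 ≤ ℓ)
    (k : ℤ → Finset ℤ → Bool) (hk : Adm o (o + n * ℓ - 1) k) (f : Finset ℤ → ℝ) :
    ((pfm q h0 h1 (Bx o ℓ n)).cond (Good o ℓ n) (good_ex h0 h1 o ℓ n hl)).E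
        (fun S => ∑ x ∈ Bx o ℓ n, kap o ℓ n x S * vx q x f S) ≤
      Dir ((kG q h0.le h1.le (Bx o ℓ n) k).refl (Good o ℓ n))
          ((pfm q h0 h1 (Bx o ℓ n)).cond (Good o ℓ n) (good_ex h0 h1 o ℓ n hl)) f := by
  apply dir_refl_ge h0 h1 (Bx o ℓ n) k hk.self (Good o ℓ n) (good_ex h0 h1 o ℓ n hl) (kap o ℓ n)
  · intro x S
    unfold kap
    split_ifs
    · right; rfl
    · left; rfl
  · intro x _ S
    unfold kap
    simp only [cst_self]
  · intro x hx S hS hG hkap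
    have hex : ∃ i < n, x ∈ Bk o ℓ i ∧ cst (Bk o ℓ i) x S = 1 := by
      by_contra hcon
      unfold kap at hkap
      rw [if_neg hcon] at hkap
      norm_num at hkap
    obtain ⟨i, hi, hxi, hc⟩ := hex
    rw [cst_one_iff] at hc
    have hy : ∃ y, y ≠ x ∧ y ∈ Bk o ℓ i ∧ y ∈ S := by
      rcases hc with ⟨h2, h3⟩ | ⟨h2, h3⟩
      · exact ⟨x - 1, by omega, h2, h3⟩
      · exact ⟨x + 1, by omega, h2, h3⟩
    obtain ⟨y, hyx, hyB, hyS⟩ := hy
    refine ⟨?_, ?_, ?_⟩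
    · have h4 := hk.ge x hx S
      have h5 : cst (Icc o (o + n * ℓ - 1)) x S = 1 := by
        rw [cst_one_iff]
        have hsub : Bk o ℓ i ⊆ Icc o (o + n * ℓ - 1) := bk_sub o ℓ n i hi
        rcases hc with ⟨h2, h3⟩ | ⟨h2, h3⟩
        · exact Or.inl ⟨hsub h2, h3⟩
        · exact Or.inr ⟨hsub h2, h3⟩
      rw [h5] at h4
      unfold kv at h4
      by_contra hcon
      rw [if_neg hcon] at h4
      norm_num at h4
    · intro j hj
      obtain ⟨z, hz⟩ := hG j hj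
      rw [Finset.mem_inter] at hz
      exact ⟨z, Finset.mem_inter.2 ⟨Finset.mem_insert_of_mem hz.1, hz.2⟩⟩
    · intro j hj
      by_cases hij : i = j
      · subst hij
        exact ⟨y, Finset.mem_inter.2 ⟨Finset.mem_erase.2 ⟨hyx, hyS⟩, hyB⟩⟩
      · obtain ⟨z, hz⟩ := hG j hj
        rw [Finset.mem_inter] at hz
        refine ⟨z, Finset.mem_inter.2 ⟨Finset.mem_erase.2 ⟨?_, hz.1⟩, hz.2⟩⟩
        intro hzx
        subst hzx
        exact Finset.disjoint_left.1 (bk_disj o ℓ i j hij) hxi hz.2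

/-- log-Sobolev inequality for the chain reflected at the set of good configurations -/
theorem q_lsi (h0 : 0 < q) (h1 : q < 1) : ∃ K : ℝ, 0 < K ∧ ∀ (o : ℤ) (ℓ n : ℕ) (hl : 1 ≤ ℓ)
    (k : ℤ → Finset ℤ → Bool), Adm o (o + n * ℓ - 1) k → ∀ f : Finset ℤ → ℝ, (∀ S, 0 < f S) →
      ((pfm q h0 h1 (Bx o ℓ n)).cond (Good o ℓ n) (good_ex h0 h1 o ℓ n hl)).Ent (fun S => f S ^ 2) ≤
        K * ℓ * Dir ((kG q h0.le h1.le (Bx o ℓ n) k).refl (Good o ℓ n))
          ((pfm q h0 h1 (Bx o ℓ n)).cond (Good o ℓ n) (good_ex h0 h1 o ℓ n hl)) f := by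
  obtain ⟨K, hK, hmain⟩ := lsi_blocks (q := q) h0 h1
  refine ⟨K, hK, ?_⟩
  intro o ℓ n hl k hk f hf
  have hA := hmain (Bx o ℓ n) o ℓ n hl (fun i hi => bk_sub o ℓ n i hi) (Good o ℓ n)
    (good_ex h0 h1 o ℓ n hl) (fun i hi => good_stab o ℓ n i hi) (fun S => f S ^ 2)
    (fun S => by have := hf S; positivity)
  have hE := kap_dir h0 h1 o ℓ n hl k hk f
  have hpos : ∀ S, 0 < f S ^ 2 := fun S => by have := hf S; positivity
  have hcR : ∀ S ∈ ((pfm q h0 h1 (Bx o ℓ n)).cond (Good o ℓ n) (good_ex h0 h1 o ℓ n hl)).s,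
      compR (fun i => blk q h0 h1 (Bk o ℓ i)) n (fun S => f S ^ 2) S =
      ((pfm q h0 h1 (Bx o ℓ n)).cond (Good o ℓ n) (good_ex h0 h1 o ℓ n hl)).E
        (fun S => f S ^ 2) := by
    intro S hS
    obtain ⟨hS1, hS2⟩ := cond_mem h0 h1 _ _ _ S hS
    exact compR_good h0 h1 o ℓ n hl _ S hS1 hS2
  generalize ((pfm q h0 h1 (Bx o ℓ n)).cond (Good o ℓ n) (good_ex h0 h1 o ℓ n hl)) = m at *
  have hmne : m.s.Nonempty := by
    rw [Finset.nonempty_iff_ne_empty]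
    intro he
    have := m.hone
    rw [he] at this
    norm_num at this
  have hc : 0 < m.E (fun S => f S ^ 2) := by
    unfold FM.E
    exact Finset.sum_pos (fun x hx => mul_pos (m.hw x hx) (hpos x)) hmne
  have e1 : m.Ent (fun S => f S ^ 2) =
      m.E (fun S => f S ^ 2 * Real.log (f S ^ 2 /
        compR (fun i => blk q h0 h1 (Bk o ℓ i)) n (fun S => f S ^ 2) S)) := by
    rw [FM_E_congr m _ (fun S => f S ^ 2 * Real.log (f S ^ 2) +
      (f S ^ 2) * (- Real.log (m.E (fun S => f S ^ 2)))) ?_]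
    · unfold FM.Ent FM.E
      simp only [mul_add]
      rw [Finset.sum_add_distrib]
      have : ∑ x ∈ m.s, m.w x * (f x ^ 2 * -Real.log (∑ x ∈ m.s, m.w x * f x ^ 2)) =
          (∑ x ∈ m.s, m.w x * f x ^ 2) * -Real.log (∑ x ∈ m.s, m.w x * f x ^ 2) := by
        rw [Finset.sum_mul]
        exact Finset.sum_congr rfl (fun x _ => by ring)
      rw [this]
      ring
    · intro S hS
      rw [hcR S hS, Real.log_div (hpos S).ne' hc.ne']
      ring
  have e2 : ∀ S, Real.sqrt (f S ^ 2) = f S := fun S => Real.sqrt_sq (hf S).le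
  simp only [e2] at hA
  have e3 : (fun S => ∑ i ∈ Finset.range n, ∑ x ∈ Bk o ℓ i, cst (Bk o ℓ i) x S * vx q x f S) =
      (fun S => ∑ x ∈ Bx o ℓ n, kap o ℓ n x S * vx q x f S) := by
    funext S
    exact (kap_sum o ℓ n S (fun x => vx q x f S)).symm
  have e4 : (fun U => f U) = f := rfl
  rw [e1]
  refine le_trans hA ?_
  have hKl : 0 ≤ K * ℓ := by positivity
  apply mul_le_mul_of_nonneg_left _ hKl
  rw [e4, e3]
  exact hE

end FA

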