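import Mathlib
import Pool.Agent.Helper769.FAG.D60668

set_option autoImplicit false
set_option linter.unusedSectionVars false

open Finset

noncomputable section

-- ---- TARGET (prove everything below; everything above is GIVEN, sorrys above are proved elsewhere)
namespace FA
namespace MG
variable {X : Type} (G : MG X)

theorem L_bound (F : X → ℝ) (M : ℝ) (hM : ∀ x, |F x| ≤ M) (x : X) : |G.L F x| ≤ 2 * G.N * M := by
  have hM0 : 0 ≤ M := (abs_nonneg _).trans (hM x)
  unfold L
  calc |∑ i ∈ G.I, G.r i x * (F (G.T i x) - F x)|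
      ≤ ∑ i ∈ G.I, |G.r i x * (F (G.T i x) - F x)| := Finset.abs_sum_le_sum_abs _ _
    _ ≤ ∑ i ∈ G.I, G.r i x * (2 * M) := by
      apply Finset.sum_le_sum
      intro i hi
      rw [abs_mul, abs_of_nonneg (G.hr i hi x)]
      apply mul_le_mul_of_nonneg_left _ (G.hr i hi x)
      have h1 := abs_le.mp (hM (G.T i x))
      have h2 := abs_le.mp (hM x)
      rw [abs_le]
      constructor <;> linarith [h1.1, h1.2, h2.1, h2.2]
    _ = (∑ i ∈ G.I, G.r i x) * (2 * M) := by rw [Finset.sum_mul]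
    _ ≤ G.N * (2 * M) := mul_le_mul_of_nonneg_right (G.hs x) (by positivity)
    _ = _ := by ring

theorem iter_bound (F : X → ℝ) (M : ℝ) (hM : ∀ x, |F x| ≤ M) (n : ℕ) (x : X) :
    |(G.L^[n] F) x| ≤ (2 * G.N) ^ n * M := by
  induction n generalizing x with
  | zero => simpa using hM x
  | succ n ih =>
    rw [Function.iterate_succ_apply']
    have h := G.L_bound (G.L^[n] F) ((2 * G.N) ^ n * M) ih x
    calc _ ≤ _ := h
      _ = _ := by ring

theorem L_bd (F : X → ℝ) (hF : Bd F) : Bd (G.L F) := by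
  obtain ⟨M, hM⟩ := hF
  exact ⟨_, fun x => G.L_bound F M hM x⟩

theorem term_bound (F : X → ℝ) (M : ℝ) (hM : ∀ x, |F x| ≤ M) (t : ℝ) (x : X) (n : ℕ) :
    ‖t ^ n / (n.factorial : ℝ) * (G.L^[n] F) x‖ ≤ M * ((|t| * (2 * G.N)) ^ n / (n.factorial : ℝ)) := by
  rw [norm_mul, norm_div, norm_pow, Real.norm_eq_abs, Real.norm_eq_abs, Real.norm_eq_abs,
    Nat.abs_cast]
  have h := G.iter_bound F M hM n x
  calc |t| ^ n / (n.factorial : ℝ) * |(G.L^[n] F) x|
      ≤ |t| ^ n / (n.factorial : ℝ) * ((2 * G.N) ^ n * M) :=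
        mul_le_mul_of_nonneg_left h (by positivity)
    _ = _ := by rw [mul_pow]; ring

theorem summ (F : X → ℝ) (hF : Bd F) (t : ℝ) (x : X) :
    Summable (fun n : ℕ => t ^ n / (n.factorial : ℝ) * (G.L^[n] F) x) := by
  obtain ⟨M, hM⟩ := hF
  exact Summable.of_norm_bounded ((Real.summable_pow_div_factorial (|t| * (2 * G.N))).mul_left M)
    (G.term_bound F M hM t x)

theorem P_zero (F : X → ℝ) (x : X) : G.P 0 F x = F x := by
  unfold P semi
  rw [tsum_eq_single 0]
  · simp
  · intro n hn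
    rw [zero_pow hn]
    simp

theorem L_add (F H : X → ℝ) : G.L (fun y => F y + H y) = fun y => G.L F y + G.L H y := by
  funext y
  unfold L
  rw [← Finset.sum_add_distrib]
  apply Finset.sum_congr rfl
  intro i _
  ring

theorem L_smul (c : ℝ) (F : X → ℝ) : G.L (fun y => c * F y) = fun y => c * G.L F y := by
  funext y
  unfold L
  rw [Finset.mul_sum]
  apply Finset.sum_congr rfl
  intro i _
  ring

theorem iter_add (n : ℕ) (F H : X → ℝ) :
    G.L^[n] (fun y => F y + H y) = fun y => (G.L^[n] F) y + (G.L^[n] H) y := by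
  induction n with
  | zero => rfl
  | succ n ih => rw [Function.iterate_succ_apply', ih, L_add, Function.iterate_succ_apply',
      Function.iterate_succ_apply']

theorem iter_smul (n : ℕ) (c : ℝ) (F : X → ℝ) :
    G.L^[n] (fun y => c * F y) = fun y => c * (G.L^[n] F) y := by
  induction n with
  | zero => rfl
  | succ n ih => rw [Function.iterate_succ_apply', ih, L_smul, Function.iterate_succ_apply']

theorem P_add (F H : X → ℝ) (hF : Bd F) (hH : Bd H) (t : ℝ) (x : X) :
    G.P t (fun y => F y + H y) x = G.P t F x + G.P t H x := by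
  unfold P semi
  rw [← (G.summ F hF t x).tsum_add (G.summ H hH t x)]
  congr 1
  funext n
  rw [iter_add]
  ring

theorem P_smul (c : ℝ) (F : X → ℝ) (hF : Bd F) (t : ℝ) (x : X) :
    G.P t (fun y => c * F y) x = c * G.P t F x := by
  unfold P semi
  rw [← tsum_mul_left]
  congr 1
  funext n
  rw [iter_smul]
  ring

theorem iter_const (n : ℕ) (c : ℝ) : G.L^[n + 1] (fun _ => c) = fun _ => (0 : ℝ) := by
  induction n with
  | zero =>
    funext y
    change G.L (fun _ => c) y = 0
    unfold L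
    simp
  | succ n ih =>
    rw [Function.iterate_succ_apply', ih]
    funext y
    unfold L
    simp

theorem P_const (c : ℝ) (t : ℝ) (x : X) : G.P t (fun _ => c) x = c := by
  unfold P semi
  rw [tsum_eq_single 0]
  · simp
  · intro n hn
    obtain ⟨m, rfl⟩ := Nat.exists_eq_succ_of_ne_zero hn
    rw [Nat.succ_eq_add_one, iter_const, mul_zero]

theorem P_bd (F : X → ℝ) (hF : Bd F) (t : ℝ) : Bd (G.P t F) := by
  obtain ⟨M, hM⟩ := hF
  refine ⟨∑' n : ℕ, M * ((|t| * (2 * G.N)) ^ n / (n.factorial : ℝ)), fun x => ?_⟩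
  rw [← Real.norm_eq_abs]
  exact tsum_of_norm_bounded ((Real.summable_pow_div_factorial (|t| * (2 * G.N))).mul_left M).hasSum
    (G.term_bound F M hM t x)

theorem P_comm (F : X → ℝ) (hF : Bd F) (t : ℝ) (x : X) : G.P t (G.L F) x = G.L (G.P t F) x := by
  have h1 : ∀ i ∈ G.I, HasSum (fun n : ℕ => G.r i x * (t ^ n / (n.factorial : ℝ) * (G.L^[n] F) (G.T i x)
      - t ^ n / (n.factorial : ℝ) * (G.L^[n] F) x)) (G.r i x * (G.P t F (G.T i x) - G.P t F x)) := by
    intro i _
    exact (((G.summ F hF t (G.T i x)).hasSum).sub (G.summ F hF t x).hasSum).mul_left _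
  have h2 := hasSum_sum h1
  have h3 : G.L (G.P t F) x = ∑ i ∈ G.I, G.r i x * (G.P t F (G.T i x) - G.P t F x) := rfl
  rw [h3, ← h2.tsum_eq]
  unfold P semi
  congr 1
  funext n
  rw [← Function.iterate_succ_apply, Function.iterate_succ_apply']
  conv_lhs => unfold L
  rw [Finset.mul_sum]
  apply Finset.sum_congr rfl
  intro i _
  unfold L
  ring

theorem P_deriv (F : X → ℝ) (hF : Bd F) (t : ℝ) (x : X) :
    HasDerivAt (fun s => G.P s F x) (G.L (G.P t F) x) t := by
  rw [← G.P_comm F hF t x]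
  have hP : (fun s => G.P s F x) = fun s => F x +
      ∑' n : ℕ, s ^ (n + 1) / ((n + 1).factorial : ℝ) * (G.L^[n + 1] F) x := by
    funext s
    unfold P semi
    rw [(G.summ F hF s x).tsum_eq_zero_add]
    simp
  rw [hP]
  apply HasDerivAt.const_add
  obtain ⟨M, hM⟩ := hF
  have hN := G.hN
  have hLM : ∀ y, |G.L F y| ≤ 2 * G.N * M := fun y => G.L_bound F M hM y
  have hM0 : 0 ≤ 2 * G.N * M := (abs_nonneg _).trans (hLM x)
  have hu : Summable (fun n : ℕ => (2 * G.N * M) * (((|t| + 1) * (2 * G.N)) ^ n / (n.factorial : ℝ))) :=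
    (Real.summable_pow_div_factorial _).mul_left _
  have hP2 : G.P t (G.L F) x = ∑' n : ℕ, t ^ n / (n.factorial : ℝ) * (G.L^[n + 1] F) x := rfl
  rw [hP2]
  apply hasDerivAt_tsum_of_isPreconnected (t := Metric.ball (0 : ℝ) (|t| + 1)) (y₀ := 0)
    (g := fun (n : ℕ) (s : ℝ) => s ^ (n + 1) / ((n + 1).factorial : ℝ) * (G.L^[n + 1] F) x)
    (g' := fun (n : ℕ) (s : ℝ) => s ^ n / (n.factorial : ℝ) * (G.L^[n + 1] F) x) hu
    Metric.isOpen_ball (convex_ball (0 : ℝ) (|t| + 1)).isPreconnected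
  · intro n s _
    have h1 := ((hasDerivAt_pow (n + 1) s).div_const ((n + 1).factorial : ℝ)).mul_const
      ((G.L^[n + 1] F) x)
    have h3 : ((n + 1 : ℕ) : ℝ) * s ^ (n + 1 - 1) / ((n + 1).factorial : ℝ) =
        s ^ n / (n.factorial : ℝ) := by
      rw [Nat.factorial_succ, Nat.add_sub_cancel]
      have h2 : (n.factorial : ℝ) ≠ 0 := by positivity
      push_cast
      field_simp
    rw [h3] at h1
    exact h1
  · intro n s hs
    rw [mem_ball_zero_iff, Real.norm_eq_abs] at hs
    have h1 := G.term_bound (G.L F) (2 * G.N * M) hLM s x n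
    refine h1.trans ?_
    apply mul_le_mul_of_nonneg_left _ hM0
    apply div_le_div_of_nonneg_right _ (by positivity)
    apply pow_le_pow_left₀ (by positivity)
    apply mul_le_mul_of_nonneg_right hs.le (by positivity)
  · rw [mem_ball_zero_iff]
    simp
    positivity
  · have h0 : (fun n : ℕ => (0 : ℝ) ^ (n + 1) / ((n + 1).factorial : ℝ) * (G.L^[n + 1] F) x) =
        fun _ => 0 := by
      funext n
      rw [zero_pow (Nat.succ_ne_zero n)]
      simp
    rw [h0]
    exact summable_zero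
  · rw [mem_ball_zero_iff, Real.norm_eq_abs]
    linarith

end MG
end FA

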