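import Mathlib
import Pool.Agent.Helper769.FAG.D60668
import Pool.Agent.Helper769.FAG.S1
import Pool.Agent.Helper769.FAG.S2

set_option autoImplicit false
set_option linter.unusedSectionVars false

open Finset

noncomputable section

-- ---- TARGET (prove everything below; everything above is GIVEN, sorrys above are proved elsewhere)
-- USES: S1 S2
namespace FA
namespace MG
variable {X Y : Type} (G : MG X)

theorem P_nonneg_K (F : X → ℝ) (h0 : ∀ x, 0 ≤ F x) (x : X) : 0 ≤ G.K F x := by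
  unfold K L
  have h1 : -(G.N * F x) ≤ ∑ i ∈ G.I, G.r i x * (F (G.T i x) - F x) := by
    calc -(G.N * F x) ≤ -((∑ i ∈ G.I, G.r i x) * F x) :=
          neg_le_neg (mul_le_mul_of_nonneg_right (G.hs x) (h0 x))
      _ = ∑ i ∈ G.I, G.r i x * (0 - F x) := by
          rw [Finset.sum_mul, ← Finset.sum_neg_distrib]
          apply Finset.sum_congr rfl
          intro i _
          ring
      _ ≤ ∑ i ∈ G.I, G.r i x * (F (G.T i x) - F x) := by
          apply Finset.sum_le_sum
          intro i hi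
          exact mul_le_mul_of_nonneg_left (by linarith [h0 (G.T i x)]) (G.hr i hi x)
  have h2 : -F x ≤ (∑ i ∈ G.I, G.r i x * (F (G.T i x) - F x)) / G.N := by
    rw [le_div_iff₀ G.hN]
    linarith
  linarith

theorem P_nonneg_Kiter (F : X → ℝ) (h0 : ∀ x, 0 ≤ F x) (n : ℕ) : ∀ x : X, 0 ≤ (G.K^[n] F) x := by
  induction n with
  | zero => exact h0
  | succ n ih =>
    intro x
    rw [Function.iterate_succ_apply']
    exact P_nonneg_K G _ ih x

theorem P_nonneg (F : X → ℝ) (hF : Bd F) (h0 : ∀ x, 0 ≤ F x) (t : ℝ) (ht : 0 ≤ t) (x : X) :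
    0 ≤ G.P t F x := by
  rw [P_unif G F hF t x]
  apply tsum_nonneg
  intro n
  have h1 := P_nonneg_Kiter G F h0 n x
  have h2 : 0 ≤ G.N * t := mul_nonneg G.hN.le ht
  positivity

theorem P_aux_smul (F : X → ℝ) (hF : Bd F) (c : ℝ) : Bd (fun y => c * F y) := by
  obtain ⟨M, hM⟩ := hF
  refine ⟨|c| * M, fun x => ?_⟩
  rw [abs_mul]
  exact mul_le_mul_of_nonneg_left (hM x) (abs_nonneg c)

theorem P_aux_add (F H : X → ℝ) (hF : Bd F) (hH : Bd H) : Bd (fun y => F y + H y) := by
  obtain ⟨M, hM⟩ := hF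
  obtain ⟨M', hM'⟩ := hH
  exact ⟨M + M', fun x => (abs_add_le _ _).trans (add_le_add (hM x) (hM' x))⟩

theorem P_aux_const (c : ℝ) : Bd (fun _ : X => c) := ⟨|c|, fun _ => le_rfl⟩

theorem P_mono (F H : X → ℝ) (hF : Bd F) (hH : Bd H) (h : ∀ x, F x ≤ H x) (t : ℝ) (ht : 0 ≤ t) (x : X) :
    G.P t F x ≤ G.P t H x := by
  have h1 := P_nonneg G (fun y => H y + (-1) * F y) (P_aux_add _ _ hH (P_aux_smul _ hF _))
    (fun y => by linarith [h y]) t ht x
  rw [P_add G H (fun y => (-1) * F y) hH (P_aux_smul _ hF _) t x, P_smul G (-1) F hF t x] at h1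
  linarith

theorem P_bound (F : X → ℝ) (M : ℝ) (hM : ∀ x, |F x| ≤ M) (t : ℝ) (ht : 0 ≤ t) (x : X) :
    |G.P t F x| ≤ M := by
  have hF : Bd F := ⟨M, hM⟩
  rw [abs_le]
  constructor
  · have h1 := P_mono G (fun _ => -M) F (P_aux_const _) hF (fun y => (abs_le.1 (hM y)).1) t ht x
    rwa [P_const] at h1
  · have h1 := P_mono G F (fun _ => M) hF (P_aux_const _) (fun y => (abs_le.1 (hM y)).2) t ht x
    rwa [P_const] at h1

theorem P_ge (F : X → ℝ) (hF : Bd F) (c : ℝ) (h : ∀ x, c ≤ F x) (t : ℝ) (ht : 0 ≤ t) (x : X) :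
    c ≤ G.P t F x := by
  have h1 := P_mono G (fun _ => c) F (P_aux_const _) hF h t ht x
  rwa [P_const] at h1

theorem P_congr_iter (C : Set X) (hC : ∀ i ∈ G.I, ∀ x ∈ C, G.r i x ≠ 0 → G.T i x ∈ C)
    (F H : X → ℝ) (h : ∀ x ∈ C, F x = H x) (n : ℕ) : ∀ x ∈ C, (G.L^[n] F) x = (G.L^[n] H) x := by
  induction n with
  | zero => exact h
  | succ n ih =>
    intro x hx
    rw [Function.iterate_succ_apply', Function.iterate_succ_apply']
    unfold L
    apply Finset.sum_congr rfl
    intro i hi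
    by_cases h0 : G.r i x = 0
    · rw [h0, zero_mul, zero_mul]
    · have h1 := ih x hx
      have h2 := ih (G.T i x) (hC i hi x hx h0)
      unfold L at h1 h2
      rw [h1, h2]

/-- values on a closed class depend only on the values of `F` there -/
theorem P_congr_on (C : Set X) (hC : ∀ i ∈ G.I, ∀ x ∈ C, G.r i x ≠ 0 → G.T i x ∈ C)
    (F H : X → ℝ) (h : ∀ x ∈ C, F x = H x) (t : ℝ) (x : X) (hx : x ∈ C) :
    G.P t F x = G.P t H x := by
  unfold P semi
  congr 1
  funext n
  rw [P_congr_iter G C hC F H h n x hx]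

theorem P_mono_on (C : Set X) (hC : ∀ i ∈ G.I, ∀ x ∈ C, G.r i x ≠ 0 → G.T i x ∈ C)
    (F H : X → ℝ) (hF : Bd F) (hH : Bd H) (h : ∀ x ∈ C, F x ≤ H x) (t : ℝ) (ht : 0 ≤ t)
    (x : X) (hx : x ∈ C) : G.P t F x ≤ G.P t H x := by
  classical
  have hb : ∀ F : X → ℝ, Bd F → Bd (fun y => if y ∈ C then F y else 0) := by
    rintro F ⟨M, hM⟩
    refine ⟨max M 0, fun y => ?_⟩
    beta_reduce
    split_ifs
    · exact (hM y).trans (le_max_left _ _)
    · rw [abs_zero]; exact le_max_right _ _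
  have h1 := P_congr_on G C hC F (fun y => if y ∈ C then F y else 0)
    (fun y hy => by simp only [hy, if_true]) t x hx
  have h2 := P_congr_on G C hC H (fun y => if y ∈ C then H y else 0)
    (fun y hy => by simp only [hy, if_true]) t x hx
  rw [h1, h2]
  apply P_mono G _ _ (hb F hF) (hb H hH) _ t ht x
  intro y
  split_ifs with hy
  · exact h y hy
  · exact le_rfl

/-- Lyapunov bound on a closed class -/
theorem P_lyap (C : Set X) (hC : ∀ i ∈ G.I, ∀ x ∈ C, G.r i x ≠ 0 → G.T i x ∈ C)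
    (V : X → ℝ) (hV : Bd V) (c : ℝ) (hL : ∀ x ∈ C, G.L V x ≤ c * V x) (t : ℝ) (ht : 0 ≤ t)
    (x : X) (hx : x ∈ C) : G.P t V x ≤ Real.exp (c * t) * V x := by
  have hder : ∀ s : ℝ, HasDerivAt (fun s => Real.exp (-c * s) * G.P s V x)
      (Real.exp (-c * s) * (-c) * G.P s V x + Real.exp (-c * s) * G.L (G.P s V) x) s := by
    intro s
    have h1 : HasDerivAt (fun s : ℝ => Real.exp (-c * s)) (Real.exp (-c * s) * (-c)) s := by
      have h2 : HasDerivAt (fun s : ℝ => -c * s) (-c) s := by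
        simpa using (hasDerivAt_id s).const_mul (-c)
      exact h2.exp
    exact h1.mul (P_deriv G V hV s x)
  have hnonpos : ∀ s : ℝ, 0 ≤ s →
      Real.exp (-c * s) * (-c) * G.P s V x + Real.exp (-c * s) * G.L (G.P s V) x ≤ 0 := by
    intro s hs
    have h1 : G.L (G.P s V) x ≤ c * G.P s V x := by
      rw [← P_comm G V hV s x, ← P_smul G c V hV s x]
      exact P_mono_on G C hC _ _ (L_bd G V hV) (P_aux_smul _ hV _) hL s hs x hx
    have h2 := mul_le_mul_of_nonneg_left h1 (Real.exp_pos (-c * s)).le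
    linarith
  have hanti : AntitoneOn (fun s => Real.exp (-c * s) * G.P s V x) (Set.Ici 0) := by
    apply antitoneOn_of_deriv_nonpos (convex_Ici 0)
    · exact fun s _ => (hder s).continuousAt.continuousWithinAt
    · exact fun s _ => (hder s).differentiableAt.differentiableWithinAt
    · intro s hs
      rw [interior_Ici, Set.mem_Ioi] at hs
      rw [(hder s).deriv]
      exact hnonpos s hs.le
  have h3 := hanti (Set.mem_Ici.2 le_rfl) (Set.mem_Ici.2 ht) ht
  simp only [mul_zero, Real.exp_zero, one_mul, P_zero] at h3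
  have h4 := mul_le_mul_of_nonneg_left h3 (Real.exp_pos (c * t)).le
  rw [← mul_assoc, ← Real.exp_add, show c * t + -c * t = 0 by ring, Real.exp_zero, one_mul] at h4
  exact h4

theorem P_lyap2 (C : Set X) (hC : ∀ i ∈ G.I, ∀ x ∈ C, G.r i x ≠ 0 → G.T i x ∈ C)
    (V : X → ℝ) (hV : Bd V) (c b : ℝ) (hc : 0 < c) (hb : 0 ≤ b)
    (hL : ∀ x ∈ C, G.L V x ≤ - c * V x + b) (t : ℝ) (ht : 0 ≤ t)
    (x : X) (hx : x ∈ C) : G.P t V x ≤ Real.exp (- c * t) * V x + b / c := by
  have hder : ∀ s : ℝ, HasDerivAt (fun s => Real.exp (c * s) * (G.P s V x - b / c))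
      (Real.exp (c * s) * c * (G.P s V x - b / c) + Real.exp (c * s) * G.L (G.P s V) x) s := by
    intro s
    have h1 : HasDerivAt (fun s : ℝ => Real.exp (c * s)) (Real.exp (c * s) * c) s := by
      have h2 : HasDerivAt (fun s : ℝ => c * s) c s := by
        simpa using (hasDerivAt_id s).const_mul c
      exact h2.exp
    exact h1.mul ((P_deriv G V hV s x).sub_const (b / c))
  have hnonpos : ∀ s : ℝ, 0 ≤ s →
      Real.exp (c * s) * c * (G.P s V x - b / c) + Real.exp (c * s) * G.L (G.P s V) x ≤ 0 := by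
    intro s hs
    have h1 : G.L (G.P s V) x ≤ -c * G.P s V x + b := by
      have h5 := P_mono_on G C hC _ (fun y => -c * V y + b) (L_bd G V hV)
        (P_aux_add _ _ (P_aux_smul _ hV (-c)) (P_aux_const b)) hL s hs x hx
      rw [P_comm G V hV s x, P_add G (fun y => -c * V y) (fun _ => b) (P_aux_smul _ hV (-c))
        (P_aux_const b) s x, P_smul G (-c) V hV s x, P_const] at h5
      exact h5
    have h2 := mul_le_mul_of_nonneg_left h1 (Real.exp_pos (c * s)).le
    have h6 : Real.exp (c * s) * c * (G.P s V x - b / c) =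
        Real.exp (c * s) * (c * G.P s V x - b) := by
      field_simp
    rw [h6]
    linarith
  have hanti : AntitoneOn (fun s => Real.exp (c * s) * (G.P s V x - b / c)) (Set.Ici 0) := by
    apply antitoneOn_of_deriv_nonpos (convex_Ici 0)
    · exact fun s _ => (hder s).continuousAt.continuousWithinAt
    · exact fun s _ => (hder s).differentiableAt.differentiableWithinAt
    · intro s hs
      rw [interior_Ici, Set.mem_Ioi] at hs
      rw [(hder s).deriv]
      exact hnonpos s hs.le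
  have h3 := hanti (Set.mem_Ici.2 le_rfl) (Set.mem_Ici.2 ht) ht
  simp only [mul_zero, Real.exp_zero, one_mul, P_zero] at h3
  have hbc : 0 ≤ b / c := div_nonneg hb hc.le
  have h3' : Real.exp (c * t) * (G.P t V x - b / c) ≤ V x := by linarith
  have h4 := mul_le_mul_of_nonneg_left h3' (Real.exp_pos (-c * t)).le
  rw [← mul_assoc, ← Real.exp_add, show -c * t + c * t = 0 by ring, Real.exp_zero, one_mul] at h4
  linarith

theorem P_map_iter (H : MG Y) (φ : X → Y) (F : Y → ℝ)
    (h : ∀ F' : Y → ℝ, ∀ x, G.L (fun x => F' (φ x)) x = H.L F' (φ x)) (n : ℕ) :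
    (G.L^[n] (fun x => F (φ x))) = fun x => (H.L^[n] F) (φ x) := by
  induction n with
  | zero => rfl
  | succ n ih =>
    funext x
    rw [Function.iterate_succ_apply', Function.iterate_succ_apply', ih, h]

/-- intertwining with a map -/
theorem P_map (H : MG Y) (φ : X → Y) (F : Y → ℝ)
    (h : ∀ F' : Y → ℝ, ∀ x, G.L (fun x => F' (φ x)) x = H.L F' (φ x)) (t : ℝ) (x : X) :
    G.P t (fun x => F (φ x)) x = H.P t F (φ x) := by
  unfold P semi
  congr 1
  funext n
  rw [P_map_iter G H φ F h n]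

end MG
end FA

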