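import Mathlib
import Pool.Agent.Helper769.FAG.D60668
import Pool.Agent.Helper769.FAG.S1
import Pool.Agent.Helper769.FAG.S2
import Pool.Agent.Helper769.FAG.S3

set_option autoImplicit false
set_option linter.unusedSectionVars false

open Finset

noncomputable section

-- ---- TARGET (prove everything below; everything above is GIVEN, sorrys above are proved elsewhere)
-- USES: S1 S2 S3
namespace FA
namespace MG
variable {X : Type}

theorem dh_hasDeriv (G : MG X) (H : X → ℝ) (hH : Bd H) (y : X) (s : ℝ) :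
    HasDerivAt (fun s => G.P s H y) (G.P s (G.L H) y) s := by
  have h := G.P_deriv H hH s y
  rwa [← G.P_comm H hH] at h

theorem dh_first (G : MG X) (H : X → ℝ) (M : ℝ) (hM : ∀ x, |H x| ≤ M) (y : X) {h : ℝ}
    (hh : 0 ≤ h) : |G.P h H y - H y| ≤ (2 * G.N * M) * h := by
  have hH : Bd H := ⟨M, hM⟩
  have h1 := Convex.norm_image_sub_le_of_norm_hasDerivWithin_le (f := fun s => G.P s H y)
    (f' := fun s => G.P s (G.L H) y) (s := Set.Icc 0 h) (C := 2 * G.N * M) (x := 0) (y := h)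
    (fun s _ => (dh_hasDeriv G H hH y s).hasDerivWithinAt)
    (fun s hs => by
      rw [Real.norm_eq_abs]
      exact G.P_bound (G.L H) _ (G.L_bound H M hM) s hs.1 y)
    (convex_Icc _ _) (Set.left_mem_Icc.2 hh) (Set.right_mem_Icc.2 hh)
  rw [G.P_zero, Real.norm_eq_abs, Real.norm_eq_abs, sub_zero, abs_of_nonneg hh] at h1
  exact h1

theorem dh_taylor (G : MG X) (H : X → ℝ) (M : ℝ) (hM : ∀ x, |H x| ≤ M) (y : X) {h : ℝ}
    (hh : 0 ≤ h) : |G.P h H y - H y - h * G.L H y| ≤ (2 * G.N * (2 * G.N * M)) * h ^ 2 := by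
  have hH : Bd H := ⟨M, hM⟩
  have hM0 : 0 ≤ M := (abs_nonneg _).trans (hM y)
  have hN := G.hN
  have h1 := Convex.norm_image_sub_le_of_norm_hasDerivWithin_le
    (f := fun s => G.P s H y - s * G.L H y)
    (f' := fun s => G.P s (G.L H) y - 1 * G.L H y) (s := Set.Icc 0 h)
    (C := (2 * G.N * (2 * G.N * M)) * h) (x := 0) (y := h)
    (fun s _ => ((dh_hasDeriv G H hH y s).sub
      ((hasDerivAt_id s).mul_const (G.L H y))).hasDerivWithinAt)
    (fun s hs => by
      rw [Real.norm_eq_abs, one_mul]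
      refine (dh_first G (G.L H) _ (G.L_bound H M hM) y hs.1).trans ?_
      apply mul_le_mul_of_nonneg_left hs.2
      positivity)
    (convex_Icc _ _) (Set.left_mem_Icc.2 hh) (Set.right_mem_Icc.2 hh)
  rw [G.P_zero, Real.norm_eq_abs, Real.norm_eq_abs, sub_zero, abs_of_nonneg hh] at h1
  have e1 : G.P h H y - h * G.L H y - (H y - 0 * G.L H y) = G.P h H y - H y - h * G.L H y := by
    ring
  rw [e1] at h1
  calc _ ≤ _ := h1
    _ = _ := by ring

theorem dh_bd_lin {W : X → ℝ} (hW : Bd W) (h K : ℝ) : Bd (fun y => h * W y + K) := by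
  obtain ⟨M, hM⟩ := hW
  refine ⟨|h| * M + |K|, fun x => ?_⟩
  refine (abs_add_le _ _).trans ?_
  rw [abs_mul]
  have := mul_le_mul_of_nonneg_left (hM x) (abs_nonneg h)
  linarith

theorem dh_lin (G : MG X) (A W : X → ℝ) (hA : Bd A) (hW : Bd W) (h K s : ℝ) (x : X) :
    G.P s (fun y => A y + (h * W y + K)) x = G.P s A x + (h * G.P s W x + K) := by
  have hhW : Bd (fun y => h * W y) := by
    have := dh_bd_lin hW h 0
    simpa using this
  rw [G.P_add A (fun y => h * W y + K) hA (dh_bd_lin hW h K),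
    G.P_add (fun y => h * W y) (fun _ => K) hhW ⟨|K|, fun _ => le_rfl⟩, G.P_smul h W hW,
    G.P_const]

theorem dh_gen (G1 G2 : MG X) (F : X → ℝ) (M : ℝ) (hM : ∀ x, |F x| ≤ M) (t b : ℝ) (ht : 0 ≤ t)
    (W : X → ℝ) (hWb : Bd W)
    (hW : ∀ s, 0 ≤ s → s ≤ t → ∀ y, |G1.L (G2.P s F) y - G2.L (G2.P s F) y| ≤ W y) (x : X)
    (hb : ∀ s, 0 ≤ s → s ≤ t → G1.P s W x ≤ b) :
    |G1.P t F x - G2.P t F x| ≤ t * b := by
  have hF : Bd F := ⟨M, hM⟩
  set C : ℝ := 2 * G1.N * (2 * G1.N * M) + 2 * G2.N * (2 * G2.N * M) with hC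
  have hM0 : 0 ≤ M := (abs_nonneg _).trans (hM x)
  have hN1 := G1.hN
  have hN2 := G2.hN
  have hC0 : 0 ≤ C := by positivity
  have hmain : ∀ n : ℕ, 0 < n → |G1.P t F x - G2.P t F x| ≤ t * b + C * t ^ 2 / n := by
    intro n hn
    have hn' : (0 : ℝ) < n := by exact_mod_cast hn
    set h : ℝ := t / n with hh
    have hh0 : 0 ≤ h := by positivity
    have hnh : n * h = t := by rw [hh]; field_simp
    set a : ℕ → ℝ := fun k => G1.P (k * h) (G2.P (t - k * h) F) x with ha
    have hstep : ∀ k ∈ Finset.range n, |a (k + 1) - a k| ≤ h * b + C * h ^ 2 := by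
      intro k hk
      rw [Finset.mem_range] at hk
      have hk' : ((k : ℝ) + 1) ≤ n := by exact_mod_cast hk
      have hkh : ((k : ℝ) + 1) * h ≤ t := by
        rw [← hnh]; exact mul_le_mul_of_nonneg_right hk' hh0
      obtain ⟨s, hs⟩ : ∃ s : ℝ, s = t - ((k : ℝ) + 1) * h := ⟨_, rfl⟩
      have hs0 : 0 ≤ s := by rw [hs]; linarith
      have hk0 : 0 ≤ (k : ℝ) * h := by positivity
      have hst : s ≤ t := by rw [hs]; nlinarith
      have hkt : (k : ℝ) * h ≤ t := by nlinarith
      have hHM : ∀ y, |G2.P s F y| ≤ M := fun y => G2.P_bound F M hM s hs0 y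
      have hH : Bd (G2.P s F) := ⟨M, hHM⟩
      have e1 : a (k + 1) = G1.P (k * h) (G1.P h (G2.P s F)) x := by
        rw [ha]
        simp only
        rw [← G1.P_semigroup _ hH, hs]
        push_cast
        congr 2
        ring
      have e2 : a k = G1.P (k * h) (G2.P h (G2.P s F)) x := by
        rw [ha]
        simp only
        have e3 : G2.P (t - k * h) F = G2.P h (G2.P s F) := by
          funext y
          rw [← G2.P_semigroup F hF, hs]
          congr 2
          ring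
        rw [e3]
      have hpt : ∀ y, |G1.P h (G2.P s F) y - G2.P h (G2.P s F) y| ≤ h * W y + C * h ^ 2 := by
        intro y
        have t1 := dh_taylor G1 (G2.P s F) M hHM y hh0
        have t2 := dh_taylor G2 (G2.P s F) M hHM y hh0
        have t3 := hW s hs0 hst y
        have t4 : h * |G1.L (G2.P s F) y - G2.L (G2.P s F) y| ≤ h * W y :=
          mul_le_mul_of_nonneg_left t3 hh0
        have e4 : G1.P h (G2.P s F) y - G2.P h (G2.P s F) y =
            (G1.P h (G2.P s F) y - G2.P s F y - h * G1.L (G2.P s F) y) -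
            (G2.P h (G2.P s F) y - G2.P s F y - h * G2.L (G2.P s F) y) +
            h * (G1.L (G2.P s F) y - G2.L (G2.P s F) y) := by ring
        rw [e4]
        refine (abs_add_le _ _).trans ?_
        refine (add_le_add_left (abs_sub _ _) _).trans ?_
        rw [abs_mul, abs_of_nonneg hh0, hC]
        linarith
      have b1 : Bd (G1.P h (G2.P s F)) := G1.P_bd _ hH h
      have b2 : Bd (G2.P h (G2.P s F)) := G2.P_bd _ hH h
      have bsum : ∀ A : X → ℝ, Bd A → Bd (fun y => A y + (h * W y + C * h ^ 2)) := by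
        rintro A ⟨M1, h1⟩
        obtain ⟨M2, h2⟩ := dh_bd_lin hWb h (C * h ^ 2)
        exact ⟨M1 + M2, fun y => (abs_add_le _ _).trans (add_le_add (h1 y) (h2 y))⟩
      have m1 := G1.P_mono _ _ b1 (bsum _ b2) (fun y => by
        have := (abs_le.1 (hpt y)).2; linarith) (k * h) hk0 x
      have m2 := G1.P_mono _ _ b2 (bsum _ b1) (fun y => by
        have := (abs_le.1 (hpt y)).1; linarith) (k * h) hk0 x
      rw [dh_lin G1 _ W b2 hWb] at m1
      rw [dh_lin G1 _ W b1 hWb] at m2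
      have hb' := mul_le_mul_of_nonneg_left (hb (k * h) hk0 hkt) hh0
      rw [e1, e2, abs_le]
      constructor <;> linarith
    have a0 : a 0 = G2.P t F x := by
      rw [ha]
      simp only
      rw [Nat.cast_zero, zero_mul, sub_zero, G1.P_zero]
    have an : a n = G1.P t F x := by
      rw [ha]
      simp only
      rw [hnh, sub_self]
      have : G2.P 0 F = F := by funext y; exact G2.P_zero F y
      rw [this]
    have hsum : G1.P t F x - G2.P t F x = ∑ k ∈ Finset.range n, (a (k + 1) - a k) := by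
      rw [Finset.sum_range_sub, a0, an]
    rw [hsum]
    refine (Finset.abs_sum_le_sum_abs _ _).trans ?_
    refine (Finset.sum_le_sum hstep).trans ?_
    rw [Finset.sum_const, Finset.card_range, nsmul_eq_mul, mul_add, ← mul_assoc, hnh]
    have : (n : ℝ) * (C * h ^ 2) = C * t ^ 2 / n := by
      rw [hh]
      field_simp
    rw [this]
  apply le_of_forall_pos_le_add
  intro ε hε
  obtain ⟨n, hn⟩ := exists_nat_gt (C * t ^ 2 / ε)
  have hn0 : 0 < n := by
    have h1 : (0 : ℝ) ≤ C * t ^ 2 / ε := by positivity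
    have h2 : (0 : ℝ) < n := lt_of_le_of_lt h1 hn
    exact_mod_cast h2
  have hn' : (0 : ℝ) < n := by exact_mod_cast hn0
  refine (hmain n hn0).trans ?_
  have : C * t ^ 2 / n ≤ ε := by
    rw [div_le_iff₀ hn']
    rw [div_lt_iff₀ hε] at hn
    linarith
  linarith

theorem duhamel1 (G1 G2 : MG X) (F : X → ℝ) (hF : Bd F) (t b : ℝ) (ht : 0 ≤ t)
    (hb : ∀ s, 0 ≤ s → s ≤ t → ∀ x, |G1.L (G2.P s F) x - G2.L (G2.P s F) x| ≤ b) (x : X) :
    |G1.P t F x - G2.P t F x| ≤ t * b := by
  obtain ⟨M, hM⟩ := hF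
  exact dh_gen G1 G2 F M hM t b ht (fun _ => b) ⟨|b|, fun _ => le_rfl⟩ hb x
    (fun s _ _ => (G1.P_const b s x).le)

theorem duhamel2 (G1 G2 : MG X) (V : X → ℝ) (hVb : Bd V) (hV0 : ∀ x, 0 ≤ V x)
    (hV : ∀ (H : X → ℝ) (M : ℝ), (∀ x, |H x| ≤ M) → ∀ x, |G1.L H x - G2.L H x| ≤ 2 * M * V x)
    (F : X → ℝ) (M : ℝ) (hM : ∀ x, |F x| ≤ M) (t b : ℝ) (ht : 0 ≤ t) (x : X)
    (hb : ∀ s, 0 ≤ s → s ≤ t → G1.P s V x ≤ b) :
    |G1.P t F x - G2.P t F x| ≤ 2 * M * t * b := by
  have hM0 : 0 ≤ M := (abs_nonneg _).trans (hM x)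
  have hW : Bd (fun y => 2 * M * V y) := by
    have := dh_bd_lin hVb (2 * M) 0
    simpa using this
  have h := dh_gen G1 G2 F M hM t (2 * M * b) ht (fun y => 2 * M * V y) hW
    (fun s hs _ y => hV (G2.P s F) M (fun z => G2.P_bound F M hM s hs z) y) x
    (fun s hs hst => by
      rw [G1.P_smul (2 * M) V hVb]
      exact mul_le_mul_of_nonneg_left (hb s hs hst) (by positivity))
  calc _ ≤ _ := h
    _ = _ := by ring

end MG
end FA

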