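import Mathlib
import Pool.Agent.Helper769.FAG.D60668
import Pool.Agent.Helper769.FAG.G1
import Pool.Agent.Helper769.FAG.Dce33a
import Pool.Agent.Helper769.FAG.S1
import Pool.Agent.Helper769.FAG.S2
import Pool.Agent.Helper769.FAG.S3
import Pool.Agent.Helper769.FAG.S4

set_option autoImplicit false
set_option linter.unusedSectionVars false

open Finset

noncomputable section

-- ---- TARGET (prove everything below; everything above is GIVEN, sorrys above are proved elsewhere)
-- USES: G1 D2 S1 S2 S3 S4
namespace FA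
variable {q : ℝ}


theorem aux_expsum (x : ℝ) : HasSum (fun n : ℕ => x ^ n / (n.factorial : ℝ)) (Real.exp x) := by
  rw [Real.exp_eq_exp_ℝ]
  exact NormedSpace.expSeries_div_hasSum_exp x

theorem aux_pi_le (h0 : 0 ≤ q) (h1 : q ≤ 1) (y : ℤ) (F : Finset ℤ → ℝ) (S : Finset ℤ) :
    |q * F (insert y S) + (1 - q) * F (S.erase y) - F S| ≤ |F (insert y S) - F (S.erase y)| := by
  by_cases hy : y ∈ S
  · rw [Finset.insert_eq_of_mem hy]
    have e : q * F S + (1 - q) * F (S.erase y) - F S = (1 - q) * (-(F S - F (S.erase y))) := by ring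
    rw [e, abs_mul, abs_neg, abs_of_nonneg (by linarith : (0:ℝ) ≤ 1 - q)]
    nlinarith [abs_nonneg (F S - F (S.erase y))]
  · rw [Finset.erase_eq_of_notMem hy]
    have e : q * F (insert y S) + (1 - q) * F S - F S = q * (F (insert y S) - F S) := by ring
    rw [e, abs_mul, abs_of_nonneg h0]
    nlinarith [abs_nonneg (F (insert y S) - F S)]

theorem aux_loc_step (a b : ℤ) (k : ℤ → Finset ℤ → Bool) (hk : Adm0 a b k) (h0 : 0 ≤ q) (h1 : q ≤ 1)
    (F : Finset ℤ → ℝ) (hF : ∀ S, F S = F (S ∩ Icc a b)) (S : Finset ℤ) :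
    (kG q h0 h1 (Icc a b) k).L F S = (kG q h0 h1 (Icc a b) k).L F (S ∩ Icc a b) := by
  rw [kG_L, kG_L]
  unfold genK
  apply Finset.sum_congr rfl
  intro x hx
  have e1 : kv k x S = kv k x (S ∩ Icc a b) := by
    unfold kv
    rw [hk.loc x hx S]
  have e2 : F (insert x (S ∩ Icc a b)) = F (insert x S) := by
    rw [hF (insert x S), Finset.insert_inter_of_mem hx]
  have e3 : F ((S ∩ Icc a b).erase x) = F (S.erase x) := by
    rw [hF (S.erase x), Finset.erase_inter]
  rw [e1, e2, e3, ← hF S]

theorem aux_pi_comm (x y : ℤ) (hxy : y ≠ x) (S : Finset ℤ) :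
    insert y (insert x S) = insert x (insert y S) ∧ insert y (S.erase x) = (insert y S).erase x ∧
    (insert x S).erase y = insert x (S.erase y) ∧ (S.erase x).erase y = (S.erase y).erase x := by
  refine ⟨Finset.insert_comm _ _ _, ?_, ?_, ?_⟩
  · rw [Finset.erase_insert_of_ne hxy]
  · rw [Finset.erase_insert_of_ne (Ne.symm hxy)]
  · rw [Finset.erase_right_comm]

theorem aux_term (h0 : 0 ≤ q) (h1 : q ≤ 1) (a b : ℤ) (k : ℤ → Finset ℤ → Bool) (hk : Adm0 a b k)
    (w : ℤ → ℝ) (hw : ∀ x ∈ Icc a b, ∀ y ∈ Icc a b, |x - y| = 1 → |w x - w y| ≤ 1)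
    (hw2 : |w a - w b| ≤ 1) (F : Finset ℤ → ℝ) (M : ℝ) (hM0 : 0 ≤ M)
    (hM : ∀ x ∈ Icc a b, ∀ S, |F (insert x S) - F (S.erase x)| ≤ M * Real.exp (-(w x)))
    (x : ℤ) (hx : x ∈ Icc a b) (S : Finset ℤ) (y : ℤ) (hy : y ∈ Icc a b) :
    |(kv k y (insert x S) * (q * F (insert y (insert x S)) + (1 - q) * F ((insert x S).erase y)
        - F (insert x S))
      - kv k y (S.erase x) * (q * F (insert y (S.erase x)) + (1 - q) * F ((S.erase x).erase y)
        - F (S.erase x)))
      + kv k y (insert x S) * (F (insert x S) - F (S.erase x))| ≤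
    kv k y (insert x S) * (M * Real.exp (-(w x))) +
      ((if y = pr a b x then M * (Real.exp 1 * Real.exp (-(w x))) else 0) +
       (if y = sc a b x then M * (Real.exp 1 * Real.exp (-(w x))) else 0)) := by
  have hC : 0 ≤ M * (Real.exp 1 * Real.exp (-(w x))) := by positivity
  have hext : 0 ≤ ((if y = pr a b x then M * (Real.exp 1 * Real.exp (-(w x))) else 0) +
       (if y = sc a b x then M * (Real.exp 1 * Real.exp (-(w x))) else 0)) := by
    split_ifs <;> linarith
  have hk0 := kv_nonneg k y (insert x S)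
  by_cases hyx : y = x
  · subst hyx
    have e1 : kv k y (insert y S) = kv k y (S.erase y) := by
      unfold kv
      rw [hk.self y hy S]
    have e2 : insert y (insert y S) = insert y S := Finset.insert_idem _ _
    have e3 : (insert y S).erase y = S.erase y := Finset.erase_insert_eq_erase _ _
    have e4 : insert y (S.erase y) = insert y S := by
      ext z
      simp only [Finset.mem_insert, Finset.mem_erase]
      tauto
    have e5 : (S.erase y).erase y = S.erase y := Finset.erase_idem
    rw [e2, e3, e4, e5, ← e1]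
    have e6 : kv k y (insert y S) * (q * F (insert y S) + (1 - q) * F (S.erase y) - F (insert y S)) -
        kv k y (insert y S) * (q * F (insert y S) + (1 - q) * F (S.erase y) - F (S.erase y)) +
        kv k y (insert y S) * (F (insert y S) - F (S.erase y)) = 0 := by ring
    rw [e6, abs_zero]
    have : 0 ≤ kv k y (insert y S) * (M * Real.exp (-(w y))) := by positivity
    linarith
  · obtain ⟨c1, c2, c3, c4⟩ := aux_pi_comm x y hyx S
    have hd : |(q * F (insert y (insert x S)) + (1 - q) * F ((insert x S).erase y)) -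
        (q * F (insert y (S.erase x)) + (1 - q) * F ((S.erase x).erase y))| ≤ M * Real.exp (-(w x)) := by
      rw [c1, c2, c3, c4]
      have d1 := hM x hx (insert y S)
      have d2 := hM x hx (S.erase y)
      have e : (q * F (insert x (insert y S)) + (1 - q) * F (insert x (S.erase y))) -
        (q * F ((insert y S).erase x) + (1 - q) * F ((S.erase y).erase x)) =
        q * (F (insert x (insert y S)) - F ((insert y S).erase x)) +
        (1 - q) * (F (insert x (S.erase y)) - F ((S.erase y).erase x)) := by ring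
      rw [e]
      refine le_trans (abs_add_le _ _) ?_
      rw [abs_mul, abs_mul, abs_of_nonneg h0, abs_of_nonneg (by linarith : (0:ℝ) ≤ 1 - q)]
      nlinarith
    have key : (kv k y (insert x S) * (q * F (insert y (insert x S)) + (1 - q) * F ((insert x S).erase y)
        - F (insert x S))
      - kv k y (S.erase x) * (q * F (insert y (S.erase x)) + (1 - q) * F ((S.erase x).erase y)
        - F (S.erase x)))
      + kv k y (insert x S) * (F (insert x S) - F (S.erase x)) =
      kv k y (insert x S) * ((q * F (insert y (insert x S)) + (1 - q) * F ((insert x S).erase y)) -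
        (q * F (insert y (S.erase x)) + (1 - q) * F ((S.erase x).erase y))) +
      (kv k y (insert x S) - kv k y (S.erase x)) *
        (q * F (insert y (S.erase x)) + (1 - q) * F ((S.erase x).erase y) - F (S.erase x)) := by ring
    rw [key]
    refine le_trans (abs_add_le _ _) ?_
    apply add_le_add
    · rw [abs_mul, abs_of_nonneg hk0]
      exact mul_le_mul_of_nonneg_left hd hk0
    · by_cases hkk : k y (insert x S) = k y (S.erase x)
      · have : kv k y (insert x S) = kv k y (S.erase x) := by
          unfold kv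
          rw [hkk]
        rw [this, sub_self, zero_mul, abs_zero]
        exact hext
      · have hbd := hk.bd y hy x hx S hkk
        have hab1 := (Finset.mem_Icc.1 hx)
        have hab2 := (Finset.mem_Icc.1 hy)
        have hps : y = pr a b x ∨ y = sc a b x := by
          unfold pr sc
          rcases hbd with h | ⟨h, h'⟩ | ⟨h, h'⟩
          · rcases (abs_eq (by norm_num : (0:ℤ) ≤ 1)).1 h with h | h
            · right
              have : x ≠ b := by omega
              rw [if_neg this]; omega
            · left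
              have : x ≠ a := by omega
              rw [if_neg this]; omega
          · right
            rw [if_pos h', h]
          · left
            rw [if_pos h', h]
        have hww : |w x - w y| ≤ 1 := by
          rcases hbd with h | ⟨h, h'⟩ | ⟨h, h'⟩
          · apply hw x hx y hy
            rw [abs_sub_comm]; exact h
          · rw [h, h', abs_sub_comm]; exact hw2
          · rw [h, h']; exact hw2
        have hexp : Real.exp (-(w y)) ≤ Real.exp 1 * Real.exp (-(w x)) := by
          rw [← Real.exp_add]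
          apply Real.exp_le_exp.2
          have := (abs_le.1 hww).2
          linarith
        have hA : |q * F (insert y (S.erase x)) + (1 - q) * F ((S.erase x).erase y) - F (S.erase x)| ≤
            M * (Real.exp 1 * Real.exp (-(w x))) := by
          refine le_trans (aux_pi_le h0 h1 y F (S.erase x)) ?_
          refine le_trans (hM y hy (S.erase x)) ?_
          exact mul_le_mul_of_nonneg_left hexp hM0
        have hB : |kv k y (insert x S) - kv k y (S.erase x)| ≤ 1 := by
          have a1 := kv_nonneg k y (S.erase x)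
          have a2 := kv_le k y (S.erase x)
          have a3 := kv_le k y (insert x S)
          rw [abs_le]
          constructor <;> linarith
        rw [abs_mul]
        have hAB : |kv k y (insert x S) - kv k y (S.erase x)| *
            |q * F (insert y (S.erase x)) + (1 - q) * F ((S.erase x).erase y) - F (S.erase x)| ≤
            1 * (M * (Real.exp 1 * Real.exp (-(w x)))) :=
          mul_le_mul hB hA (abs_nonneg _) zero_le_one
        rw [one_mul] at hAB
        refine le_trans hAB ?_
        rcases hps with h | h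
        · rw [if_pos h]
          have : (0:ℝ) ≤ (if y = sc a b x then M * (Real.exp 1 * Real.exp (-(w x))) else 0) := by
            split_ifs <;> linarith
          linarith
        · rw [if_pos h]
          have : (0:ℝ) ≤ (if y = pr a b x then M * (Real.exp 1 * Real.exp (-(w x))) else 0) := by
            split_ifs <;> linarith
          linarith

theorem aux_step (h0 : 0 ≤ q) (h1 : q ≤ 1) (a b : ℤ) (k : ℤ → Finset ℤ → Bool) (hk : Adm0 a b k)
    (w : ℤ → ℝ) (hw : ∀ x ∈ Icc a b, ∀ y ∈ Icc a b, |x - y| = 1 → |w x - w y| ≤ 1)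
    (hw2 : |w a - w b| ≤ 1) (F : Finset ℤ → ℝ) (M : ℝ) (hM0 : 0 ≤ M)
    (hM : ∀ x ∈ Icc a b, ∀ S, |F (insert x S) - F (S.erase x)| ≤ M * Real.exp (-(w x)))
    (x : ℤ) (hx : x ∈ Icc a b) (S : Finset ℤ) :
    |(kG q h0 h1 (Icc a b) k).K F (insert x S) - (kG q h0 h1 (Icc a b) k).K F (S.erase x)| ≤
      (M * (1 + 2 * Real.exp 1 / (kG q h0 h1 (Icc a b) k).N)) * Real.exp (-(w x)) := by
  have hN0 : 0 < (kG q h0 h1 (Icc a b) k).N := (kG q h0 h1 (Icc a b) k).hN
  have hNc : (kG q h0 h1 (Icc a b) k).N = ((Icc a b).card : ℝ) + 1 := rfl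
  set N := (kG q h0 h1 (Icc a b) k).N with hNdef
  unfold MG.K
  rw [kG_L, kG_L]
  rw [← hNdef]
  have hkA : (∑ y ∈ Icc a b, kv k y (insert x S)) ≤ N := by
    rw [hNc]
    calc (∑ y ∈ Icc a b, kv k y (insert x S)) ≤ ∑ y ∈ Icc a b, (1:ℝ) :=
          Finset.sum_le_sum (fun y _ => kv_le k y _)
      _ ≤ _ := by simp
  have hkA0 : 0 ≤ (∑ y ∈ Icc a b, kv k y (insert x S)) := Finset.sum_nonneg (fun y _ => kv_nonneg k y _)
  have hsum : |(genK q (Icc a b) k F (insert x S) - genK q (Icc a b) k F (S.erase x)) +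
      (∑ y ∈ Icc a b, kv k y (insert x S)) * (F (insert x S) - F (S.erase x))| ≤
      (∑ y ∈ Icc a b, kv k y (insert x S)) * (M * Real.exp (-(w x))) +
        2 * (M * (Real.exp 1 * Real.exp (-(w x)))) := by
    unfold genK
    rw [← Finset.sum_sub_distrib, Finset.sum_mul, ← Finset.sum_add_distrib]
    refine le_trans (Finset.abs_sum_le_sum_abs _ _) ?_
    refine le_trans (Finset.sum_le_sum (fun y hy =>
      aux_term h0 h1 a b k hk w hw hw2 F M hM0 hM x hx S y hy)) ?_
    rw [Finset.sum_add_distrib, Finset.sum_add_distrib, ← Finset.sum_mul]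
    have hC : 0 ≤ M * (Real.exp 1 * Real.exp (-(w x))) := by positivity
    have s1 : ∀ z : ℤ, (∑ y ∈ Icc a b, (if y = z then M * (Real.exp 1 * Real.exp (-(w x))) else 0)) ≤
        M * (Real.exp 1 * Real.exp (-(w x))) := by
      intro z
      rw [Finset.sum_ite_eq']
      split_ifs <;> linarith
    have s2 := s1 (pr a b x)
    have s3 := s1 (sc a b x)
    linarith
  have hD := hM x hx S
  set A := (∑ y ∈ Icc a b, kv k y (insert x S)) with hA
  set T := genK q (Icc a b) k F (insert x S) - genK q (Icc a b) k F (S.erase x) with hT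
  set D := F (insert x S) - F (S.erase x) with hDd
  set m := M * Real.exp (-(w x)) with hm
  have e1 : F (insert x S) + genK q (Icc a b) k F (insert x S) / N -
      (F (S.erase x) + genK q (Icc a b) k F (S.erase x) / N) = (1 - A / N) * D + (T + A * D) / N := by
    rw [hT, hDd]
    field_simp
    ring
  rw [e1]
  have h2 : 0 ≤ 1 - A / N := by
    have : A / N ≤ 1 := by rw [div_le_one hN0]; exact hkA
    linarith
  calc |(1 - A / N) * D + (T + A * D) / N| ≤ |(1 - A / N) * D| + |(T + A * D) / N| := abs_add_le _ _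
    _ = (1 - A / N) * |D| + |T + A * D| / N := by
        rw [abs_mul, abs_of_nonneg h2, abs_div, abs_of_pos hN0]
    _ ≤ (1 - A / N) * m + (A * m + 2 * (M * (Real.exp 1 * Real.exp (-(w x))))) / N := by
        apply add_le_add
        · exact mul_le_mul_of_nonneg_left hD h2
        · exact div_le_div_of_nonneg_right hsum hN0.le
    _ = (M * (1 + 2 * Real.exp 1 / N)) * Real.exp (-(w x)) := by
        rw [hm]
        field_simp
        ring

theorem aux_iter (h0 : 0 ≤ q) (h1 : q ≤ 1) (a b : ℤ) (k : ℤ → Finset ℤ → Bool) (hk : Adm0 a b k)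
    (w : ℤ → ℝ) (hw : ∀ x ∈ Icc a b, ∀ y ∈ Icc a b, |x - y| = 1 → |w x - w y| ≤ 1)
    (hw2 : |w a - w b| ≤ 1) (F : Finset ℤ → ℝ) (M : ℝ) (hM0 : 0 ≤ M)
    (hM : ∀ x ∈ Icc a b, ∀ S, |F (insert x S) - F (S.erase x)| ≤ M * Real.exp (-(w x)))
    (n : ℕ) : ∀ x ∈ Icc a b, ∀ S : Finset ℤ,
    |((kG q h0 h1 (Icc a b) k).K^[n] F) (insert x S) - ((kG q h0 h1 (Icc a b) k).K^[n] F) (S.erase x)| ≤
      (M * (1 + 2 * Real.exp 1 / (kG q h0 h1 (Icc a b) k).N) ^ n) * Real.exp (-(w x)) := by
  have hN0 : 0 < (kG q h0 h1 (Icc a b) k).N := (kG q h0 h1 (Icc a b) k).hN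
  have hρ : 0 ≤ 1 + 2 * Real.exp 1 / (kG q h0 h1 (Icc a b) k).N := by positivity
  induction n with
  | zero =>
    intro x hx S
    simpa using hM x hx S
  | succ n ih =>
    intro x hx S
    rw [Function.iterate_succ_apply']
    have := aux_step h0 h1 a b k hk w hw hw2 ((kG q h0 h1 (Icc a b) k).K^[n] F) _
      (mul_nonneg hM0 (pow_nonneg hρ n)) ih x hx S
    rw [pow_succ, ← mul_assoc]
    exact this

/-- the semigroup preserves functions of `S ∩ Icc a b` -/
theorem P_loc (h0 : 0 ≤ q) (h1 : q ≤ 1) (a b : ℤ) (k : ℤ → Finset ℤ → Bool) (hk : Adm0 a b k)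
    (F : Finset ℤ → ℝ) (hF : ∀ S, F S = F (S ∩ Icc a b)) (t : ℝ) (S : Finset ℤ) :
    (kG q h0 h1 (Icc a b) k).P t F S = (kG q h0 h1 (Icc a b) k).P t F (S ∩ Icc a b) := by
  have hit : ∀ n : ℕ, ∀ S : Finset ℤ, ((kG q h0 h1 (Icc a b) k).L^[n] F) S =
      ((kG q h0 h1 (Icc a b) k).L^[n] F) (S ∩ Icc a b) := by
    intro n
    induction n with
    | zero => intro S; exact hF S
    | succ n ih =>
      intro S
      rw [Function.iterate_succ_apply']
      exact aux_loc_step a b k hk h0 h1 _ ih S
  unfold MG.P semi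
  apply tsum_congr
  intro n
  rw [hit n S]

/-- propagation of oscillations -/
theorem osc_bound (h0 : 0 ≤ q) (h1 : q ≤ 1) (a b : ℤ) (k : ℤ → Finset ℤ → Bool) (hk : Adm0 a b k)
    (w : ℤ → ℝ) (hw : ∀ x ∈ Icc a b, ∀ y ∈ Icc a b, |x - y| = 1 → |w x - w y| ≤ 1)
    (hw2 : |w a - w b| ≤ 1) (F : Finset ℤ → ℝ) (hFb : Bd F) (M : ℝ) (hM0 : 0 ≤ M)
    (hM : ∀ x ∈ Icc a b, ∀ S, |F (insert x S) - F (S.erase x)| ≤ M * Real.exp (-(w x)))
    (t : ℝ) (ht : 0 ≤ t) (x : ℤ) (hx : x ∈ Icc a b) (S : Finset ℤ) :
    |(kG q h0 h1 (Icc a b) k).P t F (insert x S) - (kG q h0 h1 (Icc a b) k).P t F (S.erase x)| ≤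
      M * Real.exp (6 * t) * Real.exp (-(w x)) := by
  have hN0 : 0 < (kG q h0 h1 (Icc a b) k).N := (kG q h0 h1 (Icc a b) k).hN
  set G := kG q h0 h1 (Icc a b) k with hG
  have s1 := G.P_unif_summ F hFb t (insert x S)
  have s2 := G.P_unif_summ F hFb t (S.erase x)
  rw [G.P_unif F hFb t (insert x S), G.P_unif F hFb t (S.erase x), ← s1.tsum_sub s2]
  have hs : HasSum (fun n : ℕ => (M * Real.exp (-(w x)) * Real.exp (-(G.N * t))) *
      ((G.N * t * (1 + 2 * Real.exp 1 / G.N)) ^ n / (n.factorial : ℝ)))
      ((M * Real.exp (-(w x)) * Real.exp (-(G.N * t))) *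
        Real.exp (G.N * t * (1 + 2 * Real.exp 1 / G.N))) :=
    (aux_expsum _).mul_left _
  have hb : ∀ n : ℕ, ‖Real.exp (-(G.N * t)) * (G.N * t) ^ n / (n.factorial : ℝ) * (G.K^[n] F) (insert x S) -
      Real.exp (-(G.N * t)) * (G.N * t) ^ n / (n.factorial : ℝ) * (G.K^[n] F) (S.erase x)‖ ≤
      (M * Real.exp (-(w x)) * Real.exp (-(G.N * t))) *
      ((G.N * t * (1 + 2 * Real.exp 1 / G.N)) ^ n / (n.factorial : ℝ)) := by
    intro n
    have hi := aux_iter h0 h1 a b k hk w hw hw2 F M hM0 hM n x hx S
    rw [← hG] at hi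
    rw [← mul_sub, Real.norm_eq_abs, abs_mul]
    have hc : 0 ≤ Real.exp (-(G.N * t)) * (G.N * t) ^ n / (n.factorial : ℝ) := by
      have : 0 ≤ G.N * t := mul_nonneg hN0.le ht
      positivity
    rw [abs_of_nonneg hc]
    refine le_trans (mul_le_mul_of_nonneg_left hi hc) ?_
    apply le_of_eq
    rw [mul_pow (G.N * t)]
    ring
  have hle := tsum_of_norm_bounded hs hb
  rw [Real.norm_eq_abs] at hle
  refine le_trans hle ?_
  have he : G.N * t * (1 + 2 * Real.exp 1 / G.N) = G.N * t + 2 * Real.exp 1 * t := by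
    field_simp
  rw [he]
  have he2 : M * Real.exp (-(w x)) * Real.exp (-(G.N * t)) * Real.exp (G.N * t + 2 * Real.exp 1 * t) =
      M * Real.exp (2 * Real.exp 1 * t) * Real.exp (-(w x)) := by
    have : Real.exp (-(G.N * t)) * Real.exp (G.N * t + 2 * Real.exp 1 * t) = Real.exp (2 * Real.exp 1 * t) := by
      rw [← Real.exp_add]
      congr 1
      ring
    calc M * Real.exp (-(w x)) * Real.exp (-(G.N * t)) * Real.exp (G.N * t + 2 * Real.exp 1 * t) =
        M * Real.exp (-(w x)) * (Real.exp (-(G.N * t)) * Real.exp (G.N * t + 2 * Real.exp 1 * t)) := by ring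
      _ = _ := by rw [this]; ring
  rw [he2]
  have he3 : Real.exp (2 * Real.exp 1 * t) ≤ Real.exp (6 * t) := by
    apply Real.exp_le_exp.2
    have := Real.exp_one_lt_d9
    nlinarith
  apply mul_le_mul_of_nonneg_right _ (Real.exp_pos _).le
  exact mul_le_mul_of_nonneg_left he3 hM0

/-- comparison of two systems on nested intervals -/
theorem fs_compare (h0 : 0 ≤ q) (h1 : q ≤ 1) (a b a' b' : ℤ) (ha : a ≤ a') (hb : b' ≤ b)
    (k k' : ℤ → Finset ℤ → Bool) (hk : Adm0 a b k) (hk' : Adm0 a' b' k')
    (c d : ℤ) (n : ℕ) (hc : a' + n ≤ c) (hcd : c ≤ d) (hd : d + n ≤ b')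
    (F : Finset ℤ → ℝ) (hF : ∀ S, F S = F (S ∩ Icc c d)) (M : ℝ) (hM : ∀ S, |F S| ≤ M)
    (t : ℝ) (ht : 0 ≤ t) (S : Finset ℤ) :
    |(kG q h0 h1 (Icc a b) k).P t F S - (kG q h0 h1 (Icc a' b') k').P t F S| ≤
      4 * M * t * Real.exp (6 * t - n) := by
  have hM0 : 0 ≤ M := le_trans (abs_nonneg _) (hM ∅)
  have hFb : Bd F := ⟨M, hM⟩
  have hsub : Icc c d ⊆ Icc a' b' := by
    apply Finset.Icc_subset_Icc <;> omega
  have hsub2 : Icc a' b' ⊆ Icc a b := by
    apply Finset.Icc_subset_Icc <;> omega
  have hF' : ∀ S, F S = F (S ∩ Icc a' b') := by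
    intro S
    rw [hF S, hF (S ∩ Icc a' b'), Finset.inter_assoc, Finset.inter_eq_right.2 hsub]
  set w : ℤ → ℝ := fun x => ((min (max (max (c - x) (x - d)) 0) (n : ℤ) : ℤ) : ℝ) with hwdef
  have hwlip : ∀ x ∈ Icc a' b', ∀ y ∈ Icc a' b', |x - y| = 1 → |w x - w y| ≤ 1 := by
    intro x _ y _ hxy
    rw [hwdef]
    simp only
    rw [← Int.cast_sub, ← Int.cast_abs]
    have : |min (max (max (c - x) (x - d)) 0) (n : ℤ) - min (max (max (c - y) (y - d)) 0) (n : ℤ)| ≤ 1 := by
      rw [abs_le]
      rcases (abs_eq (by norm_num : (0:ℤ) ≤ 1)).1 hxy with h | h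
      · constructor <;> omega
      · constructor <;> omega
    exact_mod_cast this
  have hwa : w a' = n := by
    rw [hwdef]
    simp only
    have : min (max (max (c - a') (a' - d)) 0) (n : ℤ) = n := by omega
    rw [this]
    simp
  have hwb : w b' = n := by
    rw [hwdef]
    simp only
    have : min (max (max (c - b') (b' - d)) 0) (n : ℤ) = n := by omega
    rw [this]
    simp
  have hw2 : |w a' - w b'| ≤ 1 := by
    rw [hwa, hwb]
    simp
  have hosc : ∀ x ∈ Icc a' b', ∀ S, |F (insert x S) - F (S.erase x)| ≤ (2 * M) * Real.exp (-(w x)) := by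
    intro x _ S
    by_cases hxc : x ∈ Icc c d
    · have hx2 := Finset.mem_Icc.1 hxc
      have hw0 : w x = 0 := by
        rw [hwdef]
        simp only
        have : min (max (max (c - x) (x - d)) 0) (n : ℤ) = 0 := by omega
        rw [this]
        simp
      rw [hw0]
      simp only [neg_zero, Real.exp_zero, mul_one]
      have b1 := abs_le.1 (hM (insert x S))
      have b2 := abs_le.1 (hM (S.erase x))
      rw [abs_le]
      constructor <;> linarith [b1.1, b1.2, b2.1, b2.2]
    · have e1 : F (insert x S) = F (S.erase x) := by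
        rw [hF (insert x S), hF (S.erase x), Finset.insert_inter_of_notMem hxc, Finset.erase_inter,
          Finset.erase_eq_of_notMem]
        intro h
        exact hxc (Finset.mem_inter.1 h).2
      rw [e1, sub_self, abs_zero]
      positivity
  have hmain : ∀ s, 0 ≤ s → s ≤ t → ∀ S, |(kG q h0 h1 (Icc a b) k).L ((kG q h0 h1 (Icc a' b') k').P s F) S -
      (kG q h0 h1 (Icc a' b') k').L ((kG q h0 h1 (Icc a' b') k').P s F) S| ≤
      4 * M * Real.exp (6 * t - n) := by
    intro s hs0 hst S
    set H := (kG q h0 h1 (Icc a' b') k').P s F with hH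
    have hHloc : ∀ S, H S = H (S ∩ Icc a' b') := fun S => P_loc h0 h1 a' b' k' hk' F hF' s S
    have hHosc : ∀ x ∈ Icc a' b', ∀ S, |H (insert x S) - H (S.erase x)| ≤
        (2 * M) * Real.exp (6 * s) * Real.exp (-(w x)) := by
      intro x hx S
      exact osc_bound h0 h1 a' b' k' hk' w hwlip hw2 F hFb (2 * M) (by linarith) hosc s hs0 x hx S
    rw [kG_L, kG_L]
    unfold genK
    have e1 : (∑ x ∈ Icc a b, kv k x S * (q * H (insert x S) + (1 - q) * H (S.erase x) - H S)) =
        ∑ x ∈ Icc a' b', kv k x S * (q * H (insert x S) + (1 - q) * H (S.erase x) - H S) := by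
      symm
      apply Finset.sum_subset hsub2
      intro x _ hx
      have i1 : H (insert x S) = H S := by
        rw [hHloc (insert x S), Finset.insert_inter_of_notMem hx, ← hHloc]
      have i2 : H (S.erase x) = H S := by
        rw [hHloc (S.erase x), Finset.erase_inter, Finset.erase_eq_of_notMem, ← hHloc]
        intro h
        exact hx (Finset.mem_inter.1 h).2
      rw [i1, i2]
      ring
    rw [e1, ← Finset.sum_sub_distrib]
    refine le_trans (Finset.abs_sum_le_sum_abs _ _) ?_
    have hterm : ∀ x ∈ Icc a' b', |kv k x S * (q * H (insert x S) + (1 - q) * H (S.erase x) - H S) -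
        kv k' x S * (q * H (insert x S) + (1 - q) * H (S.erase x) - H S)| ≤
        (if x = a' then 2 * M * Real.exp (6 * t - n) else 0) +
        (if x = b' then 2 * M * Real.exp (6 * t - n) else 0) := by
      intro x hx
      have hx2 := Finset.mem_Icc.1 hx
      have hC : 0 ≤ 2 * M * Real.exp (6 * t - n) := by positivity
      by_cases hin : a' < x ∧ x < b'
      · have j1 := hk'.inn x hin.1 hin.2 S
        have j2 := hk.inn x (by omega) (by omega) S
        have j3 : cst (Icc a b) x S = cst (Icc a' b') x S := by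
          unfold cst
          have k1 : x - 1 ∈ Icc a b := Finset.mem_Icc.2 (by omega)
          have k2 : x + 1 ∈ Icc a b := Finset.mem_Icc.2 (by omega)
          have k3 : x - 1 ∈ Icc a' b' := Finset.mem_Icc.2 (by omega)
          have k4 : x + 1 ∈ Icc a' b' := Finset.mem_Icc.2 (by omega)
          simp only [k1, k2, k3, k4, true_and]
        rw [j1, j2, j3, sub_self, abs_zero]
        split_ifs <;> linarith
      · rw [← sub_mul, abs_mul]
        have hB : |kv k x S - kv k' x S| ≤ 1 := by
          have a1 := kv_nonneg k x S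
          have a2 := kv_le k x S
          have a3 := kv_nonneg k' x S
          have a4 := kv_le k' x S
          rw [abs_le]
          constructor <;> linarith
        have hxw : w x = n := by
          have : x = a' ∨ x = b' := by omega
          rcases this with h | h
          · rw [h]; exact hwa
          · rw [h]; exact hwb
        have hA : |q * H (insert x S) + (1 - q) * H (S.erase x) - H S| ≤ 2 * M * Real.exp (6 * t - n) := by
          refine le_trans (aux_pi_le h0 h1 x H S) ?_
          refine le_trans (hHosc x hx S) ?_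
          rw [hxw, mul_assoc, ← Real.exp_add]
          apply mul_le_mul_of_nonneg_left _ (by linarith)
          apply Real.exp_le_exp.2
          linarith
        have hAB := mul_le_mul hB hA (abs_nonneg _) zero_le_one
        rw [one_mul] at hAB
        refine le_trans hAB ?_
        have : x = a' ∨ x = b' := by omega
        rcases this with h | h
        · rw [if_pos h]
          have : (0:ℝ) ≤ (if x = b' then 2 * M * Real.exp (6 * t - n) else 0) := by
            split_ifs <;> linarith
          linarith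
        · rw [if_pos h]
          have : (0:ℝ) ≤ (if x = a' then 2 * M * Real.exp (6 * t - n) else 0) := by
            split_ifs <;> linarith
          linarith
    refine le_trans (Finset.sum_le_sum hterm) ?_
    rw [Finset.sum_add_distrib, Finset.sum_ite_eq', Finset.sum_ite_eq']
    have hC : 0 ≤ 2 * M * Real.exp (6 * t - n) := by positivity
    split_ifs <;> linarith
  have hfin := MG.duhamel1 (kG q h0 h1 (Icc a b) k) (kG q h0 h1 (Icc a' b') k') F hFb t
    (4 * M * Real.exp (6 * t - n)) ht hmain S
  refine le_trans hfin ?_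
  apply le_of_eq
  ring

end FA

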