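import Mathlib
import Pool.Agent.Helper769.FAG.D60668
import Pool.Agent.Helper769.FAG.G1
import Pool.Agent.Helper769.FAG.S1
import Pool.Agent.Helper769.FAG.S2
import Pool.Agent.Helper769.FAG.S3
import Pool.Agent.Helper769.FAG.S4
import Pool.Agent.Helper769.FAG.Dce33a
import Pool.Agent.Helper769.FAG.S10
import Pool.Agent.Helper769.FAG.D49892
import Pool.Agent.Helper769.FAG.LB
import Pool.Agent.Helper769.FAG.G6
import Pool.Agent.Helper769.FAG.S6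
import Pool.Agent.Helper769.FAG.R1
import Pool.Agent.Helper769.FAG.D3
import Pool.Agent.Helper769.FAG.OSC
import Pool.Agent.Helper769.FAG.D5e21f
import Pool.Agent.Helper769.FAG.CQ3

set_option autoImplicit false
set_option linter.unusedSectionVars false

open Finset

noncomputable section

-- ---- TARGET (prove everything below; everything above is GIVEN, sorrys above are proved elsewhere)
-- USES: G1 S1 S2 S3 S4 D2 S10 D4 LB G6 S6 R1 D3 OSC D5 CQ3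
namespace FA
variable {q : ℝ}

theorem fin1_Bd_loc (V : Finset ℤ → ℝ) (A : Finset ℤ) (h : ∀ S, V S = V (S ∩ A)) : Bd V := by
  refine ⟨∑ U ∈ A.powerset, |V U|, fun S => ?_⟩
  rw [h S]
  exact Finset.single_le_sum (f := fun U => |V U|) (fun U _ => abs_nonneg _)
    (Finset.mem_powerset.2 Finset.inter_subset_right)

theorem fin1_Bd_add {X : Type} (F H : X → ℝ) (hF : Bd F) (hH : Bd H) :
    Bd (fun x => F x + H x) := by
  obtain ⟨M, hM⟩ := hF
  obtain ⟨M', hM'⟩ := hH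
  exact ⟨M + M', fun x => (abs_add_le _ _).trans (add_le_add (hM x) (hM' x))⟩

theorem fin1_Bd_smul {X : Type} (c : ℝ) (F : X → ℝ) (hF : Bd F) : Bd (fun x => c * F x) := by
  obtain ⟨M, hM⟩ := hF
  refine ⟨|c| * M, fun x => ?_⟩
  rw [abs_mul]
  exact mul_le_mul_of_nonneg_left (hM x) (abs_nonneg _)

theorem fin1_Bd_const {X : Type} (c : ℝ) : Bd (fun _ : X => c) := ⟨|c|, fun _ => le_rfl⟩

theorem fin1_Bd_sum {X ι : Type} (I : Finset ι) (V : ι → X → ℝ) (hV : ∀ i, Bd (V i)) :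
    Bd (fun x => ∑ i ∈ I, V i x) := by
  classical
  induction I using Finset.induction_on with
  | empty =>
    simp only [Finset.sum_empty]
    exact fin1_Bd_const 0
  | insert a s ha ih =>
    simp only [Finset.sum_insert ha]
    exact fin1_Bd_add _ _ (hV a) ih

theorem fin1_P_sum {X ι : Type} (G : MG X) (I : Finset ι) (V : ι → X → ℝ) (hV : ∀ i, Bd (V i))
    (t : ℝ) (x : X) : G.P t (fun x => ∑ i ∈ I, V i x) x = ∑ i ∈ I, G.P t (V i) x := by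
  classical
  induction I using Finset.induction_on with
  | empty =>
    simp only [Finset.sum_empty]
    exact G.P_const 0 t x
  | insert a s ha ih =>
    simp only [Finset.sum_insert ha]
    rw [G.P_add _ _ (hV a) (fin1_Bd_sum s V hV), ih]

/-- domination by a bounded function on a closed class -/
theorem fin1_dom {X : Type} (G : MG X) (D : Set X)
    (hD : ∀ i ∈ G.I, ∀ x ∈ D, G.r i x ≠ 0 → G.T i x ∈ D) (H W : X → ℝ) (hH : Bd H) (hW : Bd W)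
    (h : ∀ x ∈ D, |H x| ≤ W x) (t : ℝ) (ht : 0 ≤ t) (x : X) (hx : x ∈ D) :
    |G.P t H x| ≤ G.P t W x := by
  rw [abs_le]
  constructor
  · have h1 := G.P_mono_on D hD (fun y => (-1) * W y) H (fin1_Bd_smul _ _ hW) hH
      (fun y hy => by
        have := (abs_le.1 (h y hy)).1
        linarith) t ht x hx
    rw [G.P_smul _ _ hW] at h1
    linarith
  · exact G.P_mono_on D hD H W hH hW (fun y hy => (abs_le.1 (h y hy)).2) t ht x hx

theorem fin1_EN_bound (h0 : 0 < q) (h1 : q < 1) (A : Finset ℤ) (hA : A.Nonempty)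
    (F : Finset ℤ → ℝ) (hF : ∀ T, |F T| ≤ 1) : |EN q A F| ≤ 1 := by
  have hZ := Zn_pos h0 h1 A hA
  unfold EN
  rw [abs_div, abs_of_pos hZ, div_le_one hZ, ← wt_sum_ne q A]
  refine (Finset.abs_sum_le_sum_abs _ _).trans (Finset.sum_le_sum fun U _ => ?_)
  rw [abs_mul, abs_of_pos (wt_pos h0 h1 A U)]
  calc wt q A U * |F U| ≤ wt q A U * 1 :=
        mul_le_mul_of_nonneg_left (hF U) (wt_pos h0 h1 A U).le
    _ = wt q A U := mul_one _

theorem fin1_EA_bound (h0 : 0 < q) (h1 : q < 1) (A : Finset ℤ)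
    (F : Finset ℤ → ℝ) (hF : ∀ T, |F T| ≤ 1) : |EA q A F| ≤ 1 := by
  unfold EA
  rw [← wt_sum q A]
  refine (Finset.abs_sum_le_sum_abs _ _).trans (Finset.sum_le_sum fun U _ => ?_)
  rw [abs_mul, abs_of_pos (wt_pos h0 h1 A U)]
  calc wt q A U * |F U| ≤ wt q A U * 1 :=
        mul_le_mul_of_nonneg_left (hF U) (wt_pos h0 h1 A U).le
    _ = wt q A U := mul_one _

theorem fin1_EA_loc (A I : Finset ℤ) (hIA : I ⊆ A) (F : Finset ℤ → ℝ)
    (hF : ∀ T, F T = F (T ∩ I)) : EA q A F = EA q I F := by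
  have h1 : ∀ T, av q I F T = EA q I F := by
    intro T
    unfold av EA
    apply Finset.sum_congr rfl
    intro U hU
    rw [Finset.mem_powerset] at hU
    congr 1
    rw [hF ((T \ I) ∪ U), hF U]
    congr 1
    ext x
    simp only [Finset.mem_inter, Finset.mem_union, Finset.mem_sdiff]
    tauto
  have h2 : av q ((A \ I) ∪ I) F ∅ = EA q I F := by
    rw [← av_av q (Finset.sdiff_disjoint) F ∅]
    have h3 : av q I F = fun _ => EA q I F := funext h1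
    rw [h3, av_const]
  rw [EA_eq_av, ← h2, Finset.sdiff_union_of_subset hIA]

theorem fin1_EN_EA (h0 : 0 < q) (h1 : q < 1) (A I : Finset ℤ) (hIA : I ⊆ A) (hA : A.Nonempty)
    (F : Finset ℤ → ℝ) (hF : ∀ T, F T = F (T ∩ I)) (hF1 : ∀ T, |F T| ≤ 1) :
    |EN q A F - EA q I F| ≤ 2 * (1 - q) ^ A.card / q := by
  have hZ := Zn_pos h0 h1 A hA
  have hq1 : 0 < 1 - q := by linarith
  have hw0 : 0 < (1 - q) ^ A.card := pow_pos hq1 _
  have hZq : q ≤ Zn q A := by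
    unfold Zn
    have h2 : (1 - q) ^ A.card ≤ (1 - q) ^ 1 :=
      pow_le_pow_of_le_one hq1.le (by linarith) (Finset.card_pos.2 hA)
    linarith
  have h2 : ∑ U ∈ A.powerset.filter (fun U => U.Nonempty), wt q A U * F U =
      EA q A F - (1 - q) ^ A.card * F ∅ := by
    unfold EA
    rw [← Finset.sum_filter_add_sum_filter_not A.powerset (fun U => U.Nonempty)]
    have h3 : A.powerset.filter (fun U => ¬ U.Nonempty) = {∅} := by
      ext U
      simp only [Finset.mem_filter, Finset.mem_powerset, Finset.not_nonempty_iff_eq_empty,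
        Finset.mem_singleton]
      constructor
      · exact fun h => h.2
      · intro h; subst h; exact ⟨Finset.empty_subset _, rfl⟩
    rw [h3, Finset.sum_singleton]
    have h4 : wt q A ∅ = (1 - q) ^ A.card := by simp [wt]
    rw [h4]
    ring
  have h5 : EN q A F - EA q I F = (1 - q) ^ A.card * (EA q I F - F ∅) / Zn q A := by
    unfold EN
    rw [h2, fin1_EA_loc A I hIA F hF, div_sub' hZ.ne']
    congr 1
    unfold Zn
    ring
  rw [h5, abs_div, abs_of_pos hZ, abs_mul, abs_of_pos hw0]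
  have h6 : |EA q I F - F ∅| ≤ 2 := by
    refine (abs_sub _ _).trans ?_
    have := fin1_EA_bound h0 h1 I F hF1
    have := hF1 ∅
    linarith
  calc (1 - q) ^ A.card * |EA q I F - F ∅| / Zn q A ≤ (1 - q) ^ A.card * 2 / q := by
        apply div_le_div₀ (by positivity) _ h0 hZq
        exact mul_le_mul_of_nonneg_left h6 hw0.le
    _ = 2 * (1 - q) ^ A.card / q := by ring

/-- the class of nonempty configurations in the interval is closed -/
theorem fin1_class (h0 : 0 < q) (h1 : q < 1) (a b : ℤ) (k : ℤ → Finset ℤ → Bool)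
    (hk : Adm a b k) : ∀ i ∈ (kG q h0.le h1.le (Icc a b) k).I,
      ∀ T ∈ {T : Finset ℤ | T ⊆ Icc a b ∧ T.Nonempty},
      (kG q h0.le h1.le (Icc a b) k).r i T ≠ 0 →
      (kG q h0.le h1.le (Icc a b) k).T i T ∈ {T : Finset ℤ | T ⊆ Icc a b ∧ T.Nonempty} := by
  rintro ⟨y, β⟩ hi T ⟨hT, hTn⟩ hr
  have hy : y ∈ Icc a b := (Finset.mem_product.1 hi).1
  have hkv : kv k y T ≠ 0 := by
    intro h
    apply hr
    show kv k y T * _ = 0
    rw [h, zero_mul]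
  have hkt : k y T = true := by
    by_contra h
    apply hkv
    unfold kv
    rw [if_neg h]
  obtain ⟨y', hy', hne, hy'T⟩ := hk.ne y hy T hkt
  show (if β then insert y T else T.erase y) ∈ {T : Finset ℤ | T ⊆ Icc a b ∧ T.Nonempty}
  split_ifs
  · exact ⟨Finset.insert_subset hy hT, Finset.insert_nonempty _ _⟩
  · exact ⟨(Finset.erase_subset _ _).trans hT, y', Finset.mem_erase.2 ⟨hne, hy'T⟩⟩

/-- the Lyapunov function attached to a possible gap -/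
theorem fin1_V (h0 : 0 < q) (h1 : q < 1) (s : Sys) (θ c C : ℝ) (hθ : 0 < θ) (hC : 1 ≤ C)
    (N0 : ℤ) (hp : PersS s q h0 h1 θ c C N0) (m ℓ R : ℕ) (hℓm : ℓ ≤ m) (hmR : m ≤ R)
    (hN0 : N0 ≤ 2 * R) (s0 κt : ℝ) (hs0 : 0 ≤ s0) (hdecay : θ * (m + κt) ≤ c * s0)
    (S : Finset ℤ) (hS : S ⊆ Icc (-(R : ℤ)) R) (x0 : ℤ) (hx0 : x0 ∈ S) (hx0κ : (|x0| : ℝ) ≤ κt)
    (z : ℤ) (hz : z ∈ Icc (-(m : ℤ)) (m - 1)) :
    ∃ V : Finset ℤ → ℝ, Bd V ∧ (∀ T, 0 ≤ V T) ∧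
      (∀ T, T ⊆ Icc (-(R : ℤ)) R → T.Nonempty →
        (¬ ∃ x ∈ T ∩ Icc (-(m : ℤ)) (m - 1), 8 * |z - x| ≤ ℓ) →
          Real.exp (θ * ((ℓ / 32 : ℕ) : ℝ)) ≤ C * V T) ∧
      (kG q h0.le h1.le (Icc (-(R : ℤ)) R) (s.k (-(R : ℤ)) R)).P s0 V S ≤ C * C + C := by
  rw [Finset.mem_Icc] at hz
  obtain ⟨ρ, hρ⟩ : ∃ ρ : ℕ, ρ = ℓ / 32 := ⟨_, rfl⟩
  have hρ1 : 32 * ρ ≤ ℓ := by rw [hρ]; exact Nat.mul_div_le ℓ 32
  obtain ⟨z', hz'⟩ : ∃ z' : ℤ, z' = if z < 0 then z + ρ else z - ρ := ⟨_, rfl⟩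
  have hz'1 : -(m : ℤ) ≤ z' - ρ ∧ z' + ρ ≤ m - 1 ∧ |z - z'| ≤ ρ := by
    rw [hz']
    split_ifs with h
    · refine ⟨by omega, by omega, ?_⟩
      rw [show z - (z + (ρ : ℤ)) = -(ρ : ℤ) by ring, abs_neg, abs_of_nonneg (by omega)]
    · refine ⟨by omega, by omega, ?_⟩
      rw [show z - (z - (ρ : ℤ)) = (ρ : ℤ) by ring, abs_of_nonneg (by omega)]
  obtain ⟨hz1, hz2, hz3⟩ := hz'1
  have hz'R : z' ∈ Icc (-(R : ℤ)) R := by
    rw [Finset.mem_Icc]
    constructor <;> omega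
  obtain ⟨V, hV1, hV2, hV3⟩ := hp (-(R : ℤ)) R (by linarith) z' hz'R
  refine ⟨V, fin1_Bd_loc V _ hV1, hV2, ?_, ?_⟩
  · intro T hT hTn hno
    obtain ⟨_, ⟨x, hx, hxV⟩, _⟩ := hV3 T hT hTn
    refine le_trans ?_ hxV
    apply Real.exp_le_exp.2
    apply mul_le_mul_of_nonneg_left _ hθ.le
    have hfar : (ρ : ℤ) ≤ |z' - x| := by
      by_contra hcon
      push Not at hcon
      apply hno
      have h2 := abs_lt.1 hcon
      refine ⟨x, Finset.mem_inter.2 ⟨hx, ?_⟩, ?_⟩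
      · rw [Finset.mem_Icc]
        constructor <;> omega
      · have h3 : |z - x| ≤ |z - z'| + |z' - x| := abs_sub_le _ _ _
        omega
    have hD := s.D2 (-(R : ℤ)) R z' x ρ hz'R (hT hx) (by omega) (by omega) hfar
    rw [← hρ]
    exact_mod_cast hD
  · obtain ⟨h4, _, h5⟩ := hV3 S hS ⟨x0, hx0⟩
    refine (h5 s0 hs0).trans ?_
    have h6 := h4 x0 hx0
    have h7 : ((s.D (-(R : ℤ)) R z' x0 : ℕ) : ℝ) ≤ m + κt := by
      have h8 := s.D1 (-(R : ℤ)) R z' x0 hz'R (hS hx0)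
      have h9 : ((s.D (-(R : ℤ)) R z' x0 : ℕ) : ℝ) ≤ ((|z' - x0| : ℤ) : ℝ) := by exact_mod_cast h8
      have h10 : |z' - x0| ≤ |z'| + |x0| := abs_sub _ _
      have h11 : |z'| ≤ (m : ℤ) := by
        rw [abs_le]
        constructor <;> omega
      have h12 : ((|z' - x0| : ℤ) : ℝ) ≤ (m : ℝ) + ((|x0| : ℤ) : ℝ) := by
        have : |z' - x0| ≤ (m : ℤ) + |x0| := by linarith
        exact_mod_cast this
      have h13 : ((|x0| : ℤ) : ℝ) ≤ κt := by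
        rw [Int.cast_abs]
        exact hx0κ
      linarith
    have h14 : V S ≤ C * Real.exp (c * s0) := by
      refine h6.trans ?_
      apply mul_le_mul_of_nonneg_left _ (by linarith)
      apply Real.exp_le_exp.2
      exact (mul_le_mul_of_nonneg_left h7 hθ.le).trans hdecay
    have h15 : C * Real.exp (-(c * s0)) * V S ≤ C * Real.exp (-(c * s0)) * (C * Real.exp (c * s0)) :=
      mul_le_mul_of_nonneg_left h14 (mul_nonneg (by linarith) (Real.exp_nonneg _))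
    have h16 : C * Real.exp (-(c * s0)) * (C * Real.exp (c * s0)) = C * C := by
      have : Real.exp (-(c * s0)) * Real.exp (c * s0) = 1 := by
        rw [← Real.exp_add, neg_add_cancel, Real.exp_zero]
      calc C * Real.exp (-(c * s0)) * (C * Real.exp (c * s0))
          = C * C * (Real.exp (-(c * s0)) * Real.exp (c * s0)) := by ring
        _ = C * C := by rw [this, mul_one]
    linarith

/-- the main estimate at a given scale -/
theorem fin1_core (h0 : 0 < q) (h1 : q < 1) (s : Sys) (θ c C : ℝ) (hθ : 0 < θ) (hC : 1 ≤ C)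
    (N0 : ℤ) (hp : PersS s q h0 h1 θ c C N0) (d : ℕ) (hd : 0 < d) (ℓ : ℕ) (ε : ℝ) (hε : 0 ≤ ε)
    (o : ℤ) (ho : o = -((16 * d * ℓ : ℕ) : ℤ))
    (hconv : ∀ S, S ⊆ Bx o ℓ (32 * d) → (∀ z ∈ Bx o ℓ (32 * d), ∃ x ∈ S, 8 * |z - x| ≤ ℓ) →
      ∀ F : Finset ℤ → ℝ, (∀ T, |F T| ≤ 1) →
        |(kG q h0.le h1.le (Bx o ℓ (32 * d)) (s.k o (o + (32 * d : ℕ) * ℓ - 1))).P (d * ℓ) F S -
          EN q (Bx o ℓ (32 * d)) F| ≤ ε)
    (r R : ℕ) (hrℓ : r + 1 ≤ ℓ) (hmR : 16 * d * ℓ ≤ R) (hN0 : N0 ≤ 2 * R) (t κt : ℝ)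
    (ht : (d * ℓ : ℝ) ≤ t)
    (hdecay : θ * (((16 * d * ℓ : ℕ) : ℝ) + κt) ≤ c * (t - d * ℓ))
    (S : Finset ℤ) (hS : S ⊆ Icc (-(R : ℤ)) R) (x0 : ℤ) (hx0 : x0 ∈ S) (hx0κ : (|x0| : ℝ) ≤ κt)
    (F : Finset ℤ → ℝ) (hF : ∀ T, F T = F (T ∩ Icc (-(r : ℤ)) r)) (hF1 : ∀ T, |F T| ≤ 1) :
    |(kG q h0.le h1.le (Icc (-(R : ℤ)) R) (s.k (-(R : ℤ)) R)).P t F S -
        EA q (Icc (-(r : ℤ)) r) F| ≤
      4 * 1 * (d * ℓ) * Real.exp (6 * (d * ℓ) - ((16 * d * ℓ - 1 - r : ℕ) : ℝ)) + ε +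
      2 * Real.exp (-(θ * ((ℓ / 32 : ℕ) : ℝ))) * C *
        ((32 * d * ℓ : ℕ) * (C * C + C)) + 2 * (1 - q) ^ (32 * d * ℓ) / q := by
  classical
  obtain ⟨m, hm⟩ : ∃ m : ℕ, m = 16 * d * ℓ := ⟨_, rfl⟩
  have hℓm : ℓ ≤ m := by
    rw [hm]
    have : 1 * ℓ ≤ 16 * d * ℓ := Nat.mul_le_mul_right ℓ (by omega)
    omega
  have hℓ0 : 1 ≤ ℓ := by omega
  have hb' : o + (32 * d : ℕ) * (ℓ : ℤ) - 1 = (m : ℤ) - 1 := by
    rw [ho, hm]
    push_cast
    ring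
  have ho' : o = -(m : ℤ) := by rw [ho, hm]
  have hBx : Bx o ℓ (32 * d) = Icc (-(m : ℤ)) (m - 1) := by
    unfold Bx
    rw [hb', ho']
  rw [hBx, hb', ho'] at hconv
  rw [← hm] at hmR hdecay
  have hcard : (Icc (-(m : ℤ)) (m - 1)).card = 32 * d * ℓ := by
    rw [Int.card_Icc, hm]
    push_cast
    have : (16 * (d : ℤ) * ℓ - 1 + 1 - -(16 * (d : ℤ) * ℓ)) = ((32 * d * ℓ : ℕ) : ℤ) := by
      push_cast
      ring
    rw [this]
    exact Int.toNat_natCast _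
  have hΛne : (Icc (-(m : ℤ)) (m - 1)).Nonempty := by
    rw [Finset.nonempty_Icc]
    omega
  have hI2 : Icc (-(r : ℤ)) r ⊆ Icc (-(m : ℤ)) (m - 1) := by
    apply Finset.Icc_subset_Icc <;> omega
  have h21 : Icc (-(m : ℤ)) (m - 1) ⊆ Icc (-(R : ℤ)) R := by
    apply Finset.Icc_subset_Icc <;> omega
  set G1 := kG q h0.le h1.le (Icc (-(R : ℤ)) R) (s.k (-(R : ℤ)) R) with hG1
  set G2 := kG q h0.le h1.le (Icc (-(m : ℤ)) (m - 1)) (s.k (-(m : ℤ)) (m - 1)) with hG2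
  set T2 : ℝ := d * ℓ with hT2
  have hT20 : 0 ≤ T2 := by positivity
  have hs0 : 0 ≤ t - T2 := by linarith
  have hadm1 : Adm (-(R : ℤ)) R (s.k (-(R : ℤ)) R) := s.adm _ _ (by omega)
  have hadm2 : Adm (-(m : ℤ)) (m - 1) (s.k (-(m : ℤ)) (m - 1)) := by
    apply s.adm
    have : 16 * 1 ≤ m := by
      rw [hm]
      calc 16 * 1 ≤ 16 * d * 1 := by omega
        _ ≤ 16 * d * ℓ := Nat.mul_le_mul_left _ hℓ0
    omega
  have hFb : Bd F := ⟨1, hF1⟩
  have hF2 : ∀ T, F T = F (T ∩ Icc (-(m : ℤ)) (m - 1)) := by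
    intro T
    rw [hF T, hF (T ∩ Icc (-(m : ℤ)) (m - 1)), Finset.inter_assoc,
      Finset.inter_eq_right.2 hI2]
  -- the error of the comparison
  set ε1 : ℝ := 4 * 1 * T2 * Real.exp (6 * T2 - ((16 * d * ℓ - 1 - r : ℕ) : ℝ)) with hε1
  have hε10 : 0 ≤ ε1 := by positivity
  have hcmp : ∀ T, |G1.P T2 F T - G2.P T2 F T| ≤ ε1 := by
    intro T
    have hfs := fs_compare h0.le h1.le (-(R : ℤ)) R (-(m : ℤ)) (m - 1) (by omega) (by omega)
      (s.k (-(R : ℤ)) R) (s.k (-(m : ℤ)) (m - 1))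
      hadm1.toAdm0 hadm2.toAdm0 (-(r : ℤ)) r (m - 1 - r) (by omega) (by omega) (by omega) F hF 1
      hF1 T2 hT20 T
    rw [hε1, ← hm]
    exact hfs
  -- the Lyapunov functions
  have hVex : ∀ z : ℤ, ∃ V : Finset ℤ → ℝ, Bd V ∧ (∀ T, 0 ≤ V T) ∧
      (z ∈ Icc (-(m : ℤ)) (m - 1) →
      (∀ T, T ⊆ Icc (-(R : ℤ)) R → T.Nonempty →
        (¬ ∃ x ∈ T ∩ Icc (-(m : ℤ)) (m - 1), 8 * |z - x| ≤ ℓ) →
          Real.exp (θ * ((ℓ / 32 : ℕ) : ℝ)) ≤ C * V T) ∧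
      G1.P (t - T2) V S ≤ C * C + C) := by
    intro z
    by_cases hz : z ∈ Icc (-(m : ℤ)) (m - 1)
    · obtain ⟨V, a1, a2, a3, a4⟩ := fin1_V h0 h1 s θ c C hθ hC N0 hp m ℓ R hℓm hmR hN0 (t - T2) κt
        hs0 hdecay S hS x0 hx0 hx0κ z hz
      exact ⟨V, a1, a2, fun _ => ⟨a3, a4⟩⟩
    · exact ⟨fun _ => 0, fin1_Bd_const 0, fun _ => le_rfl, fun h => absurd h hz⟩
  choose V hVb hV0 hV using hVex
  set e : ℝ := EN q (Icc (-(m : ℤ)) (m - 1)) F with he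
  set D : Set (Finset ℤ) := {T : Finset ℤ | T ⊆ Icc (-(R : ℤ)) R ∧ T.Nonempty} with hD
  have hDc := fin1_class h0 h1 (-(R : ℤ)) R _ hadm1
  set κ' : ℝ := 2 * Real.exp (-(θ * ((ℓ / 32 : ℕ) : ℝ))) * C with hκ'
  have hκ'0 : 0 ≤ κ' := by positivity
  set Vs : Finset ℤ → ℝ := fun T => ∑ z ∈ Icc (-(m : ℤ)) (m - 1), V z T with hVs
  have hVsb : Bd Vs := fin1_Bd_sum _ V hVb
  have hVs0 : ∀ T, 0 ≤ Vs T := fun T => Finset.sum_nonneg fun z _ => hV0 z T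
  have hPb : Bd (G1.P T2 F) := G1.P_bd F hFb T2
  have hHb : Bd (fun T => G1.P T2 F T + (-e)) := fin1_Bd_add _ _ hPb (fin1_Bd_const _)
  have hWb : Bd (fun T => (ε1 + ε) + κ' * Vs T) :=
    fin1_Bd_add _ _ (fin1_Bd_const _) (fin1_Bd_smul _ _ hVsb)
  have hdom : ∀ T ∈ D, |G1.P T2 F T + (-e)| ≤ (ε1 + ε) + κ' * Vs T := by
    rintro T ⟨hT, hTn⟩
    by_cases hgap : ∀ z ∈ Icc (-(m : ℤ)) (m - 1),
        ∃ x ∈ T ∩ Icc (-(m : ℤ)) (m - 1), 8 * |z - x| ≤ ℓ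
    · have b1 := hconv (T ∩ Icc (-(m : ℤ)) (m - 1)) Finset.inter_subset_right hgap F hF1
      have b2 := P_loc h0.le h1.le (-(m : ℤ)) (m - 1) _ hadm2.toAdm0 F hF2 T2 T
      have b3 := hcmp T
      rw [← hG2] at b2
      rw [← b2] at b1
      have b4 : |G1.P T2 F T + (-e)| ≤ |G1.P T2 F T - G2.P T2 F T| + |G2.P T2 F T - e| := by
        have : G1.P T2 F T + (-e) = (G1.P T2 F T - G2.P T2 F T) + (G2.P T2 F T - e) := by ring
        rw [this]
        exact abs_add_le _ _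
      have b5 : 0 ≤ κ' * Vs T := mul_nonneg hκ'0 (hVs0 T)
      linarith
    · push Not at hgap
      obtain ⟨z, hz, hno⟩ := hgap
      have b1 := (hV z hz).1 T hT hTn (by
        rintro ⟨x, hx, hx2⟩
        exact absurd hx2 (not_le.2 (hno x hx)))
      have b2 : V z T ≤ Vs T := Finset.single_le_sum (f := fun z => V z T)
        (fun z _ => hV0 z T) hz
      have b3 : |G1.P T2 F T + (-e)| ≤ 2 := by
        refine (abs_add_le _ _).trans ?_
        rw [abs_neg]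
        have := G1.P_bound F 1 hF1 T2 hT20 T
        have := fin1_EN_bound h0 h1 _ hΛne F hF1
        linarith
      have b4 : 2 ≤ κ' * Vs T := by
        have b5 : 2 * Real.exp (-(θ * ((ℓ / 32 : ℕ) : ℝ))) * Real.exp (θ * ((ℓ / 32 : ℕ) : ℝ)) ≤
            2 * Real.exp (-(θ * ((ℓ / 32 : ℕ) : ℝ))) * (C * V z T) :=
          mul_le_mul_of_nonneg_left b1 (by positivity)
        rw [mul_assoc, ← Real.exp_add, neg_add_cancel, Real.exp_zero, mul_one] at b5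
        have b6 : κ' * V z T ≤ κ' * Vs T := mul_le_mul_of_nonneg_left b2 hκ'0
        have b7 : 2 * Real.exp (-(θ * ((ℓ / 32 : ℕ) : ℝ))) * (C * V z T) = κ' * V z T := by
          rw [hκ']; ring
        linarith
      linarith
  have hmain := fin1_dom G1 D hDc (fun T => G1.P T2 F T + (-e)) (fun T => (ε1 + ε) + κ' * Vs T)
    hHb hWb hdom (t - T2) hs0 S ⟨hS, x0, hx0⟩
  have e1 : G1.P (t - T2) (fun T => G1.P T2 F T + (-e)) S = G1.P t F S - e := by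
    rw [G1.P_add _ _ hPb (fin1_Bd_const _), G1.P_const, ← G1.P_semigroup F hFb, sub_add_cancel]
    ring
  have e2 : G1.P (t - T2) (fun T => (ε1 + ε) + κ' * Vs T) S =
      (ε1 + ε) + κ' * ∑ z ∈ Icc (-(m : ℤ)) (m - 1), G1.P (t - T2) (V z) S := by
    rw [G1.P_add _ _ (fin1_Bd_const _) (fin1_Bd_smul _ _ hVsb), G1.P_const,
      G1.P_smul _ _ hVsb, fin1_P_sum G1 _ V hVb]
  rw [e1, e2] at hmain
  have e3 : ∑ z ∈ Icc (-(m : ℤ)) (m - 1), G1.P (t - T2) (V z) S ≤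
      (32 * d * ℓ : ℕ) * (C * C + C) := by
    calc ∑ z ∈ Icc (-(m : ℤ)) (m - 1), G1.P (t - T2) (V z) S
        ≤ ∑ z ∈ Icc (-(m : ℤ)) (m - 1), (C * C + C) := Finset.sum_le_sum fun z hz => (hV z hz).2
      _ = (32 * d * ℓ : ℕ) * (C * C + C) := by
        rw [Finset.sum_const, hcard, nsmul_eq_mul]
  have e4 := fin1_EN_EA h0 h1 _ _ hI2 hΛne F hF hF1
  rw [hcard] at e4
  have e5 : κ' * ∑ z ∈ Icc (-(m : ℤ)) (m - 1), G1.P (t - T2) (V z) S ≤
      κ' * ((32 * d * ℓ : ℕ) * (C * C + C)) := mul_le_mul_of_nonneg_left e3 hκ'0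
  have e6 : |G1.P t F S - EA q (Icc (-(r : ℤ)) r) F| ≤
      |G1.P t F S - e| + |e - EA q (Icc (-(r : ℤ)) r) F| := abs_sub_le _ _ _
  linarith

theorem fin1_asym (h0 : 0 < q) (h1 : q < 1) (θ c' C' C : ℝ) (hθ : 0 < θ) (hC : 1 ≤ C)
    (hc' : 0 < c') (hC' : 0 < C') (d : ℕ) (hd : 0 < d) (r : ℕ) :
    ∃ K α : ℝ, 0 < K ∧ 0 < α ∧ ∀ ℓ : ℕ, r + 1 ≤ ℓ →
      4 * 1 * (d * ℓ) * Real.exp (6 * (d * ℓ) - ((16 * d * ℓ - 1 - r : ℕ) : ℝ)) +
      C' * Real.exp (-(c' * ℓ)) +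
      2 * Real.exp (-(θ * ((ℓ / 32 : ℕ) : ℝ))) * C *
        ((32 * d * ℓ : ℕ) * (C * C + C)) + 2 * (1 - q) ^ (32 * d * ℓ) / q ≤
      K * Real.exp (-(α * ℓ)) := by
  have hq1 : 0 < 1 - q := by linarith
  have hlog : Real.log (1 - q) < 0 := Real.log_neg hq1 (by linarith)
  have hd1 : (1 : ℝ) ≤ d := by exact_mod_cast hd
  set α : ℝ := min (min 1 c') (min (θ / 64) (-Real.log (1 - q))) with hα
  have hα1 : α ≤ 1 := (min_le_left _ _).trans (min_le_left _ _)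
  have hα2 : α ≤ c' := (min_le_left _ _).trans (min_le_right _ _)
  have hα3 : α ≤ θ / 64 := (min_le_right _ _).trans (min_le_left _ _)
  have hα4 : α ≤ -Real.log (1 - q) := (min_le_right _ _).trans (min_le_right _ _)
  have hα0 : 0 < α := lt_min (lt_min one_pos hc') (lt_min (by linarith) (by linarith))
  set K1 : ℝ := 4 * Real.exp (1 + r) with hK1
  set K3 : ℝ := 2 * C * (C * C + C) * (32 * d) * (64 / θ) * Real.exp θ with hK3
  have hCC : 0 < C * C + C := by positivity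
  have hK10 : 0 < K1 := by positivity
  have hK30 : 0 < K3 := by positivity
  have hK40 : 0 < 2 / q := by positivity
  refine ⟨K1 + C' + K3 + 2 / q, α, by linarith, hα0, ?_⟩
  intro ℓ hℓ
  have hℓ0 : (1 : ℝ) ≤ ℓ := by
    have : 1 ≤ ℓ := by omega
    exact_mod_cast this
  have hx : (0 : ℝ) ≤ ℓ := by linarith
  set X : ℝ := Real.exp (-(α * ℓ)) with hX
  have hX0 : 0 < X := Real.exp_pos _
  -- first term
  have t1 : 4 * 1 * (d * ℓ) * Real.exp (6 * (d * ℓ) - ((16 * d * ℓ - 1 - r : ℕ) : ℝ)) ≤ K1 * X := by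
    have hcast : ((16 * d * ℓ - 1 - r : ℕ) : ℝ) = 16 * d * ℓ - 1 - r := by
      have h2 : 1 * ℓ ≤ 16 * d * ℓ := Nat.mul_le_mul_right ℓ (by omega)
      rw [Nat.cast_sub (by omega), Nat.cast_sub (by omega)]
      push_cast
      ring
    rw [hcast]
    have hdℓ : (d : ℝ) * ℓ ≤ Real.exp (d * ℓ) := by
      have := Real.add_one_le_exp ((d : ℝ) * ℓ)
      linarith
    have h3 : 4 * 1 * (d * ℓ) * Real.exp (6 * (d * ℓ) - (16 * d * ℓ - 1 - r)) ≤
        4 * 1 * Real.exp (d * ℓ) * Real.exp (6 * (d * ℓ) - (16 * d * ℓ - 1 - r)) := by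
      gcongr
    refine h3.trans ?_
    rw [hK1, hX, mul_assoc (4 * 1), ← Real.exp_add, mul_assoc 4 (Real.exp _), ← Real.exp_add, mul_one]
    apply mul_le_mul_of_nonneg_left _ (by norm_num)
    apply Real.exp_le_exp.2
    have h4 : α * ℓ ≤ 1 * ℓ := mul_le_mul_of_nonneg_right hα1 hx
    have h5 : 1 * (ℓ : ℝ) ≤ d * ℓ := mul_le_mul_of_nonneg_right hd1 hx
    nlinarith
  have t2 : C' * Real.exp (-(c' * ℓ)) ≤ C' * X := by
    apply mul_le_mul_of_nonneg_left _ hC'.le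
    apply Real.exp_le_exp.2
    have := mul_le_mul_of_nonneg_right hα2 hx
    linarith
  have t3 : 2 * Real.exp (-(θ * ((ℓ / 32 : ℕ) : ℝ))) * C *
        ((32 * d * ℓ : ℕ) * (C * C + C)) ≤ K3 * X := by
    have hρ : (ℓ : ℝ) / 32 - 1 ≤ ((ℓ / 32 : ℕ) : ℝ) := by
      have h2 : ℓ < 32 * (ℓ / 32) + 32 := by omega
      have h3 : (ℓ : ℝ) < 32 * ((ℓ / 32 : ℕ) : ℝ) + 32 := by exact_mod_cast h2
      linarith
    have h4 : Real.exp (-(θ * ((ℓ / 32 : ℕ) : ℝ))) ≤ Real.exp (θ - θ * ℓ / 32) := by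
      apply Real.exp_le_exp.2
      have := mul_le_mul_of_nonneg_left hρ hθ.le
      nlinarith
    have h5 : (ℓ : ℝ) ≤ 64 / θ * Real.exp (θ * ℓ / 64) := by
      have h6 := Real.add_one_le_exp (θ * ℓ / 64)
      have h7 : (ℓ : ℝ) = 64 / θ * (θ * ℓ / 64) := by field_simp
      calc (ℓ : ℝ) = 64 / θ * (θ * ℓ / 64) := h7
        _ ≤ 64 / θ * Real.exp (θ * ℓ / 64) := by
          apply mul_le_mul_of_nonneg_left _ (by positivity)
          linarith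
    have h8 : (((32 * d * ℓ : ℕ)) : ℝ) ≤ 32 * d * (64 / θ * Real.exp (θ * ℓ / 64)) := by
      push_cast
      exact mul_le_mul_of_nonneg_left h5 (by positivity)
    have h9 : 2 * Real.exp (-(θ * ((ℓ / 32 : ℕ) : ℝ))) * C * ((32 * d * ℓ : ℕ) * (C * C + C)) ≤
        2 * Real.exp (θ - θ * ℓ / 32) * C *
          ((32 * d * (64 / θ * Real.exp (θ * ℓ / 64))) * (C * C + C)) := by
      gcongr
    refine h9.trans ?_
    have h10 : 2 * Real.exp (θ - θ * ℓ / 32) * C *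
          ((32 * d * (64 / θ * Real.exp (θ * ℓ / 64))) * (C * C + C)) =
        K3 * Real.exp (-(θ / 64 * ℓ)) := by
      have h11 : Real.exp (θ - θ * ℓ / 32) * Real.exp (θ * ℓ / 64) =
          Real.exp θ * Real.exp (-(θ / 64 * ℓ)) := by
        rw [← Real.exp_add, ← Real.exp_add]
        congr 1
        ring
      calc 2 * Real.exp (θ - θ * ℓ / 32) * C *
          ((32 * d * (64 / θ * Real.exp (θ * ℓ / 64))) * (C * C + C))
          = 2 * C * (C * C + C) * (32 * d) * (64 / θ) *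
            (Real.exp (θ - θ * ℓ / 32) * Real.exp (θ * ℓ / 64)) := by ring
        _ = K3 * Real.exp (-(θ / 64 * ℓ)) := by
          rw [h11, hK3]
          ring
    rw [h10]
    apply mul_le_mul_of_nonneg_left _ hK30.le
    apply Real.exp_le_exp.2
    have := mul_le_mul_of_nonneg_right hα3 hx
    linarith
  have t4 : 2 * (1 - q) ^ (32 * d * ℓ) / q ≤ 2 / q * X := by
    have h2 : (1 - q) ^ (32 * d * ℓ) ≤ (1 - q) ^ ℓ := by
      apply pow_le_pow_of_le_one hq1.le (by linarith)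
      have : 1 * ℓ ≤ 32 * d * ℓ := Nat.mul_le_mul_right ℓ (by omega)
      omega
    have h3 : (1 - q) ^ ℓ = Real.exp (ℓ * Real.log (1 - q)) := by
      rw [Real.exp_nat_mul, Real.exp_log hq1]
    have h4 : Real.exp (ℓ * Real.log (1 - q)) ≤ X := by
      apply Real.exp_le_exp.2
      have := mul_le_mul_of_nonneg_right hα4 hx
      linarith
    calc 2 * (1 - q) ^ (32 * d * ℓ) / q = 2 / q * (1 - q) ^ (32 * d * ℓ) := by ring
      _ ≤ 2 / q * X := mul_le_mul_of_nonneg_left (h2.trans (h3.le.trans h4)) hK40.le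
  have : (K1 + C' + K3 + 2 / q) * X = K1 * X + C' * X + K3 * X + 2 / q * X := by ring
  rw [this]
  linarith


/-- exponential convergence of local functions on a large finite interval -/
theorem fin1 (h0 : 0 < q) (h1 : q < 1) (s : Sys) (θ c C : ℝ) (hθ : 0 < θ) (hc : 0 < c) (hC : 1 ≤ C)
    (N0 : ℤ) (hp : PersS s q h0 h1 θ c C N0) (r : ℕ) :
    ∃ κ c3 C3 t0 : ℝ, 0 < κ ∧ 0 < c3 ∧ 0 < C3 ∧ ∀ t : ℝ, t0 ≤ t → ∀ R : ℕ, 16 * t ≤ R → (R : ℝ) ≤ 16 * t + 1 →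
      ∀ S, S ⊆ Icc (-(R : ℤ)) R → (∃ x ∈ S, (|x| : ℝ) ≤ κ * t) →
      ∀ F : Finset ℤ → ℝ, (∀ T, F T = F (T ∩ Icc (-(r : ℤ)) r)) → (∀ T, |F T| ≤ 1) →
        |(kG q h0.le h1.le (Icc (-(R : ℤ)) R) (s.k (-(R : ℤ)) R)).P t F S - EA q (Icc (-(r : ℤ)) r) F| ≤
          C3 * Real.exp (-(c3 * t)) := by
  obtain ⟨d, c', C', ℓ0, hd, hc', hC', hconv⟩ := conv_pt h0 h1 s θ c C hθ hc hC N0 hp
  obtain ⟨K, α, hK, hα, hasym⟩ := fin1_asym h0 h1 θ c' C' C hθ hC hc' hC' d hd r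
  have hd1 : (1 : ℝ) ≤ d := by exact_mod_cast hd
  have hd0 : (0 : ℝ) < d := by linarith
  set τ : ℝ := min (1 / (2 * d)) (c / (64 * d * θ)) with hτ
  have hτ0 : 0 < τ := lt_min (by positivity) (by positivity)
  have hτ1 : d * τ ≤ 1 / 2 := by
    have h2 : τ ≤ 1 / (2 * d) := min_le_left _ _
    calc (d : ℝ) * τ ≤ d * (1 / (2 * d)) := mul_le_mul_of_nonneg_left h2 hd0.le
      _ = 1 / 2 := by field_simp
  have hτ2 : 16 * θ * d * τ ≤ c / 4 := by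
    have h2 : τ ≤ c / (64 * d * θ) := min_le_right _ _
    calc 16 * θ * d * τ ≤ 16 * θ * d * (c / (64 * d * θ)) :=
          mul_le_mul_of_nonneg_left h2 (by positivity)
      _ = c / 4 := by
        field_simp
        norm_num
  refine ⟨c / (4 * θ), α * τ, K * Real.exp α,
    max (((max ℓ0 (r + 1) : ℕ) + 1 : ℝ) / τ) |(N0 : ℝ)|, by positivity, by positivity,
    by positivity, ?_⟩
  intro t ht R hR1 hR2 S hS hx F hF hF1
  obtain ⟨x0, hx0, hx0κ⟩ := hx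
  have ht1 : ((max ℓ0 (r + 1) : ℕ) + 1 : ℝ) / τ ≤ t := (le_max_left _ _).trans ht
  have ht2 : |(N0 : ℝ)| ≤ t := (le_max_right _ _).trans ht
  have ht0 : 0 ≤ t := (abs_nonneg _).trans ht2
  rw [div_le_iff₀ hτ0] at ht1
  set ℓ : ℕ := ⌊τ * t⌋₊ with hℓ
  have hℓ1 : (ℓ : ℝ) ≤ τ * t := Nat.floor_le (by positivity)
  have hℓ2 : τ * t < ℓ + 1 := Nat.lt_floor_add_one _
  have hℓ3 : max ℓ0 (r + 1) ≤ ℓ := by
    apply Nat.le_floor
    linarith
  have hℓ4 : ℓ0 ≤ ℓ := (le_max_left _ _).trans hℓ3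
  have hℓ5 : r + 1 ≤ ℓ := (le_max_right _ _).trans hℓ3
  have hdℓ : (d : ℝ) * ℓ ≤ t / 2 := by
    calc (d : ℝ) * ℓ ≤ d * (τ * t) := mul_le_mul_of_nonneg_left hℓ1 hd0.le
      _ = d * τ * t := by ring
      _ ≤ 1 / 2 * t := mul_le_mul_of_nonneg_right hτ1 ht0
      _ = t / 2 := by ring
  have hmR : 16 * d * ℓ ≤ R := by
    have h2 : ((16 * d * ℓ : ℕ) : ℝ) ≤ R := by
      push_cast
      linarith
    exact_mod_cast h2
  have hN0R : N0 ≤ 2 * (R : ℤ) := by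
    have h2 : (N0 : ℝ) ≤ 2 * R := by
      have := le_abs_self (N0 : ℝ)
      linarith
    exact_mod_cast h2
  have hdecay : θ * (((16 * d * ℓ : ℕ) : ℝ) + c / (4 * θ) * t) ≤ c * (t - d * ℓ) := by
    push_cast
    have h2 : θ * (16 * d * ℓ + c / (4 * θ) * t) = 16 * θ * d * ℓ + c / 4 * t := by
      field_simp
    have h3 : 16 * θ * d * ℓ ≤ c / 4 * t := by
      calc 16 * θ * d * ℓ ≤ 16 * θ * d * (τ * t) := mul_le_mul_of_nonneg_left hℓ1 (by positivity)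
        _ = 16 * θ * d * τ * t := by ring
        _ ≤ c / 4 * t := mul_le_mul_of_nonneg_right hτ2 ht0
    have h4 : c * (t / 2) ≤ c * (t - d * ℓ) := mul_le_mul_of_nonneg_left (by linarith) hc.le
    rw [h2]
    linarith
  have hmain := fin1_core h0 h1 s θ c C hθ hC N0 hp d hd ℓ (C' * Real.exp (-(c' * ℓ)))
    (by positivity) (-((16 * d * ℓ : ℕ) : ℤ)) rfl (hconv ℓ hℓ4 _) r R hℓ5 hmR hN0R t
    (c / (4 * θ) * t) (by linarith) hdecay S hS x0 hx0 hx0κ F hF hF1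
  refine hmain.trans ((hasym ℓ hℓ5).trans ?_)
  rw [mul_assoc, ← Real.exp_add]
  apply mul_le_mul_of_nonneg_left _ hK.le
  apply Real.exp_le_exp.2
  have h5 : α * (τ * t) ≤ α * (ℓ + 1) := mul_le_mul_of_nonneg_left hℓ2.le hα.le
  linarith

end FA

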