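import Mathlib
import Pool.Agent.Helper769.FAG.D60668
import Pool.Agent.Helper769.FAG.G1
import Pool.Agent.Helper769.FAG.S1
import Pool.Agent.Helper769.FAG.S2
import Pool.Agent.Helper769.FAG.S3
import Pool.Agent.Helper769.FAG.S4
import Pool.Agent.Helper769.FAG.Dce33a
import Pool.Agent.Helper769.FAG.OSC
import Pool.Agent.Helper769.FAG.D9bd8b
import Pool.Agent.Helper769.FAG.INF1

set_option autoImplicit false
set_option linter.unusedSectionVars false

open Finset

noncomputable section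

-- ---- TARGET (prove everything below; everything above is GIVEN, sorrys above are proved elsewhere)
-- USES: G1 S1 S2 S3 S4 D2 OSC D6 INF1
namespace FA
namespace Inf
variable {q : ℝ}


theorem eq_toF_14998 (r : ℕ) (f : Cfg → ℝ) (hf : Loc r f) (η : Cfg) :
    f η = toF r f (SI (-(r : ℤ)) r η) := by
  unfold toF
  apply hf
  intro x h1 h2
  have hx : x ∈ Finset.Icc (-(r : ℤ)) r := Finset.mem_Icc.2 ⟨h1, h2⟩
  simp only [hx, if_true, SI, Finset.mem_filter, true_and]
  cases η x <;> simp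

theorem Loc_bd_14998 (r : ℕ) (f : Cfg → ℝ) (hf : Loc r f) : ∃ M : ℝ, ∀ η, |f η| ≤ M := by
  refine ⟨∑ U ∈ (Finset.Icc (-(r : ℤ)) r).powerset, |toF r f U|, fun η => ?_⟩
  rw [eq_toF_14998 r f hf η]
  exact Finset.single_le_sum (f := fun U => |toF r f U|) (fun _ _ => abs_nonneg _)
    (Finset.mem_powerset.2 (Finset.filter_subset _ _))

theorem box_close_14998 (h0 : 0 ≤ q) (h1 : q ≤ 1) (r : ℕ) (f : Cfg → ℝ) (hf : Loc r f) (M : ℝ)
    (hM : ∀ η, |f η| ≤ M) (t : ℝ) (ht : 0 ≤ t) (n n' : ℕ) (hn : r + 1 ≤ n) (hnn : n ≤ n')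
    (η : Cfg) :
    |Pbox q n' t f η - Pbox q n t f η| ≤ 4 * M * t * Real.exp (6 * t - (n - r : ℕ)) := by
  have h := Pbox_compare h0 h1 r f hf M hM n' (-(n : ℤ)) n (n - r) (by omega) (by omega)
    (by push_cast [Nat.cast_sub (show r ≤ n by omega)]; omega)
    (by push_cast [Nat.cast_sub (show r ≤ n by omega)]; omega)
    (kfr (-(n : ℤ)) n η) (adm0_fr _ _ (by omega) η) t ht η
  have e : (kG q h0 h1 (Finset.Icc (-(n : ℤ)) n) (kfr (-(n : ℤ)) n η)).P t (toF r f)
      (SI (-(n : ℤ)) n η) = Pbox q n t f η := by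
    rw [Pbox_eq h0 h1 n t f η]
    congr 1
    funext S
    exact (toF_mix r f hf n (by omega) η S).symm
  rwa [e] at h

theorem err_tendsto_14998 (M t : ℝ) (r : ℕ) :
    Filter.Tendsto (fun n : ℕ => 4 * M * t * Real.exp (6 * t - (n - r : ℕ))) Filter.atTop
      (nhds 0) := by
  have h1 : Filter.Tendsto (fun n : ℕ => Real.exp (-((n - r : ℕ) : ℝ))) Filter.atTop (nhds 0) :=
    Real.tendsto_exp_neg_atTop_nhds_zero.comp
      (tendsto_natCast_atTop_atTop.comp (Filter.tendsto_sub_atTop_nat r))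
  have h2 := h1.const_mul (4 * M * t * Real.exp (6 * t))
  rw [mul_zero] at h2
  refine h2.congr fun n => ?_
  rw [sub_eq_add_neg, Real.exp_add]
  ring

theorem Pinf_tendsto_14998 (h0 : 0 ≤ q) (h1 : q ≤ 1) (r : ℕ) (f : Cfg → ℝ) (hf : Loc r f)
    (t : ℝ) (ht : 0 ≤ t) (η : Cfg) :
    Filter.Tendsto (fun n : ℕ => Pbox q n t f η) Filter.atTop (nhds (Pinf q t f η)) := by
  obtain ⟨M, hM⟩ := Loc_bd_14998 r f hf
  have hc : CauchySeq (fun n : ℕ => Pbox q n t f η) := by
    rw [Metric.cauchySeq_iff']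
    intro ε hε
    obtain ⟨N, hN⟩ := Filter.eventually_atTop.1
      ((err_tendsto_14998 M t r).eventually (gt_mem_nhds hε))
    refine ⟨max N (r + 1), fun n hn => ?_⟩
    rw [Real.dist_eq]
    exact lt_of_le_of_lt (box_close_14998 h0 h1 r f hf M hM t ht (max N (r + 1)) n
      (le_max_right _ _) hn η) (hN _ (le_max_left _ _))
  exact hc.tendsto_limUnder

theorem Pinf_close_14998 (h0 : 0 ≤ q) (h1 : q ≤ 1) (r : ℕ) (f : Cfg → ℝ) (hf : Loc r f) (M : ℝ)
    (hM : ∀ η, |f η| ≤ M) (t : ℝ) (ht : 0 ≤ t) (n : ℕ) (hn : r + 1 ≤ n) (η : Cfg) :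
    |Pinf q t f η - Pbox q n t f η| ≤ 4 * M * t * Real.exp (6 * t - (n - r : ℕ)) := by
  have h := ((Pinf_tendsto_14998 h0 h1 r f hf t ht η).sub_const (Pbox q n t f η)).abs
  refine le_of_tendsto h (Filter.eventually_atTop.2 ⟨n, fun n' hn' => ?_⟩)
  exact box_close_14998 h0 h1 r f hf M hM t ht n n' hn hn' η

/-- the infinite-volume limit exists, uniformly in the configuration -/
theorem Pinf_lim (h0 : 0 ≤ q) (h1 : q ≤ 1) (r : ℕ) (f : Cfg → ℝ) (hf : Loc r f) (t : ℝ) (ht : 0 ≤ t) :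
    TendstoUniformly (fun (n : ℕ) (η : Cfg) => Pbox q n t f η) (Pinf q t f) Filter.atTop := by
  obtain ⟨M, hM⟩ := Loc_bd_14998 r f hf
  rw [Metric.tendstoUniformly_iff]
  intro ε hε
  obtain ⟨N, hN⟩ := Filter.eventually_atTop.1
    ((err_tendsto_14998 M t r).eventually (gt_mem_nhds hε))
  refine Filter.eventually_atTop.2 ⟨max N (r + 1), fun n hn η => ?_⟩
  rw [Real.dist_eq]
  exact lt_of_le_of_lt (Pinf_close_14998 h0 h1 r f hf M hM t ht n
    ((le_max_right _ _).trans hn) η) (hN _ ((le_max_left _ _).trans hn))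

theorem Pinf_compare (h0 : 0 ≤ q) (h1 : q ≤ 1) (r : ℕ) (f : Cfg → ℝ) (hf : Loc r f) (M : ℝ)
    (hM : ∀ η, |f η| ≤ M) (a' b' : ℤ) (m : ℕ)
    (hma : a' + m ≤ -(r : ℤ)) (hmb : (r : ℤ) + m ≤ b') (k' : ℤ → Finset ℤ → Bool) (hk' : Adm0 a' b' k')
    (t : ℝ) (ht : 0 ≤ t) (η : Cfg) :
    |Pinf q t f η - (kG q h0 h1 (Finset.Icc a' b') k').P t (toF r f) (SI a' b' η)| ≤
      4 * M * t * Real.exp (6 * t - m) := by
  have h := ((Pinf_tendsto_14998 h0 h1 r f hf t ht η).sub_const
    ((kG q h0 h1 (Finset.Icc a' b') k').P t (toF r f) (SI a' b' η))).abs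
  refine le_of_tendsto h (Filter.eventually_atTop.2 ⟨max a'.natAbs b'.natAbs, fun n hn => ?_⟩)
  have h2 := (le_max_left _ _).trans hn
  have h3 := (le_max_right _ _).trans hn
  exact Pbox_compare h0 h1 r f hf M hM n a' b' m (by omega) (by omega) hma hmb k' hk' t ht η

theorem Loc_bd (r : ℕ) (f : Cfg → ℝ) (hf : Loc r f) : ∃ M : ℝ, ∀ η, |f η| ≤ M :=
  Loc_bd_14998 r f hf

theorem Loc_mono_14998 {r R : ℕ} (h : r ≤ R) {f : Cfg → ℝ} (hf : Loc r f) : Loc R f := by
  intro η η' hη
  exact hf η η' fun x h1 h2 => hη x (by omega) (by omega)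

theorem Loc_Lbox_14998 (n R : ℕ) (hR : n + 1 ≤ R) {f : Cfg → ℝ} (hf : Loc R f) :
    Loc R (Lbox q n f) := by
  intro η η' hη
  unfold Lbox
  apply Finset.sum_congr rfl
  intro x hx
  rw [Finset.mem_Icc] at hx
  have e1 : η (x - 1) = η' (x - 1) := hη _ (by omega) (by omega)
  have e2 : η (x + 1) = η' (x + 1) := hη _ (by omega) (by omega)
  have e3 : η x = η' x := hη _ (by omega) (by omega)
  have e4 : f (flip η x) = f (flip η' x) := by
    apply hf
    intro y hy1 hy2
    unfold flip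
    by_cases hyx : y = x
    · subst hyx
      rw [Function.update_self, Function.update_self, e3]
    · rw [Function.update_of_ne hyx, Function.update_of_ne hyx]
      exact hη y hy1 hy2
  have e5 : f η = f η' := hf _ _ hη
  unfold rate con
  rw [e1, e2, e3, e4, e5]

theorem Loc_Pbox_14998 (n R : ℕ) (hR : n + 1 ≤ R) {f : Cfg → ℝ} (hf : Loc R f) (t : ℝ) :
    Loc R (Pbox q n t f) := by
  have hit : ∀ m : ℕ, Loc R ((Lbox q n)^[m] f) := by
    intro m
    induction m with
    | zero => exact hf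
    | succ m ih =>
      rw [Function.iterate_succ_apply']
      exact Loc_Lbox_14998 n R hR ih
  intro η η' hη
  unfold Pbox
  congr 1
  funext m
  rw [hit m η η' hη]

/-- extension of a finite configuration -/
def ext_14998 (r : ℕ) (σ : (↥(Finset.Icc (-(r : ℤ)) r)) → Bool) : Cfg :=
  fun x => if h : x ∈ Finset.Icc (-(r : ℤ)) r then σ ⟨x, h⟩ else true

theorem restr_14998 (r : ℕ) {f : Cfg → ℝ} (hf : Loc r f) (η : Cfg) :
    f η = f (ext_14998 r ((Finset.Icc (-(r : ℤ)) r).restrict η)) := by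
  apply hf
  intro x h1 h2
  have hx : x ∈ Finset.Icc (-(r : ℤ)) r := Finset.mem_Icc.2 ⟨h1, h2⟩
  unfold ext_14998
  rw [dif_pos hx]
  rfl

theorem meas_14998 (r : ℕ) {f : Cfg → ℝ} (hf : Loc r f) : Measurable f := by
  have e : f = (fun σ => f (ext_14998 r σ)) ∘ (Finset.Icc (-(r : ℤ)) r).restrict := by
    funext η
    exact restr_14998 r hf η
  rw [e]
  exact (Measurable.of_discrete).comp (Finset.measurable_restrict _)

theorem Pinf_meas (h0 : 0 ≤ q) (h1 : q ≤ 1) (r : ℕ) (f : Cfg → ℝ) (hf : Loc r f) (t : ℝ) (ht : 0 ≤ t) :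
    Measurable (Pinf q t f) ∧ ∀ M : ℝ, (∀ η, |f η| ≤ M) → ∀ η, |Pinf q t f η| ≤ M := by
  constructor
  · apply measurable_of_tendsto_metrizable (f := fun (n : ℕ) => Pbox q n t f)
    · intro n
      exact meas_14998 (max r (n + 1)) (Loc_Pbox_14998 n (max r (n + 1)) (le_max_right _ _)
        (Loc_mono_14998 (le_max_left _ _) hf) t)
    · rw [tendsto_pi_nhds]
      intro η
      exact Pinf_tendsto_14998 h0 h1 r f hf t ht η
  · intro M hM η
    have h := (Pinf_tendsto_14998 h0 h1 r f hf t ht η).abs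
    refine le_of_tendsto h (Filter.Eventually.of_forall fun n => ?_)
    rw [Pbox_eq h0 h1 n t f η]
    exact MG.P_bound _ _ M (fun S => hM _) t ht _

/-- integral of a local function under the Bernoulli measure -/
theorem int_piq (h0 : 0 < q) (h1 : q < 1) (r : ℕ) (f : Cfg → ℝ) (hf : Loc r f) :
    ∫ η, f η ∂(piq q h0 h1) = EA q (Finset.Icc (-(r : ℤ)) r) (toF r f) := by
  classical
  set A := Finset.Icc (-(r : ℤ)) r with hA
  set β := ProbabilityTheory.bernoulliMeasure false true (⟨q, h0.le, h1.le⟩ : unitInterval) with hβ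
  have e1 : ∫ η, f η ∂(piq q h0 h1)
      = ∫ σ, f (ext_14998 r σ) ∂(MeasureTheory.Measure.pi (fun _ : ↥A => β)) := by
    have h2 : ∫ η, f η ∂(piq q h0 h1)
        = ∫ η, (fun σ => f (ext_14998 r σ)) (A.restrict η)
          ∂(MeasureTheory.Measure.infinitePi (fun _ : ℤ => β)) := by
      unfold piq
      congr 1
      funext η
      exact restr_14998 r hf η
    rw [h2]
    have hm : Measurable (fun σ : ↥A → Bool => f (ext_14998 r σ)) := Measurable.of_discrete
    exact MeasureTheory.integral_restrict_infinitePi (fun _ : ℤ => β)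
      hm.aestronglyMeasurable
  rw [e1, MeasureTheory.integral_fintype MeasureTheory.Integrable.of_finite]
  have hβf : β.real {false} = q := by
    rw [hβ, ProbabilityTheory.bernoulliMeasure_real_apply _ (MeasurableSet.singleton _)]
    simp
  have hβt : β.real {true} = 1 - q := by
    rw [hβ, ProbabilityTheory.bernoulliMeasure_real_apply _ (MeasurableSet.singleton _)]
    simp
  have hw : ∀ σ : ↥A → Bool, (MeasureTheory.Measure.pi (fun _ : ↥A => β)).real {σ}
      = ∏ x : ↥A, (if σ x = false then q else 1 - q) := by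
    intro σ
    rw [MeasureTheory.measureReal_def, MeasureTheory.Measure.pi_singleton, ENNReal.toReal_prod]
    apply Finset.prod_congr rfl
    intro x _
    change β.real {σ x} = _
    cases h : σ x
    · rw [hβf]; simp
    · rw [hβt]; simp
  simp only [hw, smul_eq_mul]
  unfold EA
  symm
  apply Finset.sum_nbij' (i := fun (U : Finset ℤ) => (fun (x : ↥A) => !(decide (x.1 ∈ U))))
    (j := fun (σ : ↥A → Bool) => A.filter (fun x => ∃ h : x ∈ A, σ ⟨x, h⟩ = false))
  · intro U _
    exact Finset.mem_univ _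
  · intro σ _
    exact Finset.mem_powerset.2 (Finset.filter_subset _ _)
  · intro U hU
    rw [Finset.mem_powerset] at hU
    ext x
    simp only [Finset.mem_filter, Bool.not_eq_false', decide_eq_true_eq]
    constructor
    · rintro ⟨_, _, h⟩
      exact h
    · intro h
      exact ⟨hU h, hU h, h⟩
  · intro σ _
    funext x
    have : (x.1 ∈ A.filter (fun x => ∃ h : x ∈ A, σ ⟨x, h⟩ = false)) ↔ σ x = false := by
      simp only [Finset.mem_filter]
      constructor
      · rintro ⟨_, _, h⟩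
        exact h
      · intro h
        exact ⟨x.2, x.2, h⟩
    cases h : σ x
    · simp [this, h]
    · simp [this, h]
  · intro U _
    congr 1
    · unfold wt
      have h3 : ∏ x : ↥A, (if (!(decide (x.1 ∈ U))) = false then q else 1 - q)
          = ∏ x ∈ A, (if x ∈ U then q else 1 - q) := by
        rw [← Finset.prod_coe_sort A (fun x => if x ∈ U then q else 1 - q)]
        apply Finset.prod_congr rfl
        intro x _
        simp
      rw [h3, Finset.prod_ite, Finset.prod_const, Finset.prod_const, Finset.filter_mem_eq_inter,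
        Finset.filter_notMem_eq_sdiff]

end Inf
end FA

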