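import Mathlib
import Pool.Agent.Helper769.FAG.D60668
import Pool.Agent.Helper769.FAG.G1
import Pool.Agent.Helper769.FAG.S1
import Pool.Agent.Helper769.FAG.S2
import Pool.Agent.Helper769.FAG.S3
import Pool.Agent.Helper769.FAG.S4
import Pool.Agent.Helper769.FAG.S6
import Pool.Agent.Helper769.FAG.Dce33a
import Pool.Agent.Helper769.FAG.R1
import Pool.Agent.Helper769.FAG.G6
import Pool.Agent.Helper769.FAG.D3
import Pool.Agent.Helper769.FAG.S10
import Pool.Agent.Helper769.FAG.D49892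
import Pool.Agent.Helper769.FAG.LB
import Pool.Agent.Helper769.FAG.D5e21f
import Pool.Agent.Helper769.FAG.OSC
import Pool.Agent.Helper769.FAG.FIN1
import Pool.Agent.Helper769.FAG.D9bd8b
import Pool.Agent.Helper769.FAG.INF1
import Pool.Agent.Helper769.FAG.INF2

set_option autoImplicit false
set_option linter.unusedSectionVars false

open Finset

noncomputable section

-- ---- TARGET (prove everything below; everything above is GIVEN, sorrys above are proved elsewhere)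
-- USES: G1 S1 S2 S3 S4 S6 D2 R1 G6 D3 S10 D4 LB D5 OSC FIN1 D6 INF1 INF2
namespace FA
namespace Inf
open MeasureTheory
variable {q : ℝ}

theorem fin2_EA_bd (h0 : 0 < q) (h1 : q < 1) (B : Finset ℤ) (F : Finset ℤ → ℝ) (M : ℝ)
    (hM : ∀ T, |F T| ≤ M) : |EA q B F| ≤ M := by
  unfold EA
  calc |∑ U ∈ B.powerset, wt q B U * F U| ≤ ∑ U ∈ B.powerset, |wt q B U * F U| :=
        Finset.abs_sum_le_sum_abs _ _
    _ ≤ ∑ U ∈ B.powerset, wt q B U * M := by
      apply Finset.sum_le_sum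
      intro U _
      rw [abs_mul, abs_of_nonneg (wt_nonneg h0.le h1.le B U)]
      exact mul_le_mul_of_nonneg_left (hM U) (wt_nonneg h0.le h1.le B U)
    _ = M := by rw [← Finset.sum_mul, wt_sum, one_mul]

theorem fin2_pt (h0 : 0 < q) (h1 : q < 1) (s : Sys) (r : ℕ) (f : Cfg → ℝ) (hf : Loc r f)
    (M : ℝ) (hM1 : 1 ≤ M) (hM : ∀ η, |f η| ≤ M)
    (κ1 c3 C3 t0 : ℝ)
    (hfin : ∀ t : ℝ, t0 ≤ t → ∀ R : ℕ, 16 * t ≤ R → (R : ℝ) ≤ 16 * t + 1 →
      ∀ S, S ⊆ Icc (-(R : ℤ)) R → (∃ x ∈ S, (|x| : ℝ) ≤ κ1 * t) →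
      ∀ F : Finset ℤ → ℝ, (∀ T, F T = F (T ∩ Icc (-(r : ℤ)) r)) → (∀ T, |F T| ≤ 1) →
        |(kG q h0.le h1.le (Icc (-(R : ℤ)) R) (s.k (-(R : ℤ)) R)).P t F S -
          EA q (Icc (-(r : ℤ)) r) F| ≤ C3 * Real.exp (-(c3 * t)))
    (t : ℝ) (ht0 : t0 ≤ t) (ht1 : 1 ≤ t) (htr : (r : ℝ) ≤ t) (η : Cfg) (x : ℤ)
    (hx : η x = false)
    (hx1 : |(x : ℝ)| ≤ κ1 * t) (hx2 : |(x : ℝ)| ≤ t) :
    |Pinf q t f η - EA q (Finset.Icc (-(r : ℤ)) r) (toF r f)| ≤
      4 * M * Real.exp r * Real.exp (-(9 * t)) + M * C3 * Real.exp (-(c3 * t)) := by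
  have hMp : 0 < M := by linarith
  obtain ⟨R, hR⟩ : ∃ R, R = ⌈16 * t⌉₊ := ⟨_, rfl⟩
  have hR1 : 16 * t ≤ R := by rw [hR]; exact Nat.le_ceil _
  have hR2 : (R : ℝ) ≤ 16 * t + 1 := by rw [hR]; exact (Nat.ceil_lt_add_one (by linarith)).le
  have hRr : r ≤ R := by
    have : (r : ℝ) ≤ R := by linarith
    exact_mod_cast this
  have hR0 : 1 ≤ R := by
    have : (1 : ℝ) ≤ R := by linarith
    exact_mod_cast this
  have hadm : Adm (-(R : ℤ)) R (s.k (-(R : ℤ)) R) := s.adm _ _ (by omega)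
  have e1 := Pinf_compare h0.le h1.le r f hf M hM (-(R : ℤ)) R (R - r) (by omega) (by omega)
    (s.k (-(R : ℤ)) R) hadm.toAdm0 t (by linarith) η
  have e2 : 4 * M * t * Real.exp (6 * t - ((R - r : ℕ) : ℝ)) ≤
      4 * M * Real.exp r * Real.exp (-(9 * t)) := by
    rw [Nat.cast_sub hRr]
    have ht : t ≤ Real.exp t := by have := Real.add_one_le_exp t; linarith
    have h2 : Real.exp (6 * t - ((R : ℝ) - r)) ≤ Real.exp (r - 10 * t) :=
      Real.exp_le_exp.mpr (by linarith)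
    calc 4 * M * t * Real.exp (6 * t - ((R : ℝ) - r)) ≤
          4 * M * Real.exp t * Real.exp (r - 10 * t) := by
          gcongr
      _ = 4 * M * (Real.exp t * Real.exp (r - 10 * t)) := by ring
      _ = 4 * M * (Real.exp r * Real.exp (-(9 * t))) := by
          rw [← Real.exp_add, ← Real.exp_add]; ring_nf
      _ = _ := by ring
  have hmem : x ∈ SI (-(R : ℤ)) R η := by
    have h3 := abs_le.mp hx2
    have h4 : -(R : ℝ) ≤ x := by linarith [h3.1]
    have h5 : (x : ℝ) ≤ R := by linarith [h3.2]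
    refine Finset.mem_filter.mpr ⟨Finset.mem_Icc.mpr ⟨?_, ?_⟩, hx⟩
    · exact_mod_cast h4
    · exact_mod_cast h5
  have e3 := hfin t ht0 R hR1 hR2 (SI (-(R : ℤ)) R η) (Finset.filter_subset _ _)
    ⟨x, hmem, hx1⟩ (fun T => M⁻¹ * toF r f T)
    (fun T => congrArg (fun z => M⁻¹ * z) (toF_loc r f T))
    (fun T => by
      have h3 : |toF r f T| ≤ M := hM _
      rw [abs_mul, abs_of_pos (inv_pos.mpr hMp), inv_mul_le_iff₀ hMp]
      linarith)
  have hBd : Bd (toF r f) := ⟨M, fun T => hM _⟩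
  have e4 : EA q (Icc (-(r : ℤ)) r) (fun T => M⁻¹ * toF r f T) =
      M⁻¹ * EA q (Icc (-(r : ℤ)) r) (toF r f) := by
    unfold EA
    rw [Finset.mul_sum]
    apply Finset.sum_congr rfl
    intro U _
    ring
  rw [MG.P_smul _ _ _ hBd, e4, ← mul_sub, abs_mul, abs_of_pos (inv_pos.mpr hMp),
    inv_mul_le_iff₀ hMp] at e3
  have e5 := abs_le.mp (e1.trans e2)
  have e6 := abs_le.mp e3
  rw [abs_le]
  constructor
  · linarith [e5.1, e6.1]
  · linarith [e5.2, e6.2]

/-- exponential relaxation, given persistence of infection in finite systems -/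
theorem fin2 (h0 : 0 < q) (h1 : q < 1) (s : Sys) (θ c C : ℝ) (hθ : 0 < θ) (hc : 0 < c) (hC : 1 ≤ C)
    (N0 : ℤ) (hp : PersS s q h0 h1 θ c C N0)
    (ν : Measure Cfg) [IsProbabilityMeasure ν] (κ A : ℝ) (hκ : 0 < κ)
    (hν : ∀ l : ℕ, ν.real {η | ∀ x : ℤ, -(l : ℤ) ≤ x → x ≤ l → η x = true} ≤ A * Real.exp (-(κ * l)))
    (r : ℕ) (f : Cfg → ℝ) (hf : Loc r f) :
    ∃ C' c' : ℝ, 0 < C' ∧ 0 < c' ∧ ∀ t : ℝ, 0 ≤ t →
      |∫ η, Pinf q t f η ∂ν - ∫ η, f η ∂(piq q h0 h1)| ≤ C' * Real.exp (-(c' * t)) := by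
  obtain ⟨M0, hM0⟩ := Loc_bd r f hf
  obtain ⟨κ1, c3, C3, t0, hκ1, hc3, hC3, hfin⟩ := fin1 h0 h1 s θ c C hθ hc hC N0 hp r
  obtain ⟨M, hMdef⟩ : ∃ M, M = max M0 1 := ⟨_, rfl⟩
  have hM1 : 1 ≤ M := by rw [hMdef]; exact le_max_right _ _
  have hM : ∀ η, |f η| ≤ M := fun η => (hM0 η).trans (by rw [hMdef]; exact le_max_left _ _)
  have hMp : 0 < M := by linarith
  obtain ⟨EAf, hEAf⟩ : ∃ EAf, EAf = EA q (Finset.Icc (-(r : ℤ)) r) (toF r f) := ⟨_, rfl⟩
  have hEAb : |EAf| ≤ M := by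
    rw [hEAf]
    exact fin2_EA_bd h0 h1 _ _ M (fun T => hM _)
  have hA : 0 ≤ A := by
    have h := hν 0
    have h2 : 0 ≤ ν.real {η : Cfg | ∀ x : ℤ, -((0 : ℕ) : ℤ) ≤ x → x ≤ ((0 : ℕ) : ℤ) →
      η x = true} := measureReal_nonneg
    have h3 := h2.trans h
    simpa using h3
  obtain ⟨κ2, hκ2⟩ : ∃ κ2, κ2 = min κ1 1 := ⟨_, rfl⟩
  have hκ2p : 0 < κ2 := by rw [hκ2]; exact lt_min hκ1 one_pos
  have hκ21 : κ2 ≤ κ1 := by rw [hκ2]; exact min_le_left _ _
  have hκ22 : κ2 ≤ 1 := by rw [hκ2]; exact min_le_right _ _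
  obtain ⟨c', hc'⟩ : ∃ c', c' = min 9 (min c3 (κ * κ2)) := ⟨_, rfl⟩
  have hc'p : 0 < c' := by
    rw [hc']
    exact lt_min (by norm_num) (lt_min hc3 (mul_pos hκ hκ2p))
  have hc'1 : c' ≤ 9 := by rw [hc']; exact min_le_left _ _
  have hc'2 : c' ≤ c3 := by rw [hc']; exact (min_le_right _ _).trans (min_le_left _ _)
  have hc'3 : c' ≤ κ * κ2 := by rw [hc']; exact (min_le_right _ _).trans (min_le_right _ _)
  obtain ⟨t1, ht1⟩ : ∃ t1, t1 = max t0 (max 1 (r : ℝ)) := ⟨_, rfl⟩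
  have ht1a : t0 ≤ t1 := by rw [ht1]; exact le_max_left _ _
  have ht1b : 1 ≤ t1 := by rw [ht1]; exact (le_max_left _ _).trans (le_max_right _ _)
  have ht1c : (r : ℝ) ≤ t1 := by rw [ht1]; exact (le_max_right _ _).trans (le_max_right _ _)
  have hpos1 : 0 < 4 * M * Real.exp r := by positivity
  have hpos2 : 0 < M * C3 := by positivity
  have hpos3 : 0 ≤ 2 * M * (A * Real.exp κ) := by positivity
  have hpos4 : 0 < 2 * M * Real.exp (c' * t1) := by positivity
  refine ⟨4 * M * Real.exp r + M * C3 + 2 * M * (A * Real.exp κ) + 2 * M * Real.exp (c' * t1),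
    c', by linarith, hc'p, ?_⟩
  intro t ht
  obtain ⟨hmeas, hPb'⟩ := Pinf_meas h0.le h1.le r f hf t ht
  have hPb := hPb' M hM
  rw [int_piq h0 h1 r f hf, ← hEAf]
  have hint : Integrable (Pinf q t f) ν :=
    Integrable.of_bound hmeas.aestronglyMeasurable M (Filter.Eventually.of_forall hPb)
  have key : ∀ (g : Cfg → ℝ), Integrable g ν → (∀ η, |Pinf q t f η - EAf| ≤ g η) →
      |∫ η, Pinf q t f η ∂ν - EAf| ≤ ∫ η, g η ∂ν := by
    intro g hg hle
    have h3 : ∫ η, Pinf q t f η ∂ν - EAf = ∫ η, (Pinf q t f η - EAf) ∂ν := by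
      rw [integral_sub hint (integrable_const _), integral_const]
      simp
    have h9 : ∀ᵐ η ∂ν, ‖Pinf q t f η - EAf‖ ≤ g η := Filter.Eventually.of_forall hle
    rw [h3, ← Real.norm_eq_abs]
    exact norm_integral_le_of_norm_le hg h9
  have h2M : ∀ η, |Pinf q t f η - EAf| ≤ 2 * M := by
    intro η
    have a1 := abs_le.mp (hPb η)
    have a2 := abs_le.mp hEAb
    rw [abs_le]
    constructor <;> linarith [a1.1, a1.2, a2.1, a2.2]
  have hexp : 0 < Real.exp (-(c' * t)) := Real.exp_pos _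
  rcases lt_or_ge t t1 with htt | htt
  · have h4 := key (fun _ => 2 * M) (integrable_const _) h2M
    have h5 : ∫ _η : Cfg, 2 * M ∂ν = 2 * M := by simp
    rw [h5] at h4
    refine h4.trans ?_
    have h6 : 1 ≤ Real.exp (c' * t1) * Real.exp (-(c' * t)) := by
      rw [← Real.exp_add]
      apply Real.one_le_exp
      nlinarith
    nlinarith [mul_pos hpos1 hexp, mul_pos hpos2 hexp, mul_nonneg hpos3 hexp.le]
  · obtain ⟨l, hl⟩ : ∃ l, l = ⌊κ2 * t⌋₊ := ⟨_, rfl⟩
    have hl1 : (l : ℝ) ≤ κ2 * t := by rw [hl]; exact Nat.floor_le (by positivity)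
    have hl2 : κ2 * t < l + 1 := by rw [hl]; exact Nat.lt_floor_add_one _
    obtain ⟨E, hE⟩ : ∃ E : Set Cfg, E = {η | ∀ x : ℤ, -(l : ℤ) ≤ x → x ≤ l → η x = true} :=
      ⟨_, rfl⟩
    have hEm : MeasurableSet E := by
      have hEe : E = ⋂ x : ℤ, ⋂ _ : -(l : ℤ) ≤ x, ⋂ _ : x ≤ l,
          ((fun η : Cfg => η x) ⁻¹' {true}) := by
        rw [hE]
        ext η
        simp
      rw [hEe]
      exact MeasurableSet.iInter fun x => MeasurableSet.iInter fun _ =>
        MeasurableSet.iInter fun _ => measurable_pi_apply x (measurableSet_singleton true)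
    obtain ⟨ε, hε⟩ : ∃ ε, ε = 4 * M * Real.exp r * Real.exp (-(9 * t)) +
      M * C3 * Real.exp (-(c3 * t)) := ⟨_, rfl⟩
    have hε0 : 0 ≤ ε := by rw [hε]; positivity
    have h4 := key (fun η => ε + E.indicator (fun _ => 2 * M) η)
      ((integrable_const ε).add ((integrable_const (2 * M)).indicator hEm)) (by
        intro η
        by_cases hη : η ∈ E
        · rw [Set.indicator_of_mem hη]
          linarith [h2M η]
        · rw [Set.indicator_of_notMem hη, add_zero]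
          rw [hE] at hη
          simp only [Set.mem_setOf_eq, not_forall] at hη
          obtain ⟨x, hx1, hx2, hx3⟩ := hη
          rw [Bool.not_eq_true] at hx3
          have hxl : |(x : ℝ)| ≤ l := by
            rw [abs_le]
            constructor
            · exact_mod_cast hx1
            · exact_mod_cast hx2
          have hle1 : κ2 * t ≤ κ1 * t := mul_le_mul_of_nonneg_right hκ21 ht
          have hle2 : κ2 * t ≤ 1 * t := mul_le_mul_of_nonneg_right hκ22 ht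
          rw [hε, hEAf]
          exact fin2_pt h0 h1 s r f hf M hM1 hM κ1 c3 C3 t0 hfin t (by linarith) (by linarith)
            (by linarith) η x hx3 (by linarith) (by linarith))
    have h5 : ∫ η, (ε + E.indicator (fun _ => 2 * M) η) ∂ν = ε + ν.real E * (2 * M) := by
      rw [integral_add (integrable_const _) ((integrable_const (2 * M)).indicator hEm),
        integral_indicator_const _ hEm, integral_const]
      simp
    rw [h5] at h4
    refine h4.trans ?_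
    have h6 : ν.real E ≤ A * Real.exp κ * Real.exp (-(c' * t)) := by
      rw [hE]
      refine (hν l).trans ?_
      rw [mul_assoc, ← Real.exp_add]
      apply mul_le_mul_of_nonneg_left _ hA
      apply Real.exp_le_exp.mpr
      have h7 : κ * (κ2 * t) ≤ κ * (l + 1) := mul_le_mul_of_nonneg_left hl2.le hκ.le
      have h8 : c' * t ≤ κ * κ2 * t := mul_le_mul_of_nonneg_right hc'3 ht
      nlinarith
    have h7 : Real.exp (-(9 * t)) ≤ Real.exp (-(c' * t)) := by
      apply Real.exp_le_exp.mpr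
      nlinarith
    have h8 : Real.exp (-(c3 * t)) ≤ Real.exp (-(c' * t)) := by
      apply Real.exp_le_exp.mpr
      nlinarith
    have h9 : ε ≤ (4 * M * Real.exp r + M * C3) * Real.exp (-(c' * t)) := by
      rw [hε, add_mul]
      exact add_le_add (mul_le_mul_of_nonneg_left h7 hpos1.le)
        (mul_le_mul_of_nonneg_left h8 hpos2.le)
    have h10 : ν.real E * (2 * M) ≤ A * Real.exp κ * Real.exp (-(c' * t)) * (2 * M) :=
      mul_le_mul_of_nonneg_right h6 (by linarith)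
    nlinarith [mul_pos hpos4 hexp]


end Inf
end FA

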