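import Mathlib
import Pool.Agent.Helper769.FAG.D60668
import Pool.Agent.Helper769.FAG.G1
import Pool.Agent.Helper769.FAG.S1
import Pool.Agent.Helper769.FAG.S2
import Pool.Agent.Helper769.FAG.S3
import Pool.Agent.Helper769.FAG.S4
import Pool.Agent.Helper769.FAG.Dce33a
import Pool.Agent.Helper769.FAG.OSC
import Pool.Agent.Helper769.FAG.D9bd8b
import Pool.Agent.Helper769.FAG.INF1
import Pool.Agent.Helper769.FAG.INF2

set_option autoImplicit false
set_option linter.unusedSectionVars false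

open Finset

noncomputable section

-- ---- TARGET (prove everything below; everything above is GIVEN, sorrys above are proved elsewhere)
-- USES: G1 S1 S2 S3 S4 D2 OSC D6 INF1 INF2
namespace FA
namespace Inf
variable {q : ℝ}

theorem Loc_flip (r : ℕ) (f : Cfg → ℝ) (hf : Loc r f) (η : Cfg) (x : ℤ)
    (hx : ¬ (-(r : ℤ) ≤ x ∧ x ≤ r)) : f (flip η x) = f η := by
  apply hf
  intro y hy1 hy2
  unfold flip
  rw [Function.update_of_ne]
  rintro rfl
  exact hx ⟨hy1, hy2⟩

theorem Lfull_loc (r : ℕ) (f : Cfg → ℝ) (hf : Loc r f) : Loc (r + 1) (Lfull q f) := by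
  intro η η' h
  unfold Lfull
  apply tsum_congr
  intro x
  by_cases hx : -(r : ℤ) ≤ x ∧ x ≤ r
  · have h1 : η (x - 1) = η' (x - 1) := h _ (by push_cast; omega) (by push_cast; omega)
    have h2 : η (x + 1) = η' (x + 1) := h _ (by push_cast; omega) (by push_cast; omega)
    have h3 : η x = η' x := h _ (by push_cast; omega) (by push_cast; omega)
    have h4 : f η = f η' := hf _ _ fun y hy1 hy2 => h y (by push_cast; omega) (by push_cast; omega)
    have h5 : f (flip η x) = f (flip η' x) := by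
      apply hf
      intro y hy1 hy2
      unfold flip
      by_cases hxy : y = x
      · subst hxy
        rw [Function.update_self, Function.update_self, h3]
      · rw [Function.update_of_ne hxy, Function.update_of_ne hxy]
        exact h y (by push_cast; omega) (by push_cast; omega)
    unfold rate con
    rw [h1, h2, h3, h4, h5]
  · rw [Loc_flip r f hf η x hx, Loc_flip r f hf η' x hx, sub_self, sub_self, mul_zero, mul_zero]

theorem Pinf_zero (f : Cfg → ℝ) (η : Cfg) : Pinf q 0 f η = f η := by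
  have h : ∀ n : ℕ, Pbox q n 0 f η = f η := by
    intro n
    unfold Pbox
    rw [tsum_eq_single 0]
    · simp
    · intro m hm
      simp [hm]
  unfold Pinf
  simp only [h]
  exact Filter.Tendsto.limUnder_eq tendsto_const_nhds

theorem Lfull_eq_Lbox (r : ℕ) (f : Cfg → ℝ) (hf : Loc r f) (n : ℕ) (hn : r ≤ n) (η : Cfg) :
    Lfull q f η = Lbox q n f η := by
  unfold Lfull Lbox
  apply tsum_eq_sum
  intro x hx
  rw [Loc_flip r f hf η x, sub_self, mul_zero]
  intro h
  apply hx
  rw [Finset.mem_Icc]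
  omega

theorem mix_eq_false (a b : ℤ) (η : Cfg) (S : Finset ℤ) (y : ℤ) :
    mix a b η S y = false ↔ (y ∈ Finset.Icc a b ∧ y ∈ S) ∨ (y ∉ Finset.Icc a b ∧ η y = false) := by
  unfold mix
  by_cases hy : y ∈ Finset.Icc a b
  · rw [if_pos hy]
    simp only [hy, true_and, not_true_eq_false, false_and, or_false]
    by_cases hS : y ∈ S <;> simp [hS]
  · rw [if_neg hy]
    simp only [hy, false_and, not_false_eq_true, true_and, false_or]

theorem con_mix_i3 (a b : ℤ) (η : Cfg) (S : Finset ℤ) (x : ℤ) :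
    con x (mix a b η S) = kv (kfr a b η) x S := by
  unfold con kv kfr
  simp only [mix_eq_false, decide_eq_true_eq]
  congr 1
  apply propext
  tauto

theorem genK_mix (n : ℕ) (f : Cfg → ℝ) (η : Cfg) (S : Finset ℤ) :
    genK q (Finset.Icc (-(n : ℤ)) n) (kfr (-(n : ℤ)) n η) (fun S => f (mix (-(n : ℤ)) n η S)) S =
      Lbox q n f (mix (-(n : ℤ)) n η S) := by
  unfold genK Lbox
  apply Finset.sum_congr rfl
  intro x hx
  unfold rate
  rw [con_mix_i3]
  by_cases hS : x ∈ S
  · have h1 : mix (-(n : ℤ)) n η S x = false := by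
      rw [mix_eq_false]; exact Or.inl ⟨hx, hS⟩
    have h2 : flip (mix (-(n : ℤ)) n η S) x = mix (-(n : ℤ)) n η (S.erase x) := by
      funext y
      unfold flip
      by_cases hy : y = x
      · subst hy
        rw [Function.update_self, h1]
        unfold mix
        rw [if_pos hx]
        simp
      · rw [Function.update_of_ne hy]
        unfold mix
        simp [hy]
    rw [h2, h1, Finset.insert_eq_of_mem hS, if_neg (by simp)]
    ring
  · have h1 : mix (-(n : ℤ)) n η S x = true := by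
      unfold mix
      rw [if_pos hx]
      simp [hS]
    have h2 : flip (mix (-(n : ℤ)) n η S) x = mix (-(n : ℤ)) n η (insert x S) := by
      funext y
      unfold flip
      by_cases hy : y = x
      · subst hy
        rw [Function.update_self, h1]
        unfold mix
        rw [if_pos hx]
        simp
      · rw [Function.update_of_ne hy]
        unfold mix
        simp [hy]
    rw [h2, h1, Finset.erase_eq_of_notMem hS, if_pos rfl]
    ring

theorem Pbox_deriv (h0 : 0 ≤ q) (h1 : q ≤ 1) (r : ℕ) (f : Cfg → ℝ) (hf : Loc r f) (n : ℕ)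
    (hn : r ≤ n) (s : ℝ) (η : Cfg) :
    HasDerivAt (fun s => Pbox q n s f η) (Pbox q n s (Lfull q f) η) s := by
  have hFb : Bd (fun S => f (mix (-(n : ℤ)) n η S)) := by
    obtain ⟨M, hM⟩ := Loc_bd r f hf
    exact ⟨M, fun S => hM _⟩
  have h2 := (kG q h0 h1 (Finset.Icc (-(n : ℤ)) n) (kfr (-(n : ℤ)) n η)).P_deriv
    (fun S => f (mix (-(n : ℤ)) n η S)) hFb s (SI (-(n : ℤ)) n η)
  rw [← MG.P_comm _ _ hFb] at h2
  have h3 : (kG q h0 h1 (Finset.Icc (-(n : ℤ)) n) (kfr (-(n : ℤ)) n η)).L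
      (fun S => f (mix (-(n : ℤ)) n η S)) = fun S => Lfull q f (mix (-(n : ℤ)) n η S) := by
    funext S
    rw [kG_L, genK_mix, Lfull_eq_Lbox r f hf n hn]
  rw [h3, ← Pbox_eq h0 h1 n s (Lfull q f) η] at h2
  have h4 : (fun s => Pbox q n s f η) = fun s =>
      (kG q h0 h1 (Finset.Icc (-(n : ℤ)) n) (kfr (-(n : ℤ)) n η)).P s
        (fun S => f (mix (-(n : ℤ)) n η S)) (SI (-(n : ℤ)) n η) := by
    funext s
    exact Pbox_eq h0 h1 n s f η
  rw [h4]
  exact h2

theorem Pinf_sub_Pbox (h0 : 0 ≤ q) (h1 : q ≤ 1) (r : ℕ) (f : Cfg → ℝ) (hf : Loc r f) (M : ℝ)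
    (hM : ∀ η, |f η| ≤ M) (n : ℕ) (hn : r + 1 ≤ n) (s : ℝ) (hs : 0 ≤ s) (η : Cfg) :
    |Pinf q s f η - Pbox q n s f η| ≤ 4 * M * s * Real.exp (6 * s - ((n : ℝ) - r)) := by
  have h2 := Pinf_compare h0 h1 r f hf M hM (-(n : ℤ)) n (n - r) (by omega) (by omega)
    (kfr (-(n : ℤ)) n η) (adm0_fr (-(n : ℤ)) n (by omega) η) s hs η
  rw [Pbox_eq h0 h1 n s f η]
  have h3 : (fun S => f (mix (-(n : ℤ)) n η S)) = toF r f := by
    funext S
    exact toF_mix r f hf n (by omega) η S
  rw [h3]
  rw [Nat.cast_sub (by omega)] at h2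
  exact h2

/-- forward equation characterising the process -/
theorem Pinf_deriv (h0 : 0 ≤ q) (h1 : q ≤ 1) (r : ℕ) (f : Cfg → ℝ) (hf : Loc r f) (t : ℝ) (ht : 0 < t)
    (η : Cfg) : HasDerivAt (fun s => Pinf q s f η) (Pinf q t (Lfull q f) η) t := by
  obtain ⟨M, hM⟩ := Loc_bd (r + 1) (Lfull q f) (Lfull_loc r f hf)
  have hM0 : 0 ≤ M := le_trans (abs_nonneg _) (hM η)
  have hopen : IsOpen (Set.Ioo (0 : ℝ) (t + 1)) := isOpen_Ioo
  refine hasDerivAt_of_tendstoUniformlyOn (l := Filter.atTop)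
    (f := fun (n : ℕ) (s : ℝ) => Pbox q n s f η)
    (f' := fun (n : ℕ) (s : ℝ) => Pbox q n s (Lfull q f) η)
    (g := fun s => Pinf q s f η) (g' := fun s => Pinf q s (Lfull q f) η) hopen ?_ ?_ ?_ (x := t)
    ⟨ht, by linarith⟩
  · rw [Metric.tendstoUniformlyOn_iff]
    intro ε hε
    have hlim : Filter.Tendsto (fun n : ℕ => 4 * M * (t + 1) * Real.exp (6 * (t + 1) + (r + 1)) *
        Real.exp (-(n : ℝ))) Filter.atTop (nhds 0) := by
      have h2 : Filter.Tendsto (fun n : ℕ => Real.exp (-(n : ℝ))) Filter.atTop (nhds 0) :=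
        Real.tendsto_exp_neg_atTop_nhds_zero.comp tendsto_natCast_atTop_atTop
      simpa using h2.const_mul (4 * M * (t + 1) * Real.exp (6 * (t + 1) + (r + 1)))
    filter_upwards [hlim.eventually (gt_mem_nhds hε), Filter.eventually_ge_atTop (r + 2)] with n hn1
      hn2 s hs
    rw [Real.dist_eq]
    refine lt_of_le_of_lt (Pinf_sub_Pbox h0 h1 (r + 1) _ (Lfull_loc r f hf) M hM n hn2 s
      hs.1.le η) (lt_of_le_of_lt ?_ hn1)
    rw [mul_assoc (4 * M * (t + 1)), ← Real.exp_add]
    have h3 : Real.exp (6 * s - ((n : ℝ) - (r + 1 : ℕ))) ≤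
        Real.exp (6 * (t + 1) + (r + 1) + -(n : ℝ)) := by
      apply Real.exp_le_exp.2
      push_cast
      linarith [hs.2]
    have h4 : 4 * M * s ≤ 4 * M * (t + 1) := mul_le_mul_of_nonneg_left hs.2.le (by positivity)
    exact mul_le_mul h4 h3 (Real.exp_pos _).le (le_trans (by have := hs.1.le; positivity) h4)
  · filter_upwards [Filter.eventually_ge_atTop r] with n hn s _
    exact Pbox_deriv h0 h1 r f hf n hn s η
  · intro s hs
    exact (Pinf_lim h0 h1 r f hf s hs.1.le).tendsto_at η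

end Inf
end FA

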