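import Pool.Agent.Helper769.FAF.P_pers
import Pool.Agent.Helper769.FAG.FIN2
import Pool.Agent.Helper769.FAG.INF3

set_option autoImplicit false
set_option linter.unusedSectionVars false

open Finset

noncomputable section

-- ---- TARGET (prove everything below; everything above is GIVEN, sorrys above are proved elsewhere)
namespace FA
variable {q : ℝ}

theorem dT_mod_add (M y : ℤ) (h1 : y < 0) (h2 : 0 ≤ y + M) : y % M = y + M := by
  have h3 : (y + M) % M = y % M := Int.add_emod_right y M
  rw [← h3]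
  exact Int.emod_eq_of_lt h2 (by omega)

theorem dT_le (a b z x : ℤ) (hz : z ∈ Icc a b) (hx : x ∈ Icc a b) : (FAF.dT a b z x : ℤ) ≤ |z - x| := by
  rw [Finset.mem_Icc] at hz hx
  unfold FAF.dT
  rcases le_total z x with h | h
  · have h1 : (x - z) % (b - a + 1) = x - z := Int.emod_eq_of_lt (by omega) (by omega)
    have h2 : |z - x| = x - z := by rw [abs_sub_comm]; exact abs_of_nonneg (by omega)
    rw [h1, h2]
    have h3 : min (x - z).toNat ((z - x) % (b - a + 1)).toNat ≤ (x - z).toNat := min_le_left _ _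
    omega
  · have h1 : (z - x) % (b - a + 1) = z - x := Int.emod_eq_of_lt (by omega) (by omega)
    have h2 : |z - x| = z - x := abs_of_nonneg (by omega)
    rw [h1, h2]
    have h3 : min ((x - z) % (b - a + 1)).toNat (z - x).toNat ≤ (z - x).toNat := min_le_right _ _
    omega

theorem dT_ge (a b z x : ℤ) (r : ℕ) (hz : z ∈ Icc a b) (hx : x ∈ Icc a b) (h1 : (r : ℤ) ≤ z - a)
    (h2 : (r : ℤ) ≤ b - z) (h3 : (r : ℤ) ≤ |z - x|) : r ≤ FAF.dT a b z x := by
  rw [Finset.mem_Icc] at hz hx
  unfold FAF.dT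
  rcases lt_trichotomy z x with h | h | h
  · have e1 : (x - z) % (b - a + 1) = x - z := Int.emod_eq_of_lt (by omega) (by omega)
    have e2 : |z - x| = x - z := by rw [abs_sub_comm]; exact abs_of_nonneg (by omega)
    have e3 : (z - x) % (b - a + 1) = z - x + (b - a + 1) := dT_mod_add _ _ (by omega) (by omega)
    rw [e2] at h3
    rw [e1, e3]
    exact le_min (by omega) (by omega)
  · subst h
    rw [sub_self, abs_zero] at h3
    omega
  · have e1 : (z - x) % (b - a + 1) = z - x := Int.emod_eq_of_lt (by omega) (by omega)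
    have e2 : |z - x| = z - x := abs_of_nonneg (by omega)
    have e3 : (x - z) % (b - a + 1) = x - z + (b - a + 1) := dT_mod_add _ _ (by omega) (by omega)
    rw [e2] at h3
    rw [e1, e3]
    exact le_min (by omega) (by omega)

/-- the torus -/
def sysT : Sys where
  k := ktor
  D := FAF.dT
  adm := adm_tor
  D1 := dT_le
  D2 := dT_ge

theorem genT_eq (q : ℝ) (a b : ℤ) (F : Finset ℤ → ℝ) (S : Finset ℤ) :
    FAF.genT q a b F S = genK q (Icc a b) (ktor a b) F S := by
  unfold FAF.genT genK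
  apply Finset.sum_congr rfl
  intro x _
  have : FAF.cstT a b x S = kv (ktor a b) x S := by
    unfold FAF.cstT kv ktor
    simp only [decide_eq_true_eq]
    rfl
  rw [this]

theorem persT_genT_congr (q : ℝ) (a b : ℤ) (V1 : Finset ℤ → ℝ) (S : Finset ℤ) (hS : S ⊆ Icc a b) :
    FAF.genT q a b (fun S => V1 (S ∩ Icc a b)) S = FAF.genT q a b V1 S := by
  unfold FAF.genT
  apply Finset.sum_congr rfl
  intro x hx
  have e1 : insert x S ∩ Icc a b = insert x S :=
    Finset.inter_eq_left.2 (Finset.insert_subset hx hS)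
  have e2 : S.erase x ∩ Icc a b = S.erase x :=
    Finset.inter_eq_left.2 ((Finset.erase_subset x S).trans hS)
  have e3 : S ∩ Icc a b = S := Finset.inter_eq_left.2 hS
  simp only [e1, e2, e3]

theorem persT (h0 : 0 < q) (h1 : q < 1) : ∃ (θ c C : ℝ) (N0 : ℤ), 0 < θ ∧ 0 < c ∧ 1 ≤ C ∧
    PersS sysT q h0 h1 θ c C N0 := by
  obtain ⟨th, c, C, N0, hth, hc, hC, hN0, H⟩ := FAF.pers q h0 h1
  refine ⟨th, c, max (max 2 (C / c)) 1, max N0 2, hth, hc, le_max_right _ _, ?_⟩
  have hC2 : (2 : ℝ) ≤ max (max 2 (C / c)) 1 := (le_max_left _ _).trans (le_max_left _ _)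
  have hCc : C / c ≤ max (max 2 (C / c)) 1 := (le_max_right _ _).trans (le_max_left _ _)
  have hC1 : (1 : ℝ) ≤ max (max 2 (C / c)) 1 := le_max_right _ _
  generalize max (max 2 (C / c)) 1 = C' at hC2 hCc hC1
  intro a b hab z hz
  obtain ⟨V1, hV0, hV⟩ := H a b ((le_max_left _ _).trans hab) z hz
  have hab2 : a + 2 ≤ b := by
    have := (le_max_right N0 2).trans hab
    omega
  have hnn : ∀ S, 0 ≤ V1 (S ∩ Icc a b) := by
    intro S
    by_cases hne : (S ∩ Icc a b).Nonempty
    · obtain ⟨⟨x, -, hx⟩, -, -⟩ := hV (S ∩ Icc a b) Finset.inter_subset_right hne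
      have := Real.exp_pos (th * (FAF.dT a b z x : ℝ))
      linarith
    · rw [Finset.not_nonempty_iff_eq_empty] at hne
      rw [hne, hV0]
  refine ⟨fun S => V1 (S ∩ Icc a b), ?_, hnn, ?_⟩
  · intro S
    show V1 (S ∩ Icc a b) = V1 ((S ∩ Icc a b) ∩ Icc a b)
    rw [Finset.inter_assoc, Finset.inter_self]
  · intro S hSI hSne
    obtain ⟨⟨x0, hx0, hx0'⟩, hup, hgen⟩ := hV S hSI hSne
    have hSS : S ∩ Icc a b = S := Finset.inter_eq_left.2 hSI
    have hVS : 0 ≤ V1 S := by
      have := hnn S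
      rwa [hSS] at this
    refine ⟨?_, ?_, ?_⟩
    · intro x hx
      show V1 (S ∩ Icc a b) ≤ C' * Real.exp (th * (FAF.dT a b z x : ℝ))
      rw [hSS]
      exact (hup x hx).trans (mul_le_mul_of_nonneg_right hC2 (Real.exp_pos _).le)
    · refine ⟨x0, hx0, ?_⟩
      show Real.exp (th * (FAF.dT a b z x0 : ℝ)) ≤ C' * V1 (S ∩ Icc a b)
      rw [hSS]
      exact hx0'.trans (mul_le_mul_of_nonneg_right hC2 hVS)
    · intro t ht
      have hclosed : ∀ i ∈ (kG q h0.le h1.le (Icc a b) (ktor a b)).I,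
          ∀ x ∈ {U : Finset ℤ | U ⊆ Icc a b ∧ U.Nonempty},
          (kG q h0.le h1.le (Icc a b) (ktor a b)).r i x ≠ 0 →
          (kG q h0.le h1.le (Icc a b) (ktor a b)).T i x ∈ {U : Finset ℤ | U ⊆ Icc a b ∧ U.Nonempty} := by
        rintro ⟨y, bo⟩ hi U ⟨hU1, hU2⟩ hr
        have hy : y ∈ Icc a b := (Finset.mem_product.1 hi).1
        cases bo with
        | true =>
          show insert y U ⊆ Icc a b ∧ (insert y U).Nonempty
          exact ⟨Finset.insert_subset hy hU1, Finset.insert_nonempty _ _⟩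
        | false =>
          show U.erase y ⊆ Icc a b ∧ (U.erase y).Nonempty
          refine ⟨(Finset.erase_subset _ _).trans hU1, ?_⟩
          have hr' : kv (ktor a b) y U ≠ 0 := by
            intro h
            apply hr
            show kv (ktor a b) y U * _ = 0
            rw [h, zero_mul]
          have hk : ktor a b y U = true := by
            by_contra h
            apply hr'
            unfold kv
            rw [if_neg h]
          obtain ⟨w, -, hw1, hw2⟩ := (adm_tor a b hab2).ne y hy U hk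
          exact ⟨w, Finset.mem_erase.2 ⟨hw1, hw2⟩⟩
      have hbd : Bd (fun S => V1 (S ∩ Icc a b)) := by
        refine ⟨∑ U ∈ (Icc a b).powerset, |V1 U|, fun U => ?_⟩
        exact Finset.single_le_sum (f := fun U => |V1 U|) (fun _ _ => abs_nonneg _)
          (Finset.mem_powerset.2 Finset.inter_subset_right)
      have hL : ∀ U ∈ {U : Finset ℤ | U ⊆ Icc a b ∧ U.Nonempty},
          (kG q h0.le h1.le (Icc a b) (ktor a b)).L (fun S => V1 (S ∩ Icc a b)) U ≤
            - c * V1 (U ∩ Icc a b) + C := by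
        rintro U ⟨hU1, hU2⟩
        rw [kG_L, ← genT_eq, persT_genT_congr q a b V1 U hU1, Finset.inter_eq_left.2 hU1]
        exact (hV U hU1 hU2).2.2
      have hP := MG.P_lyap2 (kG q h0.le h1.le (Icc a b) (ktor a b))
        {U : Finset ℤ | U ⊆ Icc a b ∧ U.Nonempty} hclosed (fun S => V1 (S ∩ Icc a b)) hbd c C hc
        hC.le hL t ht S ⟨hSI, hSne⟩
      refine hP.trans ?_
      show Real.exp (-c * t) * V1 (S ∩ Icc a b) + C / c ≤
        C' * Real.exp (-(c * t)) * V1 (S ∩ Icc a b) + C'
      rw [hSS]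
      have e : -c * t = -(c * t) := by ring
      rw [e]
      have h2 : Real.exp (-(c * t)) * V1 S ≤ C' * Real.exp (-(c * t)) * V1 S := by
        have h3 : 0 ≤ Real.exp (-(c * t)) * V1 S := mul_nonneg (Real.exp_pos _).le hVS
        nlinarith
      linarith

end FA
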