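import Pool.Agent.Helper769.FAG.Link

open Finset

noncomputable section

namespace FA
namespace Inf
open MeasureTheory

/-- exponential relaxation of the infinite-volume semigroup, for every `q` in `(0,1)` -/
theorem main0 (q : ℝ) (h0 : 0 < q) (h1 : q < 1)
    (ν : Measure Cfg) [IsProbabilityMeasure ν] (κ A : ℝ) (hκ : 0 < κ)
    (hν : ∀ l : ℕ, ν.real {η | ∀ x : ℤ, -(l : ℤ) ≤ x → x ≤ l → η x = true} ≤ A * Real.exp (-(κ * l)))
    (r : ℕ) (f : Cfg → ℝ) (hf : Loc r f) :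
    ∃ C' c' : ℝ, 0 < C' ∧ 0 < c' ∧ ∀ t : ℝ, 0 ≤ t →
      |∫ η, Pinf q t f η ∂ν - ∫ η, f η ∂(piq q h0 h1)| ≤ C' * Real.exp (-(c' * t)) := by
  obtain ⟨θ, c, C, N0, hθ, hc, hC, hp⟩ := persT (q := q) h0 h1
  exact fin2 h0 h1 sysT θ c C hθ hc hC N0 hp ν κ A hκ hν r f hf

end Inf
end FA
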